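import Pool.Agent.T9h27.D.Asm

/-!
# The density theorem for families, general form (helper27)
-/

set_option autoImplicit false
set_option linter.unusedSectionVars false

open UniqueFactorizationMonoid MeasureTheory Complex Filter Topology Set

namespace Pool.Agent.T9h27.D

open Pool.Agent.N786.D
open Pool.Agent.R399.TW (pt pt_re pt_im pt_cont)

section

variable {M : Type} [CommMonoidWithZero M] [NormalizationMonoid M] [UniqueFactorizationMonoid M]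
  [Subsingleton Mˣ] [Nontrivial M] {N : M →*₀ ℕ} {n₀ : ℕ}

/-- **the density theorem**, zeros to the right of the critical line -/
theorem dens_R (hN : NS N n₀) {e h c A : ℝ} (he : 0 < e) (hh1 : h ≤ 1) (hc0 : 0 < c)
    (hc : c < 2 * h - 1) (hA : 1 ≤ A) (n : ℕ) (hn : 1 ≤ n) :
    ∃ (Q R₀ : ℝ), 0 ≤ Q ∧ 1 ≤ R₀ ∧
    ∀ (R T H P : ℝ) (ι : Type) (S : Finset ι) (χ : ι → M →*₀ ℂ)
      (F : ι → ℂ → ℂ), R₀ ≤ R → 1 ≤ H → H ≤ T → S.card * H ≤ P →
      (∀ X : ℕ, 1 ≤ X → (X : ℝ) ≤ Real.exp ((h - (2 * h - 1 - c) / 12) * R) →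
        LSU N S χ H P e X) →
      (∀ i ∈ S, GLf N A T R n (χ i) (F i)) →
      (∀ i ∈ S, ∀ s : ℂ, 1 < s.re → F i s ≠ 0) →
      ∀ t₁ : ℝ, |t₁| ≤ T → ∀ δ : ℝ, 0 ≤ δ →
      ∀ Z : ι → Finset ℂ,
      (∀ i ∈ S, ∀ z ∈ Z i, 1 / 2 + δ ≤ z.re ∧ t₁ ≤ z.im ∧ z.im ≤ t₁ + H) →
      ∑ i ∈ S, ∑ z ∈ Z i, (analyticOrderNatAt (F i) z : ℝ) ≤
        Q * (P * R * Real.exp (-(c * R * δ))) := by
  classical
  obtain ⟨G, hG⟩ := hN.wgt
  obtain ⟨g, hg⟩ : ∃ g : ℝ, g = (2 * h - 1 - c) / 12 := ⟨_, rfl⟩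
  have hg0 : 0 < g := by rw [hg]; linarith
  obtain ⟨φ, hφ⟩ := cut_exists (a := 1 / 2 + 2 * g) (b := 1 / 2 + 3 * g) (by linarith) (by linarith)
  obtain ⟨θ, hθ⟩ := cut_exists (a := c / 2 + g) (b := c / 2 + 2 * g) (by linarith) (by linarith)
  obtain ⟨Q, R₀, hQ, hR₀, hmain⟩ := dens_all hN he hG hφ hθ
    (α' := 1 / 2 + g) (β' := c / 2) (by linarith) (by linarith) (by linarith) (by linarith)
    (by linarith) (by linarith) (by linarith) (by linarith) hA n hn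
  refine ⟨Q, R₀, hQ, hR₀, ?_⟩
  intro R T H P ι S χ F hR hH hHT hP hls hF hnv t₁ ht₁ δ hδ Z hZ
  have hR1 : 1 ≤ R := hR₀.trans hR
  have hR0 : 0 < R := by linarith
  set F' : ι → ℂ → ℂ := fun i => if i ∈ S then F i else fun _ => 0 with hF'
  have hFS : ∀ i ∈ S, F' i = F i := fun i hl => by simp only [hF']; rw [if_pos hl]
  have hFd : ∀ i, Differentiable ℂ (F' i) := by
    intro i
    by_cases hl : i ∈ S
    · rw [hFS i hl]
      exact (hF i hl).diff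
    · simp only [hF']
      rw [if_neg hl]
      exact differentiable_const _
  obtain ⟨M₁, hM₁⟩ : ∃ M₁ : ℕ, M₁ = ⌊Real.exp ((1 / 2 + 3 * g) * R)⌋₊ := ⟨_, rfl⟩
  obtain ⟨M₂, hM₂⟩ : ∃ M₂ : ℕ, M₂ = ⌊Real.exp ((c / 2 + 2 * g) * R)⌋₊ := ⟨_, rfl⟩
  have hMM : ((M₁ * M₂ : ℕ) : ℝ) ≤ Real.exp ((h - g) * R) := by
    have h1 : (M₁ : ℝ) ≤ Real.exp ((1 / 2 + 3 * g) * R) := by
      rw [hM₁]; exact Nat.floor_le (Real.exp_pos _).le
    have h2 : (M₂ : ℝ) ≤ Real.exp ((c / 2 + 2 * g) * R) := by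
      rw [hM₂]; exact Nat.floor_le (Real.exp_pos _).le
    push_cast
    refine (mul_le_mul h1 h2 (Nat.cast_nonneg _) (Real.exp_pos _).le).trans (le_of_eq ?_)
    rw [← Real.exp_add]
    congr 1
    rw [hg]
    ring
  have hMpos : 1 ≤ M₁ * M₂ := by
    have h1 : 1 ≤ M₁ := by
      rw [hM₁]
      refine Nat.le_floor ?_
      rw [Nat.cast_one]
      exact Real.one_le_exp (by positivity)
    have h2 : 1 ≤ M₂ := by
      rw [hM₂]
      refine Nat.le_floor ?_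
      rw [Nat.cast_one]
      exact Real.one_le_exp (by positivity)
    exact Nat.mul_pos h1 h2
  have hLS : LSU N S χ H P e (M₁ * M₂) := hls _ hMpos (by rw [← hg]; exact hMM)
  rw [hM₁, hM₂] at hLS
  have hfin := hmain R T H P ι S χ F' hR hH hHT hP hLS hFd
    (fun i hl => by rw [hFS i hl]; exact hF i hl)
    (fun i hl => by rw [hFS i hl]; exact hnv i hl) t₁ ht₁ δ hδ Z hZ
  have e1 : ∑ i ∈ S, ∑ z ∈ Z i, (analyticOrderNatAt (F i) z : ℝ) =
      ∑ i ∈ S, ∑ z ∈ Z i, (analyticOrderNatAt (F' i) z : ℝ) :=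
    Finset.sum_congr rfl fun i hl => by rw [hFS i hl]
  rw [e1]
  refine hfin.trans (le_of_eq ?_)
  congr 3
  ring

end

/-- the zeros in the open critical strip with `T₁ < Im s ≤ T₂` and `|Re s - 1/2| ≥ δ` -/
def farZ (F : ℂ → ℂ) (δ T₁ T₂ : ℝ) : Set ℂ :=
  {s : ℂ | 0 < s.re ∧ s.re < 1 ∧ T₁ < s.im ∧ s.im ≤ T₂ ∧ F s = 0 ∧ δ ≤ |s.re - 1 / 2|}

/-- their number, with multiplicity -/
noncomputable def Nfar (F : ℂ → ℂ) (δ T₁ T₂ : ℝ) : ℕ :=
  ∑ᶠ s ∈ farZ F δ T₁ T₂, analyticOrderNatAt F s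

/-- the order at a zero is positive -/
lemma ord_pos {F : ℂ → ℂ} (hF : Differentiable ℂ F) {w : ℂ} (hw : F w ≠ 0) {z : ℂ} (hz : F z = 0) :
    1 ≤ analyticOrderNatAt F z := by
  have hA : AnalyticOnNhd ℂ F univ := fun z _ => hF.analyticAt z
  have h1 : analyticOrderAt F w ≠ ⊤ := by
    rw [(hF.analyticAt w).analyticOrderAt_eq_zero.mpr hw]
    exact ENat.zero_ne_top
  have h2 : analyticOrderAt F z ≠ ⊤ :=
    hA.analyticOrderAt_ne_top_of_isPreconnected isPreconnected_univ (mem_univ w) (mem_univ z) h1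
  have h3 : analyticOrderAt F z ≠ 0 := by
    rw [Ne, (hF.analyticAt z).analyticOrderAt_eq_zero]
    exact fun h => h hz
  unfold analyticOrderNatAt
  rw [Nat.one_le_iff_ne_zero, Ne, ENat.toNat_eq_zero]
  tauto

/-- a set whose finite subsets have bounded size is finite -/
lemma finite_of_card {α : Type} {s : Set α} {B : ℝ}
    (h : ∀ t : Finset α, (∀ x ∈ t, x ∈ s) → (t.card : ℝ) ≤ B) : s.Finite := by
  by_contra hs
  have hinf : s.Infinite := hs
  obtain ⟨t, ht, hc⟩ := hinf.exists_subset_card_eq (⌊B⌋₊ + 1)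
  have h1 := h t fun x hx => ht hx
  rw [hc] at h1
  have h2 := Nat.lt_floor_add_one B
  push_cast at h1
  linarith

/-- **both sides of the critical line** -/
theorem two_side {ι : Type} (S : Finset ι) (F : ι → ℂ → ℂ) {δ t₁ H B : ℝ} (hδ : 0 ≤ δ)
    (hd : ∀ i ∈ S, Differentiable ℂ (F i)) (hne : ∀ i ∈ S, F i 2 ≠ 0)
    (hsym : ∀ i ∈ S, ∀ z : ℂ, 0 < z.re → z.re < 1 →
      analyticOrderNatAt (F i) z = analyticOrderNatAt (F i) (1 - (starRingEnd ℂ) z))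
    (hB : ∀ Z : ι → Finset ℂ,
      (∀ i ∈ S, ∀ z ∈ Z i, 1 / 2 + δ ≤ z.re ∧ t₁ ≤ z.im ∧ z.im ≤ t₁ + H) →
      ∑ i ∈ S, ∑ z ∈ Z i, (analyticOrderNatAt (F i) z : ℝ) ≤ B) :
    (∀ i ∈ S, (farZ (F i) δ t₁ (t₁ + H)).Finite) ∧
      ∑ i ∈ S, (Nfar (F i) δ t₁ (t₁ + H) : ℝ) ≤ 2 * B := by
  classical
  have hinj : Function.Injective fun z : ℂ => 1 - (starRingEnd ℂ) z := by
    intro z w hzw
    simp only at hzw
    have h1 : (starRingEnd ℂ) z = (starRingEnd ℂ) w := by linear_combination -hzw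
    exact (starRingEnd ℂ).injective h1
  have htwo : ∀ (Z : ι → Finset ℂ),
      (∀ i ∈ S, ∀ z ∈ Z i, z ∈ farZ (F i) δ t₁ (t₁ + H)) →
      ∑ i ∈ S, ∑ z ∈ Z i, (analyticOrderNatAt (F i) z : ℝ) ≤ 2 * B := by
    intro Z hZ
    have h1 := hB (fun i => (Z i).filter fun z => 1 / 2 ≤ z.re) (by
      intro i hl z hz
      obtain ⟨c1, c2⟩ := Finset.mem_filter.mp hz
      obtain ⟨d1, d2, d3, d4, d5, d6⟩ := hZ i hl z c1
      rw [abs_of_nonneg (by linarith)] at d6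
      exact ⟨by linarith, d3.le, d4⟩)
    have h2 := hB (fun i => ((Z i).filter fun z => ¬ 1 / 2 ≤ z.re).image
      fun z => 1 - (starRingEnd ℂ) z) (by
      intro i hl z hz
      obtain ⟨w, hw, rfl⟩ := Finset.mem_image.mp hz
      obtain ⟨c1, c2⟩ := Finset.mem_filter.mp hw
      obtain ⟨d1, d2, d3, d4, d5, d6⟩ := hZ i hl w c1
      push Not at c2
      rw [abs_of_neg (by linarith)] at d6
      simp only [Complex.sub_re, Complex.one_re, Complex.conj_re, Complex.sub_im, Complex.one_im,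
        Complex.conj_im]
      exact ⟨by linarith, by linarith, by linarith⟩)
    have h3 : ∑ i ∈ S, ∑ z ∈ Z i, (analyticOrderNatAt (F i) z : ℝ) =
        (∑ i ∈ S, ∑ z ∈ (Z i).filter (fun z => 1 / 2 ≤ z.re),
          (analyticOrderNatAt (F i) z : ℝ)) +
        ∑ i ∈ S, ∑ z ∈ ((Z i).filter fun z => ¬ 1 / 2 ≤ z.re).image
          (fun z => 1 - (starRingEnd ℂ) z), (analyticOrderNatAt (F i) z : ℝ) := by
      rw [← Finset.sum_add_distrib]
      refine Finset.sum_congr rfl fun i hl => ?_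
      rw [← Finset.sum_filter_add_sum_filter_not (Z i) (fun z => 1 / 2 ≤ z.re)]
      congr 1
      rw [Finset.sum_image fun x _ y _ hxy => hinj hxy]
      refine Finset.sum_congr rfl fun z hz => ?_
      obtain ⟨c1, c2⟩ := Finset.mem_filter.mp hz
      obtain ⟨d1, d2, -⟩ := hZ i hl z c1
      rw [hsym i hl z d1 d2]
    rw [h3]
    linarith
  have hnn : ∀ (Z : ι → Finset ℂ) (i : ι), 0 ≤ ∑ z ∈ Z i, (analyticOrderNatAt (F i) z : ℝ) :=
    fun Z i => Finset.sum_nonneg fun _ _ => Nat.cast_nonneg _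
  have hfz : ∀ i ∈ S, (farZ (F i) δ t₁ (t₁ + H)).Finite := by
    intro i hl
    refine finite_of_card (B := 2 * B) fun Z hZ => ?_
    have h1 := htwo (fun j => if j = i then Z else ∅) (fun j hj z hz => by
      by_cases hji : j = i
      · subst hji
        rw [if_pos rfl] at hz
        exact hZ z hz
      · rw [if_neg hji] at hz
        exact absurd hz (Finset.notMem_empty _))
    have h2 := Finset.single_le_sum (f := fun j => ∑ z ∈ (if j = i then Z else ∅),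
      (analyticOrderNatAt (F j) z : ℝ)) (fun j _ => hnn (fun j => if j = i then Z else ∅) j) hl
    simp only [if_true] at h2
    refine le_trans ?_ (h2.trans h1)
    have h2 : ((Z.card : ℕ) : ℝ) = ∑ _z ∈ Z, (1 : ℝ) := by simp
    rw [h2]
    refine Finset.sum_le_sum fun z hz => ?_
    have := ord_pos (hd i hl) (hne i hl) (hZ z hz).2.2.2.2.1
    exact_mod_cast this
  refine ⟨hfz, ?_⟩
  have hval : ∀ i ∈ S, (Nfar (F i) δ t₁ (t₁ + H) : ℝ) =
      ∑ z ∈ (if hl : i ∈ S then (hfz i hl).toFinset else ∅),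
        (analyticOrderNatAt (F i) z : ℝ) := by
    intro i hl
    rw [dif_pos hl]
    unfold Nfar
    rw [finsum_mem_eq_finite_toFinset_sum _ (hfz i hl)]
    push_cast
    rfl
  rw [Finset.sum_congr rfl hval]
  refine htwo _ fun i hl z hz => ?_
  rw [dif_pos hl, Set.Finite.mem_toFinset] at hz
  exact hz

end Pool.Agent.T9h27.D
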