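import Pool.Agent.T9h27.D.Map

/-!
# Counting zeros in short windows to the right of a line (helper27)
-/

set_option autoImplicit false

namespace Pool.Agent.T9h27.D

open MeasureTheory Set Filter Topology Complex Metric
open Pool.Agent.N786.D
open Pool.Agent.R399.TW (pt pt_re pt_im pt_cont)

/-- several windows -/
lemma many_win {ι : Type} (I : Finset ι) (f : ι → ℂ → ℂ) (x s H v : ℝ) (hH : 0 ≤ H) (J : ℕ) :
    ∑ i ∈ I, ∫⁻ t in Icc s (s + J * H), ENNReal.ofReal (‖f i (pt x (t + v))‖ ^ 2) ≤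
      ∑ j ∈ Finset.range J, QQ I f x H (s + j * H + v) := by
  induction J with
  | zero =>
    simp only [Finset.range_zero, Finset.sum_empty, Nat.cast_zero, zero_mul, add_zero]
    refine le_of_eq (Finset.sum_eq_zero fun i _ => ?_)
    rw [Icc_self, Measure.restrict_singleton]
    simp
  | succ J ih =>
    rw [Finset.sum_range_succ]
    have hsub : Icc s (s + ((J + 1 : ℕ) : ℝ) * H) ⊆ Icc s (s + J * H) ∪
        Icc (s + J * H) (s + J * H + H) := by
      intro t ht
      rcases le_total t (s + J * H) with h1 | h1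
      · left; exact ⟨ht.1, h1⟩
      · right
        refine ⟨h1, ?_⟩
        have := ht.2
        push_cast at this
        linarith
    refine le_trans ?_ (add_le_add ih (le_refl (QQ I f x H (s + J * H + v))))
    unfold QQ
    rw [← Finset.sum_add_distrib]
    refine Finset.sum_le_sum fun i _ => ?_
    refine (lintegral_mono_set hsub).trans ?_
    refine (lintegral_union_le _ _ _).trans ?_
    refine add_le_add le_rfl ?_
    rw [lint_shift (fun t => ENNReal.ofReal (‖f i (pt x t)‖ ^ 2))]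

/-- **the number of zeros to the right of a line**, short windows -/
theorem zero_count_s {ι : Type} {I : Finset ι} {f : ι → ℂ → ℂ} (hf : ∀ i, Differentiable ℂ (f i))
    {a μ T H P σ t₁ : ℝ} {E J : ℕ} (hμ : 10 ≤ μ) (hT : 1 ≤ T) (hH0 : 0 < H) (hHT : H ≤ T)
    (hJ : H + 2 / μ ≤ J * H) (hP : 0 ≤ P) (ht₁ : |t₁| ≤ T) (ha : 1 / 2 ≤ a)
    (haσ : a + 1 / μ ≤ σ) (hσ : σ < 2)
    (hQ : ∀ r : ℝ, 0 < r → r ≤ 4 → ∀ t₀ : ℝ, QQ I f (a + r) H t₀ ≤
      ENNReal.ofReal (P * Real.exp (-(2 * (μ * r))) * (1 + |t₀| / T) ^ E))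
    (h2 : ∀ i ∈ I, ∀ z : ℂ, 2 ≤ z.re → ‖f i z‖ ^ 2 ≤ 1 / 2)
    (Z : ι → Finset ℂ)
    (hZ : ∀ i ∈ I, ∀ z ∈ Z i, σ + 1 / μ ≤ z.re ∧ t₁ ≤ z.im ∧ z.im ≤ t₁ + H) :
    ∑ i ∈ I, ∑ z ∈ Z i, (analyticOrderNatAt (fun s => 1 - f i s ^ 2) z : ℝ) ≤
      432 * (J * (J + 4) ^ E) * (P * μ * Real.exp (-(2 * (μ * (σ - a))))) := by
  classical
  have hμ0 : 0 < μ := by linarith
  have hT0 : 0 < T := by linarith
  obtain ⟨η, hη⟩ : ∃ η : ℝ, η = 1 / μ := ⟨_, rfl⟩
  have hη0 : 0 < η := by rw [hη]; positivity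
  have hη1 : η ≤ 1 / 10 := by
    rw [hη]
    exact one_div_le_one_div_of_le (by norm_num) hμ
  obtain ⟨q, hq⟩ : ∃ q : ℝ, q = Real.exp (-(μ * (2 - σ))) := ⟨_, rfl⟩
  have hq0 : 0 < q := by rw [hq]; exact Real.exp_pos _
  have hq1 : q < 1 := by
    rw [hq, Real.exp_lt_one_iff]
    have : 0 < μ * (2 - σ) := mul_pos hμ0 (by linarith)
    linarith
  obtain ⟨ρ, hρ⟩ : ∃ ρ : ℝ, ρ = Real.sqrt (1 - q / 36) := ⟨_, rfl⟩
  have hρ2 : ρ ^ 2 = 1 - q / 36 := by rw [hρ, Real.sq_sqrt (by linarith)]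
  have hρ0 : 0 < ρ := by rw [hρ]; exact Real.sqrt_pos.mpr (by linarith)
  have hρ1 : ρ < 1 := by
    by_contra h
    push Not at h
    nlinarith
  have hcm : ∀ φ : ℝ, ‖circleMap 0 ρ φ‖ = ρ := fun φ => by
    rw [norm_circleMap_zero, abs_of_pos hρ0]
  -- the curve
  obtain ⟨X, hX⟩ : ∃ X : ℝ → ℝ, ∀ φ, X φ = (Ph μ σ q (circleMap 0 ρ φ)).re := ⟨_, fun _ => rfl⟩
  obtain ⟨Y, hY⟩ : ∃ Y : ℝ → ℝ, ∀ φ, Y φ = (Ph μ σ q (circleMap 0 ρ φ)).im := ⟨_, fun _ => rfl⟩
  have hPhc : Continuous fun φ : ℝ => Ph μ σ q (circleMap 0 ρ φ) := by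
    rw [continuous_iff_continuousAt]
    intro φ
    exact (Ph_an hq0 hq1 (by rw [hcm]; exact hρ1)).continuousAt.comp
      (continuous_circleMap 0 ρ).continuousAt
  have hXc : Continuous X := by
    have : X = fun φ => (Ph μ σ q (circleMap 0 ρ φ)).re := funext hX
    rw [this]
    exact Complex.continuous_re.comp hPhc
  have hYc : Continuous Y := by
    have : Y = fun φ => (Ph μ σ q (circleMap 0 ρ φ)).im := funext hY
    rw [this]
    exact Complex.continuous_im.comp hPhc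
  have hYb : ∀ φ, |Y φ| ≤ 2 * η := by
    intro φ
    rw [hY, hη]
    refine (Ph_im hμ0 hq0 hq1 (by rw [hcm]; exact hρ1)).trans (le_of_eq ?_)
    ring
  have hXe : ∀ φ, Real.exp (-(2 * (μ * (X φ - σ)))) = (‖gm q (circleMap 0 ρ φ)‖⁻¹) ^ 2 := by
    intro φ
    have h3 := gm_low hq0 hq1 (w := circleMap 0 ρ φ) (by rw [hcm]; exact hρ1)
    have h4 : 0 < ‖gm q (circleMap 0 ρ φ)‖ := by linarith
    rw [hX, Ph_re]
    have e : -(2 * (μ * (σ + 1 / μ * Real.log ‖gm q (circleMap 0 ρ φ)‖ - σ))) =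
        (2 : ℕ) * -(Real.log ‖gm q (circleMap 0 ρ φ)‖) := by
      push_cast
      field_simp
      ring
    rw [e, Real.exp_nat_mul, Real.exp_neg, Real.exp_log h4]
  have hXlow : ∀ φ, a < X φ := by
    intro φ
    have h3 := gm_low hq0 hq1 (w := circleMap 0 ρ φ) (by rw [hcm]; exact hρ1)
    have h5 : -(7 / 10) ≤ Real.log ‖gm q (circleMap 0 ρ φ)‖ := by
      have h6 : Real.log (1 / 2) ≤ Real.log ‖gm q (circleMap 0 ρ φ)‖ :=
        Real.log_le_log (by norm_num) h3
      have h7 : Real.log (1 / 2 : ℝ) = -Real.log 2 := by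
        rw [one_div, Real.log_inv]
      have h8 := Real.log_two_lt_d9
      rw [h7] at h6
      linarith
    rw [hX, Ph_re]
    have h9 : 1 / μ * (-(7 / 10)) ≤ 1 / μ * Real.log ‖gm q (circleMap 0 ρ φ)‖ :=
      mul_le_mul_of_nonneg_left h5 (by positivity)
    have h10 : 0 < 1 / μ := by positivity
    linarith
  have hXupp : ∀ φ, X φ ≤ a + 4 := by
    intro φ
    have h3 := gm_low hq0 hq1 (w := circleMap 0 ρ φ) (by rw [hcm]; exact hρ1)
    have h4 := gm_upp hq0 hq1 hρ1 hρ0 hρ2 (w := circleMap 0 ρ φ) (hcm φ).le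
    have h5 : Real.log ‖gm q (circleMap 0 ρ φ)‖ ≤ 5 + 2 * (μ * (2 - σ)) := by
      have h6 := Real.log_le_log (by linarith) h4
      refine h6.trans ?_
      rw [Real.log_div (by norm_num) (by positivity), Real.log_pow, hq, Real.log_exp]
      have h7 : Real.log 144 ≤ 5 := by
        rw [Real.log_le_iff_le_exp (by norm_num)]
        have h8 := Real.exp_one_gt_d9
        have h9 : Real.exp 5 = Real.exp 1 ^ 5 := by rw [← Real.exp_nat_mul]; norm_num
        rw [h9]
        calc (144 : ℝ) ≤ 2.718 ^ 5 := by norm_num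
          _ ≤ _ := by gcongr; linarith
      push_cast
      linarith
    rw [hX, Ph_re]
    have h9 : 1 / μ * Real.log ‖gm q (circleMap 0 ρ φ)‖ ≤ 1 / μ * (5 + 2 * (μ * (2 - σ))) :=
      mul_le_mul_of_nonneg_left h5 (by positivity)
    have h10 : 1 / μ * (5 + 2 * (μ * (2 - σ))) = 5 * (1 / μ) + 2 * (2 - σ) := by
      field_simp
    have h11 : 1 / μ ≤ 1 / 10 := by rw [← hη]; exact hη1
    have h12 : 0 < 1 / μ := by positivity
    linarith
  obtain ⟨ω, hω⟩ : ∃ ω : ℝ, ω = q / 144 := ⟨_, rfl⟩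
  have hω0 : 0 < ω := by rw [hω]; positivity
  set Js : Set ℝ := Icc (t₁ - η) (t₁ - η + J * H) with hJs
  obtain ⟨Z', hZ'⟩ : ∃ Z' : ι → Finset ℂ, ∀ i z, z ∈ Z' i ↔ z ∈ Z i ∧ z.re ≤ 2 :=
    ⟨fun i => (Z i).filter fun z => z.re ≤ 2, fun i z => Finset.mem_filter⟩
  set od : ι → ℂ → ℕ := fun i z => analyticOrderNatAt (fun s => 1 - f i s ^ 2) z with hod
  have hfc : ∀ i, Continuous fun q : ℝ × ℝ => ‖f i (pt q.1 q.2)‖ := by
    intro i
    refine ((hf i).continuous.comp ?_).norm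
    unfold pt
    fun_prop
  -- removing the points with large real part
  have hred : ∀ i ∈ I, ∑ z ∈ Z i, (od i z : ℝ) = ∑ z ∈ Z' i, (od i z : ℝ) := by
    intro i hi
    refine (Finset.sum_subset (fun z hz => ((hZ' i z).mp hz).1) fun z hz hz2 => ?_).symm
    have h3 : ¬ z.re ≤ 2 := fun h => hz2 ((hZ' i z).mpr ⟨hz, h⟩)
    have h4 := h2 i hi z (by linarith)
    have h5 : (fun s => 1 - f i s ^ 2) z ≠ 0 := by
      intro h6
      simp only at h6
      have h7 : f i z ^ 2 = 1 := (sub_eq_zero.mp h6).symm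
      rw [← norm_pow, h7, norm_one] at h4
      norm_num at h4
    have h8 : od i z = 0 := by
      simp only [hod]
      unfold analyticOrderNatAt
      have hda : Differentiable ℂ fun s => 1 - f i s ^ 2 :=
        (differentiable_const _).sub ((hf i).pow 2)
      rw [(hda.analyticAt z).analyticOrderAt_eq_zero.mpr h5]
      rfl
    rw [h8]; simp
  -- pointwise Jensen
  have hpt : ∀ i ∈ I, ∀ t : ℝ, ∑ z ∈ Z' i, (od i z : ENNReal) * (ENNReal.ofReal ω *
      (Icc (z.im - η) (z.im + η)).indicator 1 t) ≤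
      ENNReal.ofReal (2 * Real.pi)⁻¹ * (∫⁻ φ in Ioc 0 (2 * Real.pi),
        ENNReal.ofReal (‖f i (pt (X φ) (t + Y φ))‖ ^ 2)) +
      ENNReal.ofReal 2 * ENNReal.ofReal (‖f i (pt 2 t)‖ ^ 2) := by
    intro i hi t
    have hc2 : Ph μ σ q 0 + (t : ℂ) * Complex.I = pt 2 t := by
      rw [Ph_zero hμ0 hq]
      apply Complex.ext
      · rw [pt_re]; simp
      · rw [pt_im]; simp
    have h1 := jensen_phi (Φ := fun w => Ph μ σ q w + (t : ℂ) * Complex.I) (hf i) (ρ := ρ) (ω := ω) hρ0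
      (fun w hw => by
        rw [mem_closedBall, dist_zero_right, abs_of_pos hρ0] at hw
        exact (Ph_an hq0 hq1 (by linarith)).add analyticAt_const)
      (by rw [hc2]; exact h2 i hi _ (by rw [pt_re]))
      (Z := (Z' i).filter fun z => t ∈ Icc (z.im - η) (z.im + η)) hω0.le (by
        intro z hz
        obtain ⟨hz1, hz2⟩ := Finset.mem_filter.mp hz
        obtain ⟨hz3, hz4⟩ := (hZ' i z).mp hz1
        rw [hω]
        refine Ph_inv hμ0 hσ hq hρ2 hρ0 (hZ i hi z hz3).1 hz4 ?_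
        rw [← hη, abs_le]
        constructor <;> linarith [hz2.1, hz2.2])
    have h3 : ∑ z ∈ Z' i, (od i z : ENNReal) * (ENNReal.ofReal ω *
        (Icc (z.im - η) (z.im + η)).indicator 1 t) =
        ENNReal.ofReal (∑ z ∈ (Z' i).filter (fun z => t ∈ Icc (z.im - η) (z.im + η)),
          (od i z : ℝ) * ω) := by
      rw [ENNReal.ofReal_sum_of_nonneg (fun z _ => by positivity), Finset.sum_filter]
      refine Finset.sum_congr rfl fun z _ => ?_
      by_cases hz : t ∈ Icc (z.im - η) (z.im + η)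
      · rw [if_pos hz, indicator_of_mem hz, Pi.one_apply, mul_one,
          ENNReal.ofReal_mul (Nat.cast_nonneg _), ENNReal.ofReal_natCast]
      · rw [if_neg hz, indicator_of_notMem hz, mul_zero, mul_zero]
    rw [h3]
    refine (ENNReal.ofReal_le_ofReal h1).trans ?_
    have hcont : Continuous fun φ : ℝ => ‖f i (pt (X φ) (t + Y φ))‖ ^ 2 :=
      ((hfc i).comp (by fun_prop : Continuous fun φ : ℝ =>
        ((X φ, t + Y φ) : ℝ × ℝ))).pow 2
    have h4 : Real.circleAverage (fun z => ‖f i (Ph μ σ q z + (t : ℂ) * Complex.I)‖ ^ 2) 0 ρ =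
        (2 * Real.pi)⁻¹ * ∫ φ in Ioc 0 (2 * Real.pi), ‖f i (pt (X φ) (t + Y φ))‖ ^ 2 := by
      rw [Real.circleAverage_def, smul_eq_mul,
        intervalIntegral.integral_of_le (by positivity)]
      congr 1
      refine integral_congr_ae (Eventually.of_forall fun φ => ?_)
      have h5 : Ph μ σ q (circleMap 0 ρ φ) + (t : ℂ) * Complex.I = pt (X φ) (t + Y φ) := by
        apply Complex.ext
        · rw [pt_re, hX]; simp
        · rw [pt_im, hY]; simp [add_comm]
      simp only [h5]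
    rw [h4, hc2, ENNReal.ofReal_add (mul_nonneg (by positivity)
      (integral_nonneg fun φ => by positivity)) (by positivity),
      ENNReal.ofReal_mul (by positivity), ENNReal.ofReal_mul (by norm_num),
      ofReal_integral_eq_lintegral_ofReal ?_ (Eventually.of_forall fun φ => by positivity)]
    exact (hcont.integrableOn_Icc (a := 0) (b := 2 * Real.pi)).mono_set Ioc_subset_Icc_self
  -- integrating the left side
  have hleft : ∀ i ∈ I, ∫⁻ t in Js, ∑ z ∈ Z' i, (od i z : ENNReal) * (ENNReal.ofReal ω *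
      (Icc (z.im - η) (z.im + η)).indicator 1 t) =
      ENNReal.ofReal ((∑ z ∈ Z' i, (od i z : ℝ)) * (ω * (2 * η))) := by
    intro i hi
    rw [lintegral_finsetSum _ fun z _ => by
      refine Measurable.const_mul (Measurable.const_mul ?_ _) _
      exact measurable_one.indicator measurableSet_Icc]
    rw [Finset.sum_mul, ENNReal.ofReal_sum_of_nonneg (fun z _ => by positivity)]
    refine Finset.sum_congr rfl fun z hz => ?_
    obtain ⟨hz3, hz4⟩ := (hZ' i z).mp hz
    obtain ⟨_, hz5, hz6⟩ := hZ i hi z hz3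
    rw [lintegral_const_mul _ ((measurable_one.indicator measurableSet_Icc).const_mul _),
      lintegral_const_mul _ (measurable_one.indicator measurableSet_Icc),
      lintegral_indicator_one measurableSet_Icc, Measure.restrict_apply measurableSet_Icc,
      inter_eq_left.mpr, Real.volume_Icc, ENNReal.ofReal_mul (Nat.cast_nonneg _),
      ENNReal.ofReal_natCast, ENNReal.ofReal_mul hω0.le]
    · congr 3
      ring
    · intro t ht
      have : 2 / μ = 2 * η := by rw [hη]; ring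
      rw [this] at hJ
      exact ⟨by linarith [ht.1], by linarith [ht.2]⟩
  -- windows
  obtain ⟨W, hW⟩ : ∃ W : ℝ, W = J * (J + 4) ^ E * P := ⟨_, rfl⟩
  have hW0 : 0 ≤ W := by rw [hW]; positivity
  have hwin : ∀ r v : ℝ, 0 < r → r ≤ 4 → |v| ≤ 2 * η →
      ∑ i ∈ I, ∫⁻ t in Js, ENNReal.ofReal (‖f i (pt (a + r) (t + v))‖ ^ 2) ≤
      ENNReal.ofReal (W * Real.exp (-(2 * (μ * r)))) := by
    intro r v hr hr3 hv
    refine (many_win I f (a + r) (t₁ - η) H v hH0.le J).trans ?_
    have h7 : ∀ j ∈ Finset.range J, QQ I f (a + r) H (t₁ - η + j * H + v) ≤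
        ENNReal.ofReal ((J + 4) ^ E * P * Real.exp (-(2 * (μ * r)))) := by
      intro j hj
      have hjJ : (j : ℝ) ≤ J := by
        rw [Finset.mem_range] at hj
        exact_mod_cast hj.le
      refine (hQ r hr hr3 _).trans (ENNReal.ofReal_le_ofReal ?_)
      have h8 : 1 + |t₁ - η + j * H + v| / T ≤ J + 4 := by
        have h9 : |t₁ - η + j * H + v| ≤ (J + 3) * T := by
          obtain ⟨v1, v2⟩ := abs_le.mp hv
          obtain ⟨t1, t2⟩ := abs_le.mp ht₁
          have h10 : j * H ≤ J * T := by gcongr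
          have h11 : 0 ≤ j * H := by positivity
          have h12 : 0 ≤ J * T := by positivity
          rw [abs_le]
          constructor <;> nlinarith
        have := (div_le_iff₀ hT0).mpr h9
        linarith
      have h12 : (1 + |t₁ - η + j * H + v| / T) ^ E ≤ (J + 4) ^ E :=
        pow_le_pow_left₀ (by positivity) h8 E
      have h13 : 0 ≤ P * Real.exp (-(2 * (μ * r))) := by positivity
      nlinarith [mul_le_mul_of_nonneg_left h12 h13]
    refine (Finset.sum_le_sum h7).trans (le_of_eq ?_)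
    rw [Finset.sum_const, Finset.card_range, nsmul_eq_mul, ← ENNReal.ofReal_natCast,
      ← ENNReal.ofReal_mul (Nat.cast_nonneg _), hW]
    congr 1
    ring
  obtain ⟨A, hA⟩ : ∃ A : ℝ, A = W * Real.exp (-(2 * (μ * (σ - a)))) := ⟨_, rfl⟩
  have hA0 : 0 ≤ A := by rw [hA]; positivity
  -- total
  have hmeas : ∀ i, Measurable (Function.uncurry fun t φ : ℝ => ENNReal.ofReal
      (‖f i (pt (X φ) (t + Y φ))‖ ^ 2)) := by
    intro i
    refine Measurable.ennreal_ofReal (Continuous.measurable ?_)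
    exact ((hfc i).comp (by fun_prop : Continuous fun q : ℝ × ℝ =>
      ((X q.2, q.1 + Y q.2) : ℝ × ℝ))).pow 2
  have hgc : Continuous fun φ : ℝ => (‖gm q (circleMap 0 ρ φ)‖⁻¹) ^ 2 := by
    have : (fun φ : ℝ => (‖gm q (circleMap 0 ρ φ)‖⁻¹) ^ 2) =
        fun φ => Real.exp (-(2 * (μ * (X φ - σ)))) := funext fun φ => (hXe φ).symm
    rw [this]
    fun_prop
  have htot : ENNReal.ofReal ((∑ i ∈ I, ∑ z ∈ Z i, (od i z : ℝ)) * (ω * (2 * η))) ≤
      ENNReal.ofReal (2 * Real.pi)⁻¹ * ENNReal.ofReal (A * (2 * Real.pi * (4 * q))) +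
        ENNReal.ofReal 2 * ENNReal.ofReal (A * q ^ 2) := by
    rw [Finset.sum_congr rfl hred, Finset.sum_mul,
      ENNReal.ofReal_sum_of_nonneg (fun i _ => by positivity),
      ← Finset.sum_congr rfl hleft]
    refine (Finset.sum_le_sum fun i hi => lintegral_mono (hpt i hi)).trans ?_
    have hsplit : ∀ i ∈ I, ∫⁻ t in Js, (ENNReal.ofReal (2 * Real.pi)⁻¹ *
        (∫⁻ φ in Ioc 0 (2 * Real.pi), ENNReal.ofReal (‖f i (pt (X φ) (t + Y φ))‖ ^ 2)) +
        ENNReal.ofReal 2 * ENNReal.ofReal (‖f i (pt 2 t)‖ ^ 2)) =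
        ENNReal.ofReal (2 * Real.pi)⁻¹ * (∫⁻ φ in Ioc 0 (2 * Real.pi), ∫⁻ t in Js,
        ENNReal.ofReal (‖f i (pt (X φ) (t + Y φ))‖ ^ 2)) +
        ENNReal.ofReal 2 * ∫⁻ t in Js, ENNReal.ofReal (‖f i (pt 2 t)‖ ^ 2) := by
      intro i _
      have m1 : Measurable fun t : ℝ => ENNReal.ofReal (‖f i (pt 2 t)‖ ^ 2) :=
        Measurable.ennreal_ofReal (((hfc i).comp (by fun_prop : Continuous fun t : ℝ =>
          ((2, t) : ℝ × ℝ))).pow 2).measurable
      have m2 : Measurable fun t : ℝ => ∫⁻ φ in Ioc 0 (2 * Real.pi),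
          ENNReal.ofReal (‖f i (pt (X φ) (t + Y φ))‖ ^ 2) :=
        (hmeas i).lintegral_prod_right'
      rw [lintegral_add_right _ (m1.const_mul _), lintegral_const_mul _ m1,
        lintegral_const_mul _ m2, lintegral_lintegral_swap (hmeas i).aemeasurable]
    rw [Finset.sum_congr rfl hsplit, Finset.sum_add_distrib, ← Finset.mul_sum, ← Finset.mul_sum]
    refine add_le_add (mul_le_mul_right ?_ _) (mul_le_mul_right ?_ _)
    · rw [← lintegral_finsetSum _ fun i _ => by
        have := (hmeas i).comp (measurable_swap (α := ℝ) (β := ℝ))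
        exact this.lintegral_prod_right']
      have hφ : ∀ φ : ℝ, ∑ i ∈ I, ∫⁻ t in Js,
          ENNReal.ofReal (‖f i (pt (X φ) (t + Y φ))‖ ^ 2) ≤
          ENNReal.ofReal (A * (‖gm q (circleMap 0 ρ φ)‖⁻¹) ^ 2) := by
        intro φ
        have h14 := hwin (X φ - a) (Y φ) (by linarith [hXlow φ]) (by linarith [hXupp φ]) (hYb φ)
        have e4 : a + (X φ - a) = X φ := by ring
        rw [e4] at h14
        refine h14.trans (ENNReal.ofReal_le_ofReal (le_of_eq ?_))
        rw [hA, ← hXe, mul_assoc W, ← Real.exp_add]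
        congr 2
        ring
      refine (lintegral_mono fun φ => hφ φ).trans ?_
      rw [← ofReal_integral_eq_lintegral_ofReal ?_ (Eventually.of_forall fun φ => by positivity)]
      · refine ENNReal.ofReal_le_ofReal ?_
        rw [integral_const_mul]
        refine mul_le_mul_of_nonneg_left ?_ hA0
        rw [← intervalIntegral.integral_of_le (by positivity)]
        exact gm_avg hq0 hq1 hρ1 hρ0
      · exact ((continuous_const.mul hgc).integrableOn_Icc (a := 0) (b := 2 * Real.pi)).mono_set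
            Ioc_subset_Icc_self
    · have h15 := hwin (2 - a) 0 (by
        have : 0 < 1 / μ := by positivity
        linarith) (by linarith) (by rw [abs_zero]; positivity)
      have e5 : a + (2 - a) = 2 := by ring
      rw [e5] at h15
      simp only [add_zero] at h15
      refine h15.trans (ENNReal.ofReal_le_ofReal (le_of_eq ?_))
      rw [hA, hq, ← Real.exp_nat_mul, mul_assoc W, ← Real.exp_add]
      congr 2
      push_cast
      ring
  obtain ⟨N, hN⟩ : ∃ N : ℝ, N = ∑ i ∈ I, ∑ z ∈ Z i, (od i z : ℝ) := ⟨_, rfl⟩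
  have hN0 : 0 ≤ N := by rw [hN]; positivity
  rw [← hN] at htot
  rw [← ENNReal.ofReal_mul (by positivity), ← ENNReal.ofReal_mul (by norm_num),
    ← ENNReal.ofReal_add (by positivity) (by positivity),
    ENNReal.ofReal_le_ofReal_iff (by positivity)] at htot
  have hpi0 := Real.pi_pos
  have t1 : (2 * Real.pi)⁻¹ * (A * (2 * Real.pi * (4 * q))) = 4 * A * q := by
    field_simp
  rw [t1] at htot
  have t2 : A * q ^ 2 ≤ A * q := by
    refine mul_le_mul_of_nonneg_left ?_ hA0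
    nlinarith
  have t3 : N * (ω * (2 * η)) ≤ 6 * A * q := by linarith
  rw [hω, hη] at t3
  have t4 : N * (q / 144 * (2 * (1 / μ))) * (72 * μ / q) = N := by
    field_simp
    ring
  have t5 := mul_le_mul_of_nonneg_right t3 (by positivity : (0 : ℝ) ≤ 72 * μ / q)
  rw [t4] at t5
  rw [← hN]
  refine t5.trans (le_of_eq ?_)
  rw [hA, hW]
  field_simp
  ring

end Pool.Agent.T9h27.D
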