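import Pool.Agent.T9h27.D.Den
import Pool.Agent.T9h27.D.Jen3

/-!
# The density theorem for families, windows of length `≥ 1 / R` (helper27)
-/

set_option autoImplicit false
set_option linter.unusedSectionVars false

open UniqueFactorizationMonoid MeasureTheory Complex Filter Topology Set

namespace Pool.Agent.T9h27.D

open Pool.Agent.N786.D
open Pool.Agent.R399.TW (pt pt_re pt_im pt_cont)

section

variable {M : Type} [CommMonoidWithZero M] [NormalizationMonoid M] [UniqueFactorizationMonoid M]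
  [Subsingleton Mˣ] [Nontrivial M] {N : M →*₀ ℕ} {n₀ : ℕ}

/-- **The density of zeros near the critical line**, short windows -/
theorem dens_core_s (hN : NS N n₀) {e : ℝ} (he : 0 < e) {G' : ℝ}
    (hG : Wgt (wN N n₀) (fun k => ((n₀ : ℝ) * k + 1) ^ n₀) G') {α' α₁ α₂ β' β₁ β₂ A : ℝ} {φ θ : ℝ → ℝ}
    (hφ : Cutf α₁ α₂ φ) (hθ : Cutf β₁ β₂ θ) (hα' : 1 / 2 < α') (hα : α' < α₁) (hα₂ : 0 < α₂)
    (hβ' : 0 < β') (hβ'1 : β' < β₁) (hβ1' : β' ≤ 1)
    (hβ : 0 < β₂) (hβ1 : β₂ ≤ 1) (hA : 1 ≤ A) (n : ℕ) (hn : 1 ≤ n) :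
    ∃ (κ Q R₀ : ℝ), 1 ≤ κ ∧ 0 ≤ Q ∧ 1 ≤ R₀ ∧
    ∀ (R T H P : ℝ) (ι : Type) (S : Finset ι) (χ : ι → M →*₀ ℂ)
      (F : ι → ℂ → ℂ), R₀ ≤ R → 1 ≤ T → 1 ≤ H * R → H ≤ T → S.card * H ≤ P →
      LSU N S χ H P e (⌊Real.exp (α₂ * R)⌋₊ * ⌊Real.exp (β₂ * R)⌋₊) →
      (∀ lam, Differentiable ℂ (F lam)) → (∀ lam ∈ S, GLf N A T R n (χ lam) (F lam)) →
      ∀ t₁ : ℝ, |t₁| ≤ T → ∀ σ : ℝ, 1 / 2 + (κ + 1 / β') / R ≤ σ → σ < 2 →
      ∀ Z : ι → Finset ℂ,
      (∀ lam ∈ S, ∀ z ∈ Z lam, σ + 1 / (β' * R) ≤ z.re ∧ t₁ ≤ z.im ∧ z.im ≤ t₁ + H) →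
      ∑ lam ∈ S, ∑ z ∈ Z lam, (analyticOrderNatAt (F lam) z : ℝ) ≤
        Q * (P * R * Real.exp (-(2 * β' * R * (σ - 1 / 2)))) := by
  obtain ⟨κ, a, R₀, k, E, hκ, ha, hR₀, hmain⟩ :=
    mean_near hN he hG hφ hθ hα' hα hα₂ hβ hβ1 hA n hn
  obtain ⟨B, hB⟩ : ∃ B : ℕ, B = n + E + 3 := ⟨_, rfl⟩
  have hZ := ZN_nonneg N
  obtain ⟨C₀, hC₀⟩ : ∃ C₀ : ℝ, C₀ = cB B 0 * (3 ^ E * cB B E) := ⟨_, rfl⟩
  have hC₀0 : 0 ≤ C₀ := by
    rw [hC₀]
    have := cB_nn B 0
    have := cB_nn B E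
    positivity
  have hβ₁ : 0 < β₁ := by linarith
  -- the last threshold
  obtain ⟨R₁, hR₁⟩ : ∃ R₁ : ℝ, ∀ R : ℝ, R₁ ≤ R →
      Real.exp (-(β₁ * R * (1 / 2))) * (ZN N * ZN N) ≤ 1 / 2 := by
    have h1 : Tendsto (fun R : ℝ => Real.exp (-(β₁ * R * (1 / 2))) * (ZN N * ZN N)) atTop
        (𝓝 (0 * (ZN N * ZN N))) := by
      refine Tendsto.mul_const _ (Real.tendsto_exp_neg_atTop_nhds_zero.comp ?_)
      have h2 : Tendsto (fun R : ℝ => β₁ * R * (1 / 2)) atTop atTop :=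
        (tendsto_id.const_mul_atTop hβ₁).atTop_mul_const (by norm_num)
      exact h2
    rw [zero_mul] at h1
    obtain ⟨R₁, h2⟩ := (h1.eventually (Iio_mem_nhds (show (0 : ℝ) < 1 / 2 by norm_num))).exists_forall_of_atTop
    exact ⟨R₁, fun R hR => (mem_Iio.mp (h2 R hR)).le⟩
  obtain ⟨J, hJ⟩ : ∃ J : ℕ, 1 + 2 / β' ≤ (J : ℝ) := ⟨_, Nat.le_ceil _⟩
  refine ⟨κ, 432 * (J * (J + 4) ^ E) * (C₀ * (1 + C₀) * (2 * a + 2)) * Real.exp (2 * β' * κ),
    max (max R₀ R₁) (10 / β'), hκ,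
    by positivity, le_max_of_le_left (le_max_of_le_left hR₀), ?_⟩
  intro R T H P ι S χ F hR hT hHR hHT hP hls hFd hF t₁ ht₁ σ hσ hσ1 Z hZz
  have hR1 : R₀ ≤ R := ((le_max_left _ _).trans (le_max_left _ _)).trans hR
  have hR2 : R₁ ≤ R := ((le_max_right _ _).trans (le_max_left _ _)).trans hR
  have hR3 : 10 / β' ≤ R := (le_max_right _ _).trans hR
  have hRone : 1 ≤ R := hR₀.trans hR1
  have hR0 : 0 < R := by linarith
  have hT0 : 0 < T := by linarith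
  have hH0 : 0 < H := by
    by_contra h
    push Not at h
    nlinarith
  have hP0 : 0 ≤ P := le_trans (by positivity) hP
  obtain ⟨μ, hμ⟩ : ∃ μ : ℝ, μ = β' * R := ⟨_, rfl⟩
  have hμ10 : 10 ≤ μ := by
    rw [div_le_iff₀ hβ'] at hR3
    rw [hμ]
    linarith
  have hμ0 : 0 < μ := by linarith
  obtain ⟨a₀, ha₀⟩ : ∃ a₀ : ℝ, a₀ = 1 / 2 + κ / R := ⟨_, rfl⟩
  have hκR : 0 < κ / R := by positivity
  set M : ι → ℂ → ℂ := fun lam => Mp N θ R ⌊Real.exp (β₂ * R)⌋₊ (χ lam) with hM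
  have hMd : ∀ lam, Differentiable ℂ (M lam) := fun lam => dpo_diff _ _ _ _
  have hMl : ∀ lam, M lam = Mp N θ R ⌊Real.exp (β₂ * R)⌋₊ (χ lam) := fun lam => rfl
  set f : ι → ℂ → ℂ := fun lam s => F lam s * M lam s - 1 with hf
  have hfd : ∀ lam, Differentiable ℂ (f lam) := fun lam =>
    ((hFd lam).mul (hMd lam)).sub (differentiable_const _)
  -- the mean square on the line `a₀`
  have hms : ∀ t₀ : ℝ, QQ S f a₀ H t₀ ≤
      ENNReal.ofReal (P * (2 * a + 2) * (1 + |t₀| / T) ^ E) := by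
    intro t₀
    have hJ := hmain R T H P ι S χ F hR1 hT hH0.le hHT hP hls
      (fun lam => (hFd lam).continuous) hF t₀ 0
    rw [← ha₀] at hJ
    have e0 : wt T R k E t₀ 0 = (1 + |t₀| / T) ^ E := by
      unfold wt
      rw [abs_zero, mul_zero, add_zero, one_pow, one_mul]
    rw [e0] at hJ
    have hΘ : 1 ≤ (1 + |t₀| / T) ^ E := one_le_pow₀ (by
      have : 0 ≤ |t₀| / T := by positivity
      linarith)
    have hpt : ∀ lam t, ENNReal.ofReal (‖f lam (pt a₀ t)‖ ^ 2) ≤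
        ENNReal.ofReal 2 * ENNReal.ofReal (‖F lam (pt a₀ t)‖ ^ 2 * ‖M lam (pt a₀ (t - 0))‖ ^ 2) +
        ENNReal.ofReal 2 := by
      intro lam t
      rw [← ENNReal.ofReal_mul (by norm_num), ← ENNReal.ofReal_add (by positivity) (by norm_num),
        sub_zero]
      refine ENNReal.ofReal_le_ofReal ?_
      simp only [hf]
      have h1 := norm_sub_le (F lam (pt a₀ t) * M lam (pt a₀ t)) 1
      rw [norm_mul, norm_one] at h1
      have h2 := pow_le_pow_left₀ (norm_nonneg _) h1 2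
      have h3 : (‖F lam (pt a₀ t)‖ * ‖M lam (pt a₀ t)‖ + 1) ^ 2 ≤
          2 * (‖F lam (pt a₀ t)‖ ^ 2 * ‖M lam (pt a₀ t)‖ ^ 2) + 2 := by
        nlinarith [sq_nonneg (‖F lam (pt a₀ t)‖ * ‖M lam (pt a₀ t)‖ - 1)]
      linarith
    unfold QQ
    calc ∑ lam ∈ S, ∫⁻ t in Icc t₀ (t₀ + H), ENNReal.ofReal (‖f lam (pt a₀ t)‖ ^ 2) ≤
        ∑ lam ∈ S, (ENNReal.ofReal 2 * (∫⁻ t in Icc t₀ (t₀ + H),
          ENNReal.ofReal (‖F lam (pt a₀ t)‖ ^ 2 * ‖M lam (pt a₀ (t - 0))‖ ^ 2)) +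
          ENNReal.ofReal (2 * H)) := by
          refine Finset.sum_le_sum fun lam _ => (lintegral_mono (hpt lam)).trans ?_
          have hmeas : Measurable fun t : ℝ =>
              ENNReal.ofReal (‖F lam (pt a₀ t)‖ ^ 2 * ‖M lam (pt a₀ (t - 0))‖ ^ 2) := by
            refine Measurable.ennreal_ofReal (Continuous.measurable ?_)
            have c1 : Continuous fun t : ℝ => ‖F lam (pt a₀ t)‖ :=
              ((hFd lam).continuous.comp (pt_cont _)).norm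
            have c2 : Continuous fun t : ℝ => ‖M lam (pt a₀ (t - 0))‖ := by
              simp only [sub_zero]
              exact ((hMd lam).continuous.comp (pt_cont _)).norm
            exact (c1.pow 2).mul (c2.pow 2)
          rw [lintegral_add_left (hmeas.const_mul _), lintegral_const_mul _ hmeas,
            setLIntegral_const, Real.volume_Icc, ← ENNReal.ofReal_mul (by norm_num)]
          refine add_le_add le_rfl (ENNReal.ofReal_le_ofReal (le_of_eq ?_))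
          ring
      _ = ENNReal.ofReal 2 * JJ S F M a₀ a₀ H t₀ 0 + ENNReal.ofReal (S.card * (2 * H)) := by
          rw [Finset.sum_add_distrib, ← Finset.mul_sum, Finset.sum_const, nsmul_eq_mul,
            ENNReal.ofReal_mul (Nat.cast_nonneg _), ENNReal.ofReal_natCast]
          rfl
      _ ≤ ENNReal.ofReal 2 * ENNReal.ofReal (P * a * (1 + |t₀| / T) ^ E) +
          ENNReal.ofReal (2 * P * (1 + |t₀| / T) ^ E) := by
          refine add_le_add (mul_le_mul_right hJ _) (ENNReal.ofReal_le_ofReal ?_)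
          calc (S.card : ℝ) * (2 * H) = 2 * (S.card * H) * 1 := by ring
            _ ≤ 2 * P * (1 + |t₀| / T) ^ E := by gcongr
      _ = _ := by
          rw [← ENNReal.ofReal_mul (by norm_num), ← ENNReal.ofReal_add (by positivity)
            (by positivity)]
          congr 1
          ring
  have hgr : ∀ lam ∈ S, ∃ G : ℝ, ∀ z : ℂ, a₀ ≤ z.re →
      ‖f lam z‖ ≤ G * (1 + |z.im|) ^ n * Real.exp (-((β₁ * R) * z.re)) := by
    intro lam hl
    obtain ⟨G, hG⟩ := grow_f hN (β₂ := β₂) hθ hβ₁ hR0 hT hA (hF lam hl)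
    exact ⟨G, fun z hz => hG z (by rw [ha₀] at hz; linarith)⟩
  -- to the right
  have hright : ∀ r : ℝ, 0 < r → r ≤ 3 → ∀ t₀ : ℝ, QQ S f (a₀ + r) H t₀ ≤
      ENNReal.ofReal (C₀ * (P * (2 * a + 2)) * Real.exp (-(2 * (μ * r))) *
        (1 + |t₀| / T) ^ E) := by
    intro r hr hr3 t₀
    have h1 := QQ_right (I := S) (f := f) hfd (a := a₀) (μ := μ) (lam := β₁ * R) (T := T)
      (H := H) (Q := P * (2 * a + 2)) (m := n) (B := B) (E := E) hT (by positivity) (by omega)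
      (by omega) (by rw [hμ]; nlinarith) hgr hms hr hr3 t₀
    rw [← hC₀] at h1
    exact h1
  have hright2 : ∀ r : ℝ, 0 < r → r ≤ 4 → ∀ t₀ : ℝ, QQ S f (a₀ + r) H t₀ ≤
      ENNReal.ofReal (C₀ * (1 + C₀) * (P * (2 * a + 2)) * Real.exp (-(2 * (μ * r))) *
        (1 + |t₀| / T) ^ E) := by
    intro r hr hr3 t₀
    rcases le_or_gt r 3 with h | h
    · refine (hright r hr h t₀).trans (ENNReal.ofReal_le_ofReal ?_)
      have : C₀ * (P * (2 * a + 2)) ≤ C₀ * (1 + C₀) * (P * (2 * a + 2)) := by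
        have h3 : 0 ≤ C₀ * C₀ * (P * (2 * a + 2)) := by positivity
        nlinarith
      gcongr
    · have h1 := QQ_right (I := S) (f := f) hfd (a := a₀ + 1) (μ := μ) (lam := β₁ * R) (T := T)
        (H := H) (Q := C₀ * (P * (2 * a + 2)) * Real.exp (-(2 * (μ * 1)))) (m := n) (B := B)
        (E := E) hT (by positivity) (by omega)
        (by omega) (by rw [hμ]; nlinarith) (fun lam hl => by
          obtain ⟨G, hG⟩ := hgr lam hl
          exact ⟨G, fun z hz => hG z (by linarith)⟩) (hright 1 one_pos (by norm_num))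
        (r := r - 1) (by linarith) (by linarith) t₀
      rw [← hC₀] at h1
      have e1 : a₀ + 1 + (r - 1) = a₀ + r := by ring
      rw [e1] at h1
      refine h1.trans (ENNReal.ofReal_le_ofReal ?_)
      have e2 : C₀ * (C₀ * (P * (2 * a + 2)) * Real.exp (-(2 * (μ * 1)))) *
          Real.exp (-(2 * (μ * (r - 1)))) = C₀ * C₀ * (P * (2 * a + 2)) *
          Real.exp (-(2 * (μ * r))) := by
        have e3 : Real.exp (-(2 * (μ * r))) = Real.exp (-(2 * (μ * 1))) *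
            Real.exp (-(2 * (μ * (r - 1)))) := by
          rw [← Real.exp_add]
          congr 1
          ring
        rw [e3]
        ring
      rw [e2]
      have : C₀ * C₀ * (P * (2 * a + 2)) ≤ C₀ * (1 + C₀) * (P * (2 * a + 2)) := by
        have h3 : 0 ≤ C₀ * (P * (2 * a + 2)) := by positivity
        nlinarith
      gcongr
  have hsmall : ∀ lam ∈ S, ∀ z : ℂ, 2 ≤ z.re → ‖f lam z‖ ^ 2 ≤ 1 / 2 := by
    intro lam hl z hz
    simp only [hf, hMl]
    rw [(hF lam hl).ser z (by linarith)]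
    have h1 := LM_sub_one hN (β₂ := β₂) hθ hR0 (hF lam hl).le1 (s := z) (by linarith)
    have h2 : Real.exp (-(β₁ * R * (z.re - 3 / 2))) ≤ Real.exp (-(β₁ * R * (1 / 2))) := by
      refine Real.exp_le_exp.mpr (neg_le_neg ?_)
      exact mul_le_mul_of_nonneg_left (by linarith) (by positivity)
    have h3 := h1.trans ((mul_le_mul_of_nonneg_right h2 (by positivity)).trans (hR₁ R hR2))
    have h4 := pow_le_pow_left₀ (norm_nonneg _) h3 2
    norm_num at h4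
    linarith
  have hcount := zero_count_s (I := S) (f := f) hfd (a := a₀) (μ := μ) (T := T)
    (H := H) (P := C₀ * (1 + C₀) * (P * (2 * a + 2))) (σ := σ) (t₁ := t₁) (E := E) (J := J)
    hμ10 hT hH0 hHT (by
      have e1 : 2 / μ ≤ 2 / β' * H := by
        rw [hμ, div_le_iff₀ (by positivity)]
        have : 2 / β' * H * (β' * R) = 2 * (H * R) := by field_simp
        rw [this]
        linarith
      have e2 : (1 + 2 / β') * H ≤ J * H := mul_le_mul_of_nonneg_right hJ hH0.le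
      linarith) (by positivity) ht₁ (by rw [ha₀]; linarith) (by
      rw [ha₀, hμ]
      have e1 : (κ + 1 / β') / R = κ / R + 1 / (β' * R) := by
        field_simp
      rw [e1] at hσ
      linarith) hσ1 hright2 hsmall Z (by rw [hμ]; exact hZz)
  have hord : ∑ lam ∈ S, ∑ z ∈ Z lam, (analyticOrderNatAt (F lam) z : ℝ) ≤
      ∑ lam ∈ S, ∑ z ∈ Z lam, (analyticOrderNatAt (fun s => 1 - f lam s ^ 2) z : ℝ) := by
    refine Finset.sum_le_sum fun lam hl => Finset.sum_le_sum fun z _ => ?_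
    have := order_le (hFd lam) (hMd lam) (hsmall lam hl 2 (by norm_num)) z
    exact_mod_cast this
  refine hord.trans (hcount.trans ?_)
  have e1 : Real.exp (-(2 * (μ * (σ - a₀)))) =
      Real.exp (2 * β' * κ) * Real.exp (-(2 * β' * R * (σ - 1 / 2))) := by
    rw [← Real.exp_add, ha₀, hμ]
    congr 1
    field_simp
    ring
  rw [e1]
  have e2 : μ ≤ R := by
    rw [hμ]
    exact mul_le_of_le_one_left hR0.le hβ1'
  calc 432 * (J * (J + 4) ^ E) * (C₀ * (1 + C₀) * (P * (2 * a + 2)) * μ *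
        (Real.exp (2 * β' * κ) * Real.exp (-(2 * β' * R * (σ - 1 / 2))))) ≤
      432 * (J * (J + 4) ^ E) * (C₀ * (1 + C₀) * (P * (2 * a + 2)) * R *
        (Real.exp (2 * β' * κ) * Real.exp (-(2 * β' * R * (σ - 1 / 2))))) := by gcongr
    _ = _ := by ring

/-- **the density theorem**, zeros to the right of the critical line, short windows -/
theorem dens_R_s (hN : NS N n₀) {e h c A : ℝ} (he : 0 < e) (hh1 : h ≤ 1) (hc0 : 0 < c)
    (hc : c < 2 * h - 1) (hA : 1 ≤ A) (n : ℕ) (hn : 1 ≤ n) :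
    ∃ (κ Q R₀ : ℝ), 0 < κ ∧ 0 ≤ Q ∧ 1 ≤ R₀ ∧
    ∀ (R T H P : ℝ) (ι : Type) (S : Finset ι) (χ : ι → M →*₀ ℂ)
      (F : ι → ℂ → ℂ), R₀ ≤ R → 1 ≤ T → 1 ≤ H * R → H ≤ T → S.card * H ≤ P →
      (∀ X : ℕ, 1 ≤ X → (X : ℝ) ≤ Real.exp ((h - (2 * h - 1 - c) / 12) * R) →
        LSU N S χ H P e X) →
      (∀ i ∈ S, GLf N A T R n (χ i) (F i)) →
      (∀ i ∈ S, ∀ s : ℂ, 1 < s.re → F i s ≠ 0) →
      ∀ t₁ : ℝ, |t₁| ≤ T → ∀ δ : ℝ, κ / R ≤ δ →
      ∀ Z : ι → Finset ℂ,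
      (∀ i ∈ S, ∀ z ∈ Z i, 1 / 2 + δ ≤ z.re ∧ t₁ ≤ z.im ∧ z.im ≤ t₁ + H) →
      ∑ i ∈ S, ∑ z ∈ Z i, (analyticOrderNatAt (F i) z : ℝ) ≤
        Q * (P * R * Real.exp (-(c * R * δ))) := by
  classical
  obtain ⟨G, hG⟩ := hN.wgt
  obtain ⟨g, hg⟩ : ∃ g : ℝ, g = (2 * h - 1 - c) / 12 := ⟨_, rfl⟩
  have hg0 : 0 < g := by rw [hg]; linarith
  obtain ⟨φ, hφ⟩ := cut_exists (a := 1 / 2 + 2 * g) (b := 1 / 2 + 3 * g) (by linarith) (by linarith)
  obtain ⟨θ, hθ⟩ := cut_exists (a := c / 2 + g) (b := c / 2 + 2 * g) (by linarith) (by linarith)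
  obtain ⟨κ, Q, R₀, hκ, hQ, hR₀, hmain⟩ := dens_core_s hN he hG hφ hθ
    (α' := 1 / 2 + g) (β' := c / 2) (by linarith) (by linarith) (by linarith) (by linarith)
    (by linarith) (by linarith) (by linarith) (by linarith) hA n hn
  refine ⟨κ + 2 / (c / 2), Q * Real.exp 2, R₀, by positivity, by positivity, hR₀, ?_⟩
  intro R T H P ι S χ F hR hT hHR hHT hP hls hF hnv t₁ ht₁ δ hδ Z hZ
  have hR1 : 1 ≤ R := hR₀.trans hR
  have hR0 : 0 < R := by linarith
  have hH0 : 0 < H := by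
    by_contra h
    push Not at h
    nlinarith
  have hP0 : 0 ≤ P := le_trans (by positivity) hP
  rcases le_or_gt δ (1 / 2) with hh | hh
  swap
  · have h1 : ∑ i ∈ S, ∑ z ∈ Z i, (analyticOrderNatAt (F i) z : ℝ) = 0 := by
      refine Finset.sum_eq_zero fun i hi => Finset.sum_eq_zero fun z hz => ?_
      rw [ord_zero (hF i hi).diff (hnv i hi z (by linarith [(hZ i hi z hz).1])), Nat.cast_zero]
    rw [h1]
    positivity
  set F' : ι → ℂ → ℂ := fun i => if i ∈ S then F i else fun _ => 0 with hF'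
  have hFS : ∀ i ∈ S, F' i = F i := fun i hl => by simp only [hF']; rw [if_pos hl]
  have hFd : ∀ i, Differentiable ℂ (F' i) := by
    intro i
    by_cases hl : i ∈ S
    · rw [hFS i hl]
      exact (hF i hl).diff
    · simp only [hF']
      rw [if_neg hl]
      exact differentiable_const _
  obtain ⟨M₁, hM₁⟩ : ∃ M₁ : ℕ, M₁ = ⌊Real.exp ((1 / 2 + 3 * g) * R)⌋₊ := ⟨_, rfl⟩
  obtain ⟨M₂, hM₂⟩ : ∃ M₂ : ℕ, M₂ = ⌊Real.exp ((c / 2 + 2 * g) * R)⌋₊ := ⟨_, rfl⟩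
  have hMM : ((M₁ * M₂ : ℕ) : ℝ) ≤ Real.exp ((h - g) * R) := by
    have h1 : (M₁ : ℝ) ≤ Real.exp ((1 / 2 + 3 * g) * R) := by
      rw [hM₁]; exact Nat.floor_le (Real.exp_pos _).le
    have h2 : (M₂ : ℝ) ≤ Real.exp ((c / 2 + 2 * g) * R) := by
      rw [hM₂]; exact Nat.floor_le (Real.exp_pos _).le
    push_cast
    refine (mul_le_mul h1 h2 (Nat.cast_nonneg _) (Real.exp_pos _).le).trans (le_of_eq ?_)
    rw [← Real.exp_add]
    congr 1
    rw [hg]
    ring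
  have hMpos : 1 ≤ M₁ * M₂ := by
    have h1 : 1 ≤ M₁ := by
      rw [hM₁]
      refine Nat.le_floor ?_
      rw [Nat.cast_one]
      exact Real.one_le_exp (by positivity)
    have h2 : 1 ≤ M₂ := by
      rw [hM₂]
      refine Nat.le_floor ?_
      rw [Nat.cast_one]
      exact Real.one_le_exp (by positivity)
    exact Nat.mul_pos h1 h2
  have hLS : LSU N S χ H P e (M₁ * M₂) := hls _ hMpos (by rw [← hg]; exact hMM)
  rw [hM₁, hM₂] at hLS
  have hβR : 0 < c / 2 * R := by positivity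
  have hfin := hmain R T H P ι S χ F' hR hT hHR hHT hP hLS hFd
    (fun i hl => by rw [hFS i hl]; exact hF i hl) t₁ ht₁ (1 / 2 + δ - 1 / (c / 2 * R)) (by
      have e1 : (κ + 2 / (c / 2)) / R = (κ + 1 / (c / 2)) / R + 1 / (c / 2 * R) := by
        field_simp
        ring
      rw [e1] at hδ
      linarith) (by
      have : 0 < 1 / (c / 2 * R) := by positivity
      linarith) Z (fun i hi z hz => by
      obtain ⟨a1, a2, a3⟩ := hZ i hi z hz
      exact ⟨by linarith, a2, a3⟩)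
  have e1 : ∑ i ∈ S, ∑ z ∈ Z i, (analyticOrderNatAt (F i) z : ℝ) =
      ∑ i ∈ S, ∑ z ∈ Z i, (analyticOrderNatAt (F' i) z : ℝ) :=
    Finset.sum_congr rfl fun i hl => by rw [hFS i hl]
  rw [e1]
  refine hfin.trans (le_of_eq ?_)
  have e2 : Real.exp (-(2 * (c / 2) * R * (1 / 2 + δ - 1 / (c / 2 * R) - 1 / 2))) =
      Real.exp 2 * Real.exp (-(c * R * δ)) := by
    rw [← Real.exp_add]
    congr 1
    field_simp
    ring
  rw [e2]
  ring

end

end Pool.Agent.T9h27.D
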