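import Pool.Agent.T9h27.D.Ser
import Pool.Agent.N786.D.Jen2

/-!
# The mollified mean square and the density of zeros near the critical line
(helper27, after helper786)
-/

set_option autoImplicit false
set_option linter.unusedSectionVars false

open UniqueFactorizationMonoid MeasureTheory Complex Filter Topology Set

namespace Pool.Agent.T9h27.D

open Pool.Agent.N786.D
open Pool.Agent.R399.TW (pt pt_re pt_im pt_cont)

/-- the analytic input: growth and functional equation -/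
structure GLf {M : Type} [CommMonoidWithZero M] (N : M →*₀ ℕ) (A T R : ℝ) (n : ℕ) (χ : M →*₀ ℂ)
    (F : ℂ → ℂ) : Prop where
  diff : Differentiable ℂ F
  ser : ∀ s : ℂ, 3 / 2 ≤ s.re → F s = LA N χ s
  le1 : ∀ a, ‖χ a‖ ≤ 1
  gr : ∀ s : ℂ, 1 / 16 ≤ s.re → ‖F s‖ ≤ A * Real.exp R * (1 + |s.im| / T) ^ n
  big : ∀ s : ℂ, 3 / 2 ≤ s.re → ‖F s‖ ≤ A
  low : ∀ s : ℂ, 2 ≤ s.re → A⁻¹ ≤ ‖F s‖
  fe : ∀ δ : ℝ, 0 < δ → δ ≤ 1 / 4 → ∀ τ : ℝ, ‖F (pt (1 / 2 - δ) τ)‖ ≤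
    A * Real.exp (R * δ) * (1 + |τ| / T) ^ ((n : ℝ) * δ) * ‖F (pt (1 / 2 + δ) τ)‖

section

variable {M : Type} [CommMonoidWithZero M] [NormalizationMonoid M] [UniqueFactorizationMonoid M]
  [Subsingleton Mˣ] [Nontrivial M] {N : M →*₀ ℕ} {n₀ : ℕ}

lemma dpo_bdd (N : M →*₀ ℕ) (X : ℕ) (g : M → ℂ) (χ : M →*₀ ℂ) :
    ∃ G : ℝ, 0 ≤ G ∧ ∀ s : ℂ, 0 ≤ s.re → ‖dpo N X g χ s‖ ≤ G := by
  refine ⟨∑ a ∈ SI N X, ‖g a * χ a‖, Finset.sum_nonneg fun _ _ => norm_nonneg _, fun s hs => ?_⟩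
  unfold dpo
  refine (norm_sum_le _ _).trans (Finset.sum_le_sum fun a _ => ?_)
  rw [norm_mul, Complex.norm_exp]
  refine mul_le_of_le_one_right (norm_nonneg _) ?_
  rw [Real.exp_le_one_iff]
  have h1 : (-(s * (lN N a : ℂ))).re = -(s.re * lN N a) := by simp
  rw [h1]
  have := mul_nonneg hs (lN_nonneg N a)
  linarith

/-- a uniform bound for the mollifier -/
lemma Mp_le (hN : NS N n₀) {β₁ β₂ : ℝ} {θ : ℝ → ℝ} (hθ : Cutf β₁ β₂ θ) {R : ℝ} {χ : M →*₀ ℂ}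
    (h1 : ∀ a, ‖χ a‖ ≤ 1) {s : ℂ} (hs : 1 / 2 ≤ s.re) :
    ‖Mp N θ R ⌊Real.exp (β₂ * R)⌋₊ χ s‖ ≤ Real.exp (β₂ * R) * ZN N := by
  unfold Mp dpo
  refine (norm_sum_le _ _).trans ?_
  have hE : 0 ≤ Real.exp (β₂ * R) := (Real.exp_pos _).le
  have h2 : ∀ a ∈ SI N ⌊Real.exp (β₂ * R)⌋₊, ‖mob a * (θ (lN N a / R) : ℂ) * χ a *
      cexp (-(s * (lN N a : ℂ)))‖ ≤ Real.exp (β₂ * R) * (N a : ℝ) ^ (-(3 / 2 : ℝ)) := by
    intro a ha'
    have ha := hN.SI_ne ha'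
    have hNa : 0 < (N a : ℝ) := by exact_mod_cast hN.pos ha
    rw [norm_mul, Complex.norm_exp]
    have h3 : ‖mob a * (θ (lN N a / R) : ℂ) * χ a‖ ≤ 1 := by
      rw [norm_mul]
      refine mul_le_one₀ ?_ (norm_nonneg _) (h1 a)
      rw [norm_mul, Complex.norm_real, Real.norm_of_nonneg (hθ.nn _)]
      exact mul_le_one₀ (mob_le a) (hθ.nn _) (hθ.le _)
    have h4 : (-(s * (lN N a : ℂ))).re = -(s.re * lN N a) := by simp
    rw [h4]
    have h5 : Real.exp (-(s.re * lN N a)) ≤ Real.exp (β₂ * R) * (N a : ℝ) ^ (-(3 / 2 : ℝ)) := by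
      rw [Real.rpow_def_of_pos hNa, ← Real.exp_add]
      refine Real.exp_le_exp.mpr ?_
      have h6 : lN N a ≤ β₂ * R := by
        have h7 := (hN.mem_SI.mp ha').2
        have h8 : (N a : ℝ) ≤ Real.exp (β₂ * R) :=
          le_trans (by exact_mod_cast h7) (Nat.floor_le (Real.exp_pos _).le)
        unfold lN
        rw [Real.log_le_iff_le_exp hNa]
        exact h8
      have h9 := lN_nonneg N a
      have h10 : Real.log (N a : ℝ) = lN N a := rfl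
      rw [h10]
      nlinarith
    calc _ ≤ 1 * Real.exp (-(s.re * lN N a)) :=
          mul_le_mul_of_nonneg_right h3 (Real.exp_pos _).le
      _ ≤ _ := by rw [one_mul]; exact h5
  refine (Finset.sum_le_sum h2).trans ?_
  rw [← Finset.mul_sum]
  refine mul_le_mul_of_nonneg_left ?_ hE
  exact hN.sm.sum_le_tsum _ fun a _ => by positivity

/-- growth of the differences -/
lemma grow_diff (hN : NS N n₀) {α₁ α₂ : ℝ} {φ : ℝ → ℝ} (hφ : Cutf α₁ α₂ φ) (hα : 0 < α₁) {A T R : ℝ} {n : ℕ}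
    (hR : 0 < R) (hT : 1 ≤ T) (hA : 1 ≤ A)
    {χ : M →*₀ ℂ} {F : ℂ → ℂ} (h : GLf N A T R n χ F) :
    ∃ G : ℝ, ∀ z : ℂ, 1 / 4 ≤ z.re → ‖Dp N φ R ⌊Real.exp (α₂ * R)⌋₊ χ z - F z‖ ≤
      G * (1 + |z.im|) ^ n * Real.exp (-(α₁ * R * z.re)) := by
  obtain ⟨G₀, hG₀, hG⟩ := dpo_bdd N ⌊Real.exp (α₂ * R)⌋₊ (fun a => (φ (lN N a / R) : ℂ)) χ
  obtain ⟨E, hE⟩ : ∃ E : ℝ, E = Real.exp (α₁ * R * (3 / 2)) := ⟨_, rfl⟩
  have hE0 : 0 < E := by rw [hE]; exact Real.exp_pos _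
  have hZ := ZN_nonneg N
  have hA0 : 0 < A := by linarith
  refine ⟨(ZN N + (G₀ + A * Real.exp R)) * E, fun z hz => ?_⟩
  have hone : 1 ≤ (1 + |z.im|) ^ n := one_le_pow₀ (by linarith [abs_nonneg z.im])
  rcases le_total (3 / 2) z.re with h3 | h3
  · rw [h.ser z (by linarith)]
    refine (D_sub_L hN hφ hR h.le1 h3).trans ?_
    have e1 : Real.exp (-(α₁ * R * (z.re - 3 / 2))) = E * Real.exp (-(α₁ * R * z.re)) := by
      rw [hE, ← Real.exp_add]; congr 1; ring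
    rw [e1]
    calc E * Real.exp (-(α₁ * R * z.re)) * ZN N = ZN N * E * 1 * Real.exp (-(α₁ * R * z.re)) := by
          ring
      _ ≤ (ZN N + (G₀ + A * Real.exp R)) * E * (1 + |z.im|) ^ n * Real.exp (-(α₁ * R * z.re)) := by
          gcongr
          have : 0 ≤ G₀ + A * Real.exp R := by positivity
          linarith
  · have e2 : 1 ≤ E * Real.exp (-(α₁ * R * z.re)) := by
      rw [hE, ← Real.exp_add]
      refine Real.one_le_exp ?_
      have : 0 ≤ α₁ * R * (3 / 2 - z.re) := by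
        have : 0 ≤ 3 / 2 - z.re := by linarith
        positivity
      linarith
    have e3 := h.gr z (by linarith)
    have e4 : (1 + |z.im| / T) ^ n ≤ (1 + |z.im|) ^ n := by
      refine pow_le_pow_left₀ (by positivity) ?_ n
      have : |z.im| / T ≤ |z.im| := div_le_self (abs_nonneg _) hT
      linarith
    have e5 := hG z (by linarith)
    calc ‖Dp N φ R ⌊Real.exp (α₂ * R)⌋₊ χ z - F z‖ ≤ ‖Dp N φ R ⌊Real.exp (α₂ * R)⌋₊ χ z‖ +
          ‖F z‖ := norm_sub_le _ _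
      _ ≤ G₀ + A * Real.exp R * (1 + |z.im|) ^ n := by
          refine add_le_add e5 (e3.trans ?_)
          exact mul_le_mul_of_nonneg_left e4 (by positivity)
      _ ≤ G₀ * (1 + |z.im|) ^ n + A * Real.exp R * (1 + |z.im|) ^ n := by
          have := le_mul_of_one_le_right hG₀ hone
          linarith
      _ = (0 + (G₀ + A * Real.exp R)) * (1 + |z.im|) ^ n * 1 := by ring
      _ ≤ (ZN N + (G₀ + A * Real.exp R)) * (1 + |z.im|) ^ n *
          (E * Real.exp (-(α₁ * R * z.re))) := by gcongr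
      _ = _ := by ring

/-- the trivial bound for the mollified mean square -/
lemma JJ_triv (hN : NS N n₀) {β₁ β₂ : ℝ} {θ : ℝ → ℝ} (hθ : Cutf β₁ β₂ θ) (hβ : β₂ ≤ 1) {A T R H P : ℝ} {n : ℕ}
    (hR : 0 < R) (hT : 1 ≤ T) (hA : 1 ≤ A) (hH : 0 ≤ H) (hHT : H ≤ T)
    {ι : Type} {E : Finset ι} {χ : ι → M →*₀ ℂ} (hP : E.card * H ≤ P)
    {F : ι → ℂ → ℂ} (h : ∀ lam ∈ E, GLf N A T R n (χ lam) (F lam)) {δ : ℝ}
    (hδ : 0 < δ) (t₀ v₀ : ℝ) :
    JJ E F (fun lam => Mp N θ R ⌊Real.exp (β₂ * R)⌋₊ (χ lam)) (1 / 2 + δ) (1 / 2 + δ) H t₀ v₀ ≤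
      ENNReal.ofReal (P * (A ^ 2 * 4 ^ n * ZN N ^ 2) * Real.exp (4 * R) *
        (1 + |t₀| / T) ^ (2 * n)) := by
  have hT0 : 0 < T := by linarith
  have hZ := ZN_nonneg N
  obtain ⟨B, hB⟩ : ∃ B : ℝ, B = (A ^ 2 * 4 ^ n * ZN N ^ 2) * Real.exp (4 * R) *
    (1 + |t₀| / T) ^ (2 * n) := ⟨_, rfl⟩
  have hB0 : 0 ≤ B := by rw [hB]; positivity
  have hpt : ∀ lam ∈ E, ∀ t ∈ Icc t₀ (t₀ + H), ‖F lam (pt (1 / 2 + δ) t)‖ ^ 2 *
      ‖Mp N θ R ⌊Real.exp (β₂ * R)⌋₊ (χ lam) (pt (1 / 2 + δ) (t - v₀))‖ ^ 2 ≤ B := by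
    intro lam hl t ht
    have h1 := (h lam hl).gr (pt (1 / 2 + δ) t) (by rw [pt_re]; linarith)
    rw [pt_im] at h1
    have h2 := Mp_le hN hθ (R := R) (h lam hl).le1 (s := pt (1 / 2 + δ) (t - v₀))
      (by rw [pt_re]; linarith)
    have h3 : 1 + |t| / T ≤ 2 * (1 + |t₀| / T) := by
      have h4 : |t| ≤ |t₀| + T := by
        have : |t - t₀| ≤ T := by
          rw [abs_of_nonneg (by linarith [ht.1])]
          linarith [ht.2]
        have h5 := abs_add_le (t - t₀) t₀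
        rw [sub_add_cancel] at h5
        linarith
      have h6 : |t| / T ≤ |t₀| / T + 1 := by
        rw [div_le_iff₀ hT0, add_mul, div_mul_cancel₀ _ hT0.ne']
        linarith
      have h7 : 0 ≤ |t₀| / T := by positivity
      linarith
    have h8 : ‖F lam (pt (1 / 2 + δ) t)‖ ^ 2 ≤ A ^ 2 * Real.exp (2 * R) * (4 ^ n *
        (1 + |t₀| / T) ^ (2 * n)) := by
      have h9 : ‖F lam (pt (1 / 2 + δ) t)‖ ≤ A * Real.exp R * (2 * (1 + |t₀| / T)) ^ n := by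
        refine h1.trans ?_
        gcongr
      refine (pow_le_pow_left₀ (norm_nonneg _) h9 2).trans (le_of_eq ?_)
      rw [mul_pow, mul_pow, ← Real.exp_nat_mul, ← pow_mul, mul_pow, mul_comm n 2, pow_mul 2]
      norm_num
    have h10 : ‖Mp N θ R ⌊Real.exp (β₂ * R)⌋₊ (χ lam) (pt (1 / 2 + δ) (t - v₀))‖ ^ 2 ≤
        Real.exp (2 * R) * ZN N ^ 2 := by
      have h11 : Real.exp (β₂ * R) * ZN N ≤ Real.exp R * ZN N := by
        refine mul_le_mul_of_nonneg_right (Real.exp_le_exp.mpr ?_) hZ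
        nlinarith
      refine (pow_le_pow_left₀ (norm_nonneg _) (h2.trans h11) 2).trans (le_of_eq ?_)
      rw [mul_pow, ← Real.exp_nat_mul]
      norm_num
    refine (mul_le_mul h8 h10 (by positivity) (by positivity)).trans (le_of_eq ?_)
    rw [hB]
    have e1 : Real.exp (4 * R) = Real.exp (2 * R) * Real.exp (2 * R) := by
      rw [← Real.exp_add]; congr 1; ring
    rw [e1]
    ring
  unfold JJ
  calc _ ≤ ∑ _lam ∈ E, ENNReal.ofReal (B * H) := by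
        refine Finset.sum_le_sum fun lam hl => ?_
        refine (setLIntegral_mono' measurableSet_Icc fun t ht =>
          ENNReal.ofReal_le_ofReal (hpt lam hl t ht)).trans ?_
        rw [setLIntegral_const, Real.volume_Icc, ← ENNReal.ofReal_mul hB0]
        refine ENNReal.ofReal_le_ofReal (le_of_eq ?_)
        ring
    _ = ENNReal.ofReal (E.card * (B * H)) := by
        rw [Finset.sum_const, nsmul_eq_mul, ENNReal.ofReal_mul (Nat.cast_nonneg _),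
          ENNReal.ofReal_natCast]
    _ ≤ _ := by
        refine ENNReal.ofReal_le_ofReal ?_
        calc (E.card : ℝ) * (B * H) = (E.card * H) * B := by ring
          _ ≤ P * B := mul_le_mul_of_nonneg_right hP hB0
          _ = _ := by rw [hB]; ring

/-- existence of the constant `κ` -/
lemma kappa_exists (c₁ g : ℝ) (k : ℕ) (hc : 0 ≤ c₁) (hg : 0 < g) :
    ∃ κ : ℝ, 1 ≤ κ ∧ c₁ * ((1 + 2 * κ) ^ k * Real.exp (-(g * κ))) ≤ 1 / 2 := by
  have h1 : Tendsto (fun κ : ℝ => c₁ * ((1 + 2 * κ) ^ k * Real.exp (-(g * κ)))) atTop (𝓝 0) := by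
    have h2 : Tendsto (fun κ : ℝ => (1 + 2 * κ) ^ k * Real.exp (-(g / 2 * (1 + 2 * κ)))) atTop
        (𝓝 0) := by
      have h3 : Tendsto (fun x : ℝ => x ^ k * Real.exp (-(g / 2 * x))) atTop (𝓝 0) := by
        have h4 := tendsto_rpow_mul_exp_neg_mul_atTop_nhds_zero (k : ℝ) (g / 2) (by positivity)
        refine h4.congr fun x => ?_
        rw [Real.rpow_natCast]
        congr 2
        ring
      refine h3.comp ?_
      exact tendsto_atTop_add_const_left _ _ (tendsto_id.const_mul_atTop two_pos)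
    have h5 := (h2.mul_const (Real.exp (g / 2))).const_mul c₁
    rw [zero_mul, mul_zero] at h5
    refine h5.congr fun κ => ?_
    rw [mul_assoc, ← Real.exp_add]
    congr 3
    ring
  have h6 : ∀ᶠ κ in atTop, c₁ * ((1 + 2 * κ) ^ k * Real.exp (-(g * κ))) ≤ 1 / 2 := by
    have := h1.eventually (Iio_mem_nhds (show (0 : ℝ) < 1 / 2 by norm_num))
    filter_upwards [this] with κ hκ
    exact (mem_Iio.mp hκ).le
  obtain ⟨κ, h7, h8⟩ := (h6.and (eventually_ge_atTop 1)).exists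
  exact ⟨κ, h8, h7⟩

/-- **The mollified mean square near the critical line** -/
theorem mean_near (hN : NS N n₀) {e : ℝ} (he : 0 < e) {G' : ℝ}
    (hG : Wgt (wN N n₀) (fun k => ((n₀ : ℝ) * k + 1) ^ n₀) G') {α' α₁ α₂ β₁ β₂ A : ℝ} {φ θ : ℝ → ℝ}
    (hφ : Cutf α₁ α₂ φ) (hθ : Cutf β₁ β₂ θ) (hα' : 1 / 2 < α') (hα : α' < α₁) (hα₂ : 0 < α₂)
    (hβ : 0 < β₂) (hβ1 : β₂ ≤ 1) (hA : 1 ≤ A) (n : ℕ) (hn : 1 ≤ n) :
    ∃ (κ a R₀ : ℝ) (k E : ℕ), 1 ≤ κ ∧ 0 ≤ a ∧ 1 ≤ R₀ ∧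
    ∀ (R T H P : ℝ) (ι : Type) (S : Finset ι) (χ : ι → M →*₀ ℂ)
      (F : ι → ℂ → ℂ), R₀ ≤ R → 1 ≤ T → 0 ≤ H → H ≤ T → S.card * H ≤ P →
      LSU N S χ H P e (⌊Real.exp (α₂ * R)⌋₊ * ⌊Real.exp (β₂ * R)⌋₊) →
      (∀ lam, Continuous (F lam)) → (∀ lam ∈ S, GLf N A T R n (χ lam) (F lam)) →
      ∀ t₀ v₀ : ℝ, JJ S F (fun lam => Mp N θ R ⌊Real.exp (β₂ * R)⌋₊ (χ lam)) (1 / 2 + κ / R)
        (1 / 2 + κ / R) H t₀ v₀ ≤ ENNReal.ofReal (P * a * wt T R k E t₀ v₀) := by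
  obtain ⟨k, hk⟩ : ∃ k : ℕ, 16 * G' * (24 * (n₀ : ℝ)) ≤ k := ⟨_, Nat.le_ceil _⟩
  obtain ⟨ε, hε⟩ : ∃ ε : ℝ, ε = 2 * α' - 1 := ⟨_, rfl⟩
  have hε0 : 0 < ε := by rw [hε]; linarith
  obtain ⟨E₁, hE₁⟩ : ∃ E₁ : ℕ, 8 * (n : ℝ) / ε ≤ E₁ := ⟨_, Nat.le_ceil _⟩
  obtain ⟨E, hE⟩ : ∃ E : ℕ, E = 2 * n + E₁ := ⟨_, rfl⟩
  obtain ⟨B, hB⟩ : ∃ B : ℕ, B = k + (n + E) + 2 := ⟨_, rfl⟩
  obtain ⟨κ, hκ1, hκ⟩ := kappa_exists (4 * cB B 0 * cB B (k + (n + E)) * A ^ 2) ε k (by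
    have := cB_nn B 0
    have := cB_nn B (k + (n + E))
    positivity) hε0
  obtain ⟨a₁, ha₁, hls1⟩ := ls_JJ hN hφ hθ hα₂ hβ hG hk he 0
  obtain ⟨a₂, ha₂, hls2⟩ := ls_JJ hN hφ hθ hα₂ hβ hG hk he (2 * κ)
  obtain ⟨a, ha⟩ : ∃ a : ℝ, a = a₁ + a₂ := ⟨_, rfl⟩
  obtain ⟨G, hGd⟩ : ∃ G : ℝ, G = A ^ 2 * 4 ^ n * ZN N ^ 2 := ⟨_, rfl⟩
  have hG0 : 0 ≤ G := by rw [hGd]; positivity
  refine ⟨κ, 5 * a + 2 * G + 1, 4 * κ, k, E, hκ1, by rw [ha]; positivity, by linarith, ?_⟩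
  intro R T H P ι S χ F hR hT hH hHT hP hls hFc hF
  have hR0 : 0 < R := by linarith
  have hT0 : 0 < T := by linarith
  obtain ⟨δ, hδ⟩ : ∃ δ : ℝ, δ = κ / R := ⟨_, rfl⟩
  have hδ0 : 0 < δ := by rw [hδ]; positivity
  have hRδ : R * δ = κ := by rw [hδ]; field_simp
  have hδ1 : δ ≤ 1 / 4 := by
    rw [hδ, div_le_iff₀ hR0]
    linarith
  have hP0 : 0 ≤ P := le_trans (by positivity) hP
  rw [← hδ]
  have hα₁ : 0 < α₁ := by linarith
  -- the structure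
  obtain ⟨s₀, hs₀⟩ : ∃ s₀ : ℝ, s₀ = Real.exp (-(α' * R * (2 * δ))) := ⟨_, rfl⟩
  have hs2 : s₀ ^ 2 = Real.exp (-(4 * (α' * κ))) := by
    rw [hs₀, ← Real.exp_nat_mul, ← hRδ]; congr 1; push_cast; ring
  have hSH : SH S F (fun lam => Dp N φ R ⌊Real.exp (α₂ * R)⌋₊ (χ lam))
      (fun lam => Mp N θ R ⌊Real.exp (β₂ * R)⌋₊ (χ lam)) T H R δ P a A s₀ n k B := by
    refine ⟨hT, hH, hHT, hR0, hδ0, by linarith, hP0, by rw [ha]; positivity, by linarith,
      by rw [hs₀]; exact (Real.exp_pos _).le, hFc, fun lam => ?_, fun lam => ?_, ?_, ?_, ?_, ?_⟩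
    · exact (dpo_diff _ _ _ _).continuous
    · exact (dpo_diff _ _ _ _).continuous
    · intro lam hl τ
      exact (hF lam hl).fe δ hδ0 hδ1 τ
    · intro t₀ v₁
      have h1 := hls1 R δ hR0 (by linarith) hδ1 ι S χ H P hH hP0 hls t₀ v₁
      rw [zero_div, sub_zero] at h1
      refine h1.trans (ENNReal.ofReal_le_ofReal ?_)
      have : a₁ ≤ a := by rw [ha]; linarith
      gcongr
    · intro t₀ v₁
      have h1 := hls2 R δ hR0 (by linarith) hδ1 ι S χ H P hH hP0 hls t₀ v₁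
      have e1 : 1 / 2 + δ - 2 * κ / R = 1 / 2 - δ := by rw [hδ]; ring
      rw [e1] at h1
      refine h1.trans (ENNReal.ofReal_le_ofReal ?_)
      have : a₂ ≤ a := by rw [ha]; linarith
      gcongr
    · intro lam hl t
      obtain ⟨G', hG'⟩ := grow_diff hN (α₂ := α₂) hφ hα₁ hR0 hT hA (hF lam hl)
      have hg : Differentiable ℂ fun z => Dp N φ R ⌊Real.exp (α₂ * R)⌋₊ (χ lam) z - F lam z :=
        (dpo_diff _ _ _ _).sub (hF lam hl).diff
      obtain ⟨i1, i2⟩ := cauchy_le (a := 1 / 2 - δ) (μ := α' * R) (lam := α₁ * R) (m := n) (B := B)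
        hg (by omega) (by nlinarith) (fun z hz => hG' z (by linarith))
        (s := pt (1 / 2 + δ) t) (by rw [pt_re]; linarith)
      have e0 : (pt (1 / 2 + δ) t).re - (1 / 2 - δ) = 2 * δ := by rw [pt_re]; ring
      rw [e0, pt_im] at i1 i2
      refine ⟨i1, ?_⟩
      rw [← hs₀] at i2
      have h3 := norm_sub_le_norm_add (Dp N φ R ⌊Real.exp (α₂ * R)⌋₊ (χ lam) (pt (1 / 2 + δ) t))
        (F lam (pt (1 / 2 + δ) t))
      have h4 : ‖F lam (pt (1 / 2 + δ) t)‖ ≤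
          ‖Dp N φ R ⌊Real.exp (α₂ * R)⌋₊ (χ lam) (pt (1 / 2 + δ) t)‖ +
          ‖Dp N φ R ⌊Real.exp (α₂ * R)⌋₊ (χ lam) (pt (1 / 2 + δ) t) -
            F lam (pt (1 / 2 + δ) t)‖ := by
        have := norm_sub_norm_le (F lam (pt (1 / 2 + δ) t))
          (Dp N φ R ⌊Real.exp (α₂ * R)⌋₊ (χ lam) (pt (1 / 2 + δ) t))
        rw [norm_sub_rev] at this
        linarith
      linarith
  have hJ := JJ_triv hN hθ hβ1 hR0 hT hA hH hHT hP hF hδ0
  rw [← hGd] at hJ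
  have hBk : k + (n + E) + 2 ≤ 2 * B := by omega
  refine hSH.bound hBk (S₀ := G * Real.exp (4 * R)) (G := G) (X := Real.exp (ε * κ)) (E := E)
    (by positivity) hG0 hA (Real.one_le_exp (by positivity)) ?_ ?_ ?_
  · intro t₀ v₀
    refine (hJ t₀ v₀).trans (ENNReal.ofReal_le_ofReal ?_)
    have h1 : (1 + |t₀| / T) ^ (2 * n) ≤ wt T R k E t₀ v₀ := by
      unfold wt
      have h2 : 1 ≤ 1 + |t₀| / T := by
        have : 0 ≤ |t₀| / T := by positivity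
        linarith
      have h3 : (1 + |t₀| / T) ^ (2 * n) ≤ (1 + |t₀| / T) ^ E :=
        pow_le_pow_right₀ h2 (by omega)
      have h4 : 1 ≤ (1 + R * |v₀|) ^ k := by
        refine one_le_pow₀ ?_
        have : 0 ≤ R * |v₀| := by positivity
        linarith
      refine h3.trans (le_mul_of_one_le_left (by positivity) h4)
    calc P * G * Real.exp (4 * R) * (1 + |t₀| / T) ^ (2 * n) ≤
        P * G * Real.exp (4 * R) * wt T R k E t₀ v₀ := by gcongr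
      _ = _ := by ring
  · intro t₀ v₀ hX
    refine (hJ t₀ v₀).trans (ENNReal.ofReal_le_ofReal ?_)
    obtain ⟨Θ, hΘ⟩ : ∃ Θ : ℝ, Θ = 1 + |t₀| / T := ⟨_, rfl⟩
    have hΘ1 : 1 ≤ Θ := by
      rw [hΘ]
      have : 0 ≤ |t₀| / T := by positivity
      linarith
    rw [← hΘ] at hX ⊢
    have hn0 : (0 : ℝ) < n := by exact_mod_cast hn
    -- `Θ` is large
    have h1 : ε * κ < 2 * (n * δ) * Real.log Θ := by
      have h2 := Real.log_lt_log (Real.exp_pos _) hX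
      rw [Real.log_exp, Real.log_rpow (by linarith)] at h2
      exact h2
    have h3 : Real.exp (4 * R) ≤ Θ ^ E₁ := by
      rw [← Real.log_le_log_iff (Real.exp_pos _) (by positivity), Real.log_exp, Real.log_pow]
      have hl0 : 0 ≤ Real.log Θ := Real.log_nonneg hΘ1
      have h4 : ε * R ≤ 2 * n * Real.log Θ := by
        have h5 : ε * κ * R ≤ 2 * (n * δ) * Real.log Θ * R :=
          mul_le_mul_of_nonneg_right h1.le hR0.le
        have e1 : 2 * (n * δ) * Real.log Θ * R = 2 * n * Real.log Θ * (R * δ) := by ring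
        rw [e1, hRδ] at h5
        have hκ0 : 0 < κ := by linarith
        have h6 : (ε * R) * κ ≤ (2 * n * Real.log Θ) * κ := by linarith
        exact le_of_mul_le_mul_right h6 hκ0
      have h7 : 8 * (n : ℝ) / ε * Real.log Θ ≤ E₁ * Real.log Θ :=
        mul_le_mul_of_nonneg_right hE₁ hl0
      have h8 : 4 * R ≤ 8 * (n : ℝ) / ε * Real.log Θ := by
        rw [div_mul_eq_mul_div, le_div_iff₀ hε0]
        linarith
      linarith
    have h9 : 1 ≤ (1 + R * |v₀|) ^ k := by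
      refine one_le_pow₀ ?_
      have : 0 ≤ R * |v₀| := by positivity
      linarith
    unfold wt
    rw [← hΘ]
    calc P * G * Real.exp (4 * R) * Θ ^ (2 * n) ≤ P * G * Θ ^ E₁ * Θ ^ (2 * n) := by gcongr
      _ = P * G * (1 * Θ ^ E) := by rw [hE, pow_add]; ring
      _ ≤ P * G * ((1 + R * |v₀|) ^ k * Θ ^ E) := by gcongr
  · rw [hs2, hRδ]
    have e1 : 4 * Real.exp (-(4 * (α' * κ))) * cB B 0 * ((1 + 2 * κ) ^ k * cB B (k + (n + E))) *
        (A ^ 2 * Real.exp (2 * κ) * Real.exp (ε * κ)) =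
        4 * cB B 0 * cB B (k + (n + E)) * A ^ 2 * ((1 + 2 * κ) ^ k *
          (Real.exp (-(4 * (α' * κ))) * (Real.exp (2 * κ) * Real.exp (ε * κ)))) := by ring
    rw [e1, ← Real.exp_add, ← Real.exp_add]
    have e2 : -(4 * (α' * κ)) + (2 * κ + ε * κ) = -(ε * κ) := by rw [hε]; ring
    rw [e2]
    exact hκ

/-- growth of the mollified function -/
lemma grow_f (hN : NS N n₀) {β₁ β₂ : ℝ} {θ : ℝ → ℝ} (hθ : Cutf β₁ β₂ θ) (hβ : 0 < β₁) {A T R : ℝ} {n : ℕ}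
    (hR : 0 < R) (hT : 1 ≤ T) (hA : 1 ≤ A)
    {χ : M →*₀ ℂ} {F : ℂ → ℂ} (h : GLf N A T R n χ F) :
    ∃ G : ℝ, ∀ z : ℂ, 1 / 4 ≤ z.re → ‖F z * Mp N θ R ⌊Real.exp (β₂ * R)⌋₊ χ z - 1‖ ≤
      G * (1 + |z.im|) ^ n * Real.exp (-(β₁ * R * z.re)) := by
  obtain ⟨G₀, hG₀, hG⟩ := dpo_bdd N ⌊Real.exp (β₂ * R)⌋₊ (fun a => mob a * (θ (lN N a / R) : ℂ))
    χ
  obtain ⟨E, hE⟩ : ∃ E : ℝ, E = Real.exp (β₁ * R * (3 / 2)) := ⟨_, rfl⟩
  have hE0 : 0 < E := by rw [hE]; exact Real.exp_pos _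
  have hZ := ZN_nonneg N
  have hA0 : 0 < A := by linarith
  refine ⟨(ZN N * ZN N + (A * Real.exp R * G₀ + 1)) * E, fun z hz => ?_⟩
  have hone : 1 ≤ (1 + |z.im|) ^ n := one_le_pow₀ (by linarith [abs_nonneg z.im])
  rcases le_total (3 / 2) z.re with h3 | h3
  · rw [h.ser z (by linarith)]
    refine (LM_sub_one hN hθ hR h.le1 h3).trans ?_
    have e1 : Real.exp (-(β₁ * R * (z.re - 3 / 2))) = E * Real.exp (-(β₁ * R * z.re)) := by
      rw [hE, ← Real.exp_add]; congr 1; ring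
    rw [e1]
    calc E * Real.exp (-(β₁ * R * z.re)) * (ZN N * ZN N) =
        (ZN N * ZN N) * E * 1 * Real.exp (-(β₁ * R * z.re)) := by ring
      _ ≤ (ZN N * ZN N + (A * Real.exp R * G₀ + 1)) * E * (1 + |z.im|) ^ n *
          Real.exp (-(β₁ * R * z.re)) := by
          gcongr
          have : 0 ≤ A * Real.exp R * G₀ + 1 := by positivity
          linarith
  · have e2 : 1 ≤ E * Real.exp (-(β₁ * R * z.re)) := by
      rw [hE, ← Real.exp_add]
      refine Real.one_le_exp ?_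
      have : 0 ≤ β₁ * R * (3 / 2 - z.re) := by
        have : 0 ≤ 3 / 2 - z.re := by linarith
        positivity
      linarith
    have e3 := h.gr z (by linarith)
    have e4 : (1 + |z.im| / T) ^ n ≤ (1 + |z.im|) ^ n := by
      refine pow_le_pow_left₀ (by positivity) ?_ n
      have : |z.im| / T ≤ |z.im| := div_le_self (abs_nonneg _) hT
      linarith
    have e5 := hG z (by linarith)
    have e6 : ‖F z‖ ≤ A * Real.exp R * (1 + |z.im|) ^ n :=
      e3.trans (mul_le_mul_of_nonneg_left e4 (by positivity))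
    calc ‖F z * Mp N θ R ⌊Real.exp (β₂ * R)⌋₊ χ z - 1‖ ≤
          ‖F z‖ * ‖Mp N θ R ⌊Real.exp (β₂ * R)⌋₊ χ z‖ + 1 := by
          have := norm_sub_le (F z * Mp N θ R ⌊Real.exp (β₂ * R)⌋₊ χ z) 1
          rw [norm_mul, norm_one] at this
          exact this
      _ ≤ A * Real.exp R * (1 + |z.im|) ^ n * G₀ + 1 :=
          add_le_add (mul_le_mul e6 e5 (norm_nonneg _) (by positivity)) le_rfl
      _ ≤ A * Real.exp R * (1 + |z.im|) ^ n * G₀ + 1 * (1 + |z.im|) ^ n := by linarith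
      _ = (0 + (A * Real.exp R * G₀ + 1)) * (1 + |z.im|) ^ n * 1 := by ring
      _ ≤ (ZN N * ZN N + (A * Real.exp R * G₀ + 1)) * (1 + |z.im|) ^ n *
          (E * Real.exp (-(β₁ * R * z.re))) := by gcongr; positivity
      _ = _ := by ring

/-- comparison of the orders -/
lemma order_le {F M : ℂ → ℂ} (hF : Differentiable ℂ F) (hM : Differentiable ℂ M)
    (h2 : ‖F 2 * M 2 - 1‖ ^ 2 ≤ 1 / 2) (z : ℂ) :
    analyticOrderNatAt F z ≤ analyticOrderNatAt (fun s => 1 - (F s * M s - 1) ^ 2) z := by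
  have e1 : (fun s => 1 - (F s * M s - 1) ^ 2) = F * fun s => M s * (2 - F s * M s) := by
    funext s
    simp only [Pi.mul_apply]
    ring
  have hu : Differentiable ℂ fun s => M s * (2 - F s * M s) :=
    hM.mul ((differentiable_const _).sub (hF.mul hM))
  have hh : Differentiable ℂ fun s => 1 - (F s * M s - 1) ^ 2 :=
    (differentiable_const _).sub (((hF.mul hM).sub (differentiable_const _)).pow 2)
  have h3 : (fun s => 1 - (F s * M s - 1) ^ 2) 2 ≠ 0 := by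
    intro h4
    simp only at h4
    have h5 : (F 2 * M 2 - 1) ^ 2 = 1 := (sub_eq_zero.mp h4).symm
    rw [← norm_pow, h5, norm_one] at h2
    norm_num at h2
  have h4 : analyticOrderAt (fun s => 1 - (F s * M s - 1) ^ 2) 2 ≠ ⊤ := by
    rw [(hh.analyticAt 2).analyticOrderAt_eq_zero.mpr h3]
    exact ENat.zero_ne_top
  have hA : AnalyticOnNhd ℂ (fun s => 1 - (F s * M s - 1) ^ 2) univ := fun z _ => hh.analyticAt z
  have h5 : analyticOrderAt (fun s => 1 - (F s * M s - 1) ^ 2) z ≠ ⊤ :=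
    hA.analyticOrderAt_ne_top_of_isPreconnected isPreconnected_univ (mem_univ 2) (mem_univ z) h4
  unfold analyticOrderNatAt
  refine ENat.toNat_le_toNat ?_ h5
  rw [e1, analyticOrderAt_mul (hF.analyticAt z) (hu.analyticAt z)]
  exact le_self_add


/-- the order at a point where the function does not vanish -/
lemma ord_zero {F : ℂ → ℂ} (hF : Differentiable ℂ F) {z : ℂ} (h : F z ≠ 0) :
    analyticOrderNatAt F z = 0 := by
  unfold analyticOrderNatAt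
  rw [(hF.analyticAt z).analyticOrderAt_eq_zero.mpr h]
  rfl

/-- one disc -/
lemma disc_count {F : ℂ → ℂ} (hF : Differentiable ℂ F) {A B τ : ℝ} (hA : 1 ≤ A) (hB : 1 ≤ B)
    (hlow : ∀ s : ℂ, 2 ≤ s.re → A⁻¹ ≤ ‖F s‖)
    (hup : ∀ s : ℂ, 1 / 16 ≤ s.re → |s.im - τ| ≤ 2 → ‖F s‖ ≤ B) (Z : Finset ℂ)
    (hZ : ∀ z ∈ Z, 1 / 2 ≤ z.re ∧ |z.im - τ| ≤ 1 / 2) :
    ∑ z ∈ Z, (analyticOrderNatAt F z : ℝ) ≤ 6 * (Real.log B + Real.log A) := by
  classical
  have hA0 : 0 < A := by linarith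
  obtain ⟨ρ, hρ⟩ : ∃ ρ : ℝ, ρ = 31 / 16 := ⟨_, rfl⟩
  have hρ0 : 0 < ρ := by rw [hρ]; norm_num
  have hc : F (pt 2 τ) ≠ 0 := by
    intro h
    have := hlow (pt 2 τ) (by rw [pt_re])
    rw [h, norm_zero] at this
    have h2 : 0 < A⁻¹ := by positivity
    linarith
  have hdist : ∀ z ∈ Z.filter (fun z => z.re ≤ 2), ‖pt 2 τ - z‖ ^ 2 ≤ 5 / 2 := by
    intro z hz
    obtain ⟨h1, h2⟩ := Finset.mem_filter.mp hz
    obtain ⟨h3, h4⟩ := hZ z h1
    rw [← Complex.normSq_eq_norm_sq, Complex.normSq_apply, Complex.sub_re, Complex.sub_im,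
      pt_re, pt_im]
    obtain ⟨h5, h6⟩ := abs_le.mp h4
    nlinarith
  have hred : ∑ z ∈ Z, (analyticOrderNatAt F z : ℝ) =
      ∑ z ∈ Z.filter (fun z => z.re ≤ 2), (analyticOrderNatAt F z : ℝ) := by
    refine (Finset.sum_subset (Finset.filter_subset _ _) fun z hz hz2 => ?_).symm
    have h3 : ¬ z.re ≤ 2 := fun h => hz2 (Finset.mem_filter.mpr ⟨hz, h⟩)
    have h4 := hlow z (by linarith)
    have h5 : F z ≠ 0 := by
      intro h
      rw [h, norm_zero] at h4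
      have h2 : 0 < A⁻¹ := by positivity
      linarith
    rw [ord_zero hF h5, Nat.cast_zero]
  rw [hred]
  have h1 := jensen_fin hF hρ0 hc (Z := Z.filter (fun z => z.re ≤ 2)) (fun z hz => by
    refine le_of_sq_le_sq ((hdist z hz).trans ?_) hρ0.le
    rw [hρ]; norm_num)
  have h2 : ∑ z ∈ Z.filter (fun z => z.re ≤ 2), (analyticOrderNatAt F z : ℝ) * (1 / 6) ≤
      ∑ z ∈ Z.filter (fun z => z.re ≤ 2), (analyticOrderNatAt F z : ℝ) *
        Real.log (ρ * ‖pt 2 τ - z‖⁻¹) := by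
    refine Finset.sum_le_sum fun z hz => ?_
    by_cases hcz : pt 2 τ = z
    · rw [← hcz, ord_zero hF hc]
      simp
    · refine mul_le_mul_of_nonneg_left ?_ (Nat.cast_nonneg _)
      have hd : 0 < ‖pt 2 τ - z‖ := norm_pos_iff.mpr (sub_ne_zero.mpr hcz)
      have h3 := Real.one_sub_inv_le_log_of_pos (x := (ρ / ‖pt 2 τ - z‖) ^ 2) (by positivity)
      rw [Real.log_pow, div_pow, inv_div] at h3
      have h4 : ‖pt 2 τ - z‖ ^ 2 / ρ ^ 2 ≤ 2 / 3 := by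
        rw [div_le_iff₀ (by positivity)]
        refine (hdist z hz).trans ?_
        rw [hρ]; norm_num
      rw [← div_eq_mul_inv]
      push_cast at h3
      linarith
  have h3 : Real.circleAverage (fun z => Real.log ‖F z‖) (pt 2 τ) ρ ≤ Real.log B := by
    refine Real.circleAverage_mono_on_of_le_circle ?_ ?_
    · have hm : MeromorphicOn F (Metric.sphere (pt 2 τ) |ρ|) :=
        fun z _ => (hF.analyticAt z).meromorphicAt
      exact hm.circleIntegrable_log_norm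
    · intro z hz
      rw [mem_sphere_iff_norm, abs_of_pos hρ0] at hz
      have h4 : |(z - pt 2 τ).re| ≤ ρ := (Complex.abs_re_le_norm _).trans hz.le
      have h5 : |(z - pt 2 τ).im| ≤ ρ := (Complex.abs_im_le_norm _).trans hz.le
      rw [Complex.sub_re, pt_re] at h4
      rw [Complex.sub_im, pt_im] at h5
      have h6 := hup z (by have := (abs_le.mp h4).1; rw [hρ] at this; linarith)
        (h5.trans (by rw [hρ]; norm_num))
      rcases eq_or_ne (F z) 0 with h0 | h0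
      · rw [h0, norm_zero, Real.log_zero]
        exact Real.log_nonneg hB
      · exact Real.log_le_log (norm_pos_iff.mpr h0) h6
  have h4 : -Real.log ‖F (pt 2 τ)‖ ≤ Real.log A := by
    have h5 := Real.log_le_log (by positivity) (hlow (pt 2 τ) (by rw [pt_re]))
    rw [Real.log_inv] at h5
    linarith
  rw [← Finset.sum_mul] at h2
  linarith

/-- **the trivial bound for the number of zeros** -/
theorem triv_count {F : ℂ → ℂ} (hF : Differentiable ℂ F) {A T R H t₁ : ℝ} {n : ℕ} (hA : 1 ≤ A)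
    (hR : 1 ≤ R) (hH : 1 ≤ H) (hHT : H ≤ T) (ht₁ : |t₁| ≤ T)
    (hlow : ∀ s : ℂ, 2 ≤ s.re → A⁻¹ ≤ ‖F s‖)
    (hgr : ∀ s : ℂ, 1 / 16 ≤ s.re → ‖F s‖ ≤ A * Real.exp R * (1 + |s.im| / T) ^ n) (Z : Finset ℂ)
    (hZ : ∀ z ∈ Z, 1 / 2 ≤ z.re ∧ t₁ ≤ z.im ∧ z.im ≤ t₁ + H) :
    ∑ z ∈ Z, (analyticOrderNatAt F z : ℝ) ≤
      12 * (2 * Real.log A + 1 + n * Real.log 6) * (H * R) := by
  classical
  have hT : 1 ≤ T := hH.trans hHT
  have hT0 : 0 < T := by linarith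
  have hA0 : 0 < A := by linarith
  have hlA : 0 ≤ Real.log A := Real.log_nonneg hA
  have hl6 : 0 ≤ Real.log 6 := Real.log_nonneg (by norm_num)
  obtain ⟨J, hJ⟩ : ∃ J : ℕ, J = ⌊H⌋₊ + 1 := ⟨_, rfl⟩
  have hmaps : ∀ z ∈ Z, ⌊z.im - t₁⌋₊ ∈ Finset.range J := by
    intro z hz
    obtain ⟨h1, h2, h3⟩ := hZ z hz
    rw [Finset.mem_range, hJ]
    have : ⌊z.im - t₁⌋₊ ≤ ⌊H⌋₊ := Nat.floor_le_floor (by linarith)
    omega
  rw [← Finset.sum_fiberwise_of_maps_to hmaps]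
  obtain ⟨B, hB⟩ : ∃ B : ℝ, B = A * Real.exp R * 6 ^ n := ⟨_, rfl⟩
  have hB1 : 1 ≤ B := by
    rw [hB]
    have h1 : 1 ≤ Real.exp R := Real.one_le_exp (by linarith)
    have h2 : (1 : ℝ) ≤ 6 ^ n := one_le_pow₀ (by norm_num)
    exact one_le_mul_of_one_le_of_one_le (one_le_mul_of_one_le_of_one_le hA h1) h2
  have hlogB : Real.log B = Real.log A + R + n * Real.log 6 := by
    rw [hB, Real.log_mul (by positivity) (by positivity), Real.log_mul hA0.ne'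
      (Real.exp_pos _).ne', Real.log_exp, Real.log_pow]
  have hone : ∀ j ∈ Finset.range J, ∑ z ∈ Z.filter (fun z => ⌊z.im - t₁⌋₊ = j),
      (analyticOrderNatAt F z : ℝ) ≤ 6 * (Real.log B + Real.log A) := by
    intro j hj
    refine disc_count hF (τ := t₁ + j + 1 / 2) hA hB1 hlow ?_ _ ?_
    · intro s h1 h2
      refine (hgr s h1).trans ?_
      rw [hB]
      have hj1 : (j : ℝ) ≤ H := by
        rw [Finset.mem_range, hJ] at hj
        have h3 : (j : ℝ) ≤ ⌊H⌋₊ := by exact_mod_cast (by omega : j ≤ ⌊H⌋₊)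
        exact h3.trans (Nat.floor_le (by linarith))
      have hj0 : (0 : ℝ) ≤ j := Nat.cast_nonneg j
      have h4 : |s.im| ≤ 5 * T := by
        obtain ⟨a1, a2⟩ := abs_le.mp h2
        obtain ⟨b1, b2⟩ := abs_le.mp ht₁
        rw [abs_le]
        constructor <;> linarith
      have h5 : 1 + |s.im| / T ≤ 6 := by
        have := (div_le_iff₀ hT0).mpr h4
        linarith
      gcongr
    · intro z hz
      obtain ⟨h1, h2⟩ := Finset.mem_filter.mp hz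
      obtain ⟨h3, h4, h5⟩ := hZ z h1
      refine ⟨h3, ?_⟩
      have h6 := Nat.floor_le (show 0 ≤ z.im - t₁ by linarith)
      have h7 := Nat.lt_floor_add_one (z.im - t₁)
      rw [h2] at h6 h7
      rw [abs_le]
      constructor <;> linarith
  refine (Finset.sum_le_sum hone).trans ?_
  rw [Finset.sum_const, Finset.card_range, nsmul_eq_mul]
  have hJH : (J : ℝ) ≤ 2 * H := by
    rw [hJ]
    push_cast
    have := Nat.floor_le (show 0 ≤ H by linarith)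
    linarith
  have h8 : 6 * (Real.log B + Real.log A) ≤ 6 * ((2 * Real.log A + 1 + n * Real.log 6) * R) := by
    rw [hlogB]
    have h9 : 2 * Real.log A ≤ 2 * Real.log A * R := le_mul_of_one_le_right (by positivity) hR
    have h10 : n * Real.log 6 ≤ n * Real.log 6 * R := le_mul_of_one_le_right (by positivity) hR
    linarith
  calc (J : ℝ) * (6 * (Real.log B + Real.log A)) ≤
      (2 * H) * (6 * ((2 * Real.log A + 1 + n * Real.log 6) * R)) := by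
        have : 0 ≤ Real.log B := Real.log_nonneg hB1
        gcongr
    _ = _ := by ring


/-- **The density of zeros near the critical line** -/
theorem dens_core (hN : NS N n₀) {e : ℝ} (he : 0 < e) {G' : ℝ}
    (hG : Wgt (wN N n₀) (fun k => ((n₀ : ℝ) * k + 1) ^ n₀) G') {α' α₁ α₂ β' β₁ β₂ A : ℝ} {φ θ : ℝ → ℝ}
    (hφ : Cutf α₁ α₂ φ) (hθ : Cutf β₁ β₂ θ) (hα' : 1 / 2 < α') (hα : α' < α₁) (hα₂ : 0 < α₂)
    (hβ' : 0 < β') (hβ'1 : β' < β₁) (hβ1' : β' ≤ 1)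
    (hβ : 0 < β₂) (hβ1 : β₂ ≤ 1) (hA : 1 ≤ A) (n : ℕ) (hn : 1 ≤ n) :
    ∃ (κ Q R₀ : ℝ), 1 ≤ κ ∧ 0 ≤ Q ∧ 1 ≤ R₀ ∧
    ∀ (R T H P : ℝ) (ι : Type) (S : Finset ι) (χ : ι → M →*₀ ℂ)
      (F : ι → ℂ → ℂ), R₀ ≤ R → 1 ≤ H → H ≤ T → S.card * H ≤ P →
      LSU N S χ H P e (⌊Real.exp (α₂ * R)⌋₊ * ⌊Real.exp (β₂ * R)⌋₊) →
      (∀ lam, Differentiable ℂ (F lam)) → (∀ lam ∈ S, GLf N A T R n (χ lam) (F lam)) →
      ∀ t₁ : ℝ, |t₁| ≤ T → ∀ σ : ℝ, 1 / 2 + κ / R < σ → σ ≤ 1 →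
      ∀ Z : ι → Finset ℂ,
      (∀ lam ∈ S, ∀ z ∈ Z lam, σ + 1 / R ≤ z.re ∧ t₁ ≤ z.im ∧ z.im ≤ t₁ + H) →
      ∑ lam ∈ S, ∑ z ∈ Z lam, (analyticOrderNatAt (F lam) z : ℝ) ≤
        Q * (P * R * Real.exp (-(2 * β' * R * (σ - 1 / 2)))) := by
  obtain ⟨κ, a, R₀, k, E, hκ, ha, hR₀, hmain⟩ :=
    mean_near hN he hG hφ hθ hα' hα hα₂ hβ hβ1 hA n hn
  obtain ⟨B, hB⟩ : ∃ B : ℕ, B = n + E + 3 := ⟨_, rfl⟩
  have hZ := ZN_nonneg N
  obtain ⟨C₀, hC₀⟩ : ∃ C₀ : ℝ, C₀ = cB B 0 * (3 ^ E * cB B E) := ⟨_, rfl⟩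
  have hC₀0 : 0 ≤ C₀ := by
    rw [hC₀]
    have := cB_nn B 0
    have := cB_nn B E
    positivity
  have hβ₁ : 0 < β₁ := by linarith
  -- the last threshold
  obtain ⟨R₁, hR₁⟩ : ∃ R₁ : ℝ, ∀ R : ℝ, R₁ ≤ R →
      Real.exp (-(β₁ * R * (1 / 2))) * (ZN N * ZN N) ≤ 1 / 2 := by
    have h1 : Tendsto (fun R : ℝ => Real.exp (-(β₁ * R * (1 / 2))) * (ZN N * ZN N)) atTop
        (𝓝 (0 * (ZN N * ZN N))) := by
      refine Tendsto.mul_const _ (Real.tendsto_exp_neg_atTop_nhds_zero.comp ?_)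
      have h2 : Tendsto (fun R : ℝ => β₁ * R * (1 / 2)) atTop atTop :=
        (tendsto_id.const_mul_atTop hβ₁).atTop_mul_const (by norm_num)
      exact h2
    rw [zero_mul] at h1
    obtain ⟨R₁, h2⟩ := (h1.eventually (Iio_mem_nhds (show (0 : ℝ) < 1 / 2 by norm_num))).exists_forall_of_atTop
    exact ⟨R₁, fun R hR => (mem_Iio.mp (h2 R hR)).le⟩
  refine ⟨κ, 24 * 7 ^ E / β' * (C₀ * (2 * a + 2)) * Real.exp (2 * β' * κ), max R₀ R₁, hκ,
    by positivity, le_max_of_le_left hR₀, ?_⟩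
  intro R T H P ι S χ F hR hH hHT hP hls hFd hF t₁ ht₁ σ hσ hσ1 Z hZz
  have hR1 : R₀ ≤ R := (le_max_left _ _).trans hR
  have hR2 : R₁ ≤ R := (le_max_right _ _).trans hR
  have hRone : 1 ≤ R := hR₀.trans hR1
  have hR0 : 0 < R := by linarith
  have hT : 1 ≤ T := hH.trans hHT
  have hT0 : 0 < T := by linarith
  have hP0 : 0 ≤ P := le_trans (by positivity) hP
  obtain ⟨a₀, ha₀⟩ : ∃ a₀ : ℝ, a₀ = 1 / 2 + κ / R := ⟨_, rfl⟩
  have hκR : 0 < κ / R := by positivity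
  set M : ι → ℂ → ℂ := fun lam => Mp N θ R ⌊Real.exp (β₂ * R)⌋₊ (χ lam) with hM
  have hMd : ∀ lam, Differentiable ℂ (M lam) := fun lam => dpo_diff _ _ _ _
  have hMl : ∀ lam, M lam = Mp N θ R ⌊Real.exp (β₂ * R)⌋₊ (χ lam) := fun lam => rfl
  set f : ι → ℂ → ℂ := fun lam s => F lam s * M lam s - 1 with hf
  have hfd : ∀ lam, Differentiable ℂ (f lam) := fun lam =>
    ((hFd lam).mul (hMd lam)).sub (differentiable_const _)
  -- the mean square on the line `a₀`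
  have hms : ∀ t₀ : ℝ, QQ S f a₀ H t₀ ≤
      ENNReal.ofReal (P * (2 * a + 2) * (1 + |t₀| / T) ^ E) := by
    intro t₀
    have hJ := hmain R T H P ι S χ F hR1 hT (by linarith) hHT hP hls
      (fun lam => (hFd lam).continuous) hF t₀ 0
    rw [← ha₀] at hJ
    have e0 : wt T R k E t₀ 0 = (1 + |t₀| / T) ^ E := by
      unfold wt
      rw [abs_zero, mul_zero, add_zero, one_pow, one_mul]
    rw [e0] at hJ
    have hΘ : 1 ≤ (1 + |t₀| / T) ^ E := one_le_pow₀ (by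
      have : 0 ≤ |t₀| / T := by positivity
      linarith)
    have hpt : ∀ lam t, ENNReal.ofReal (‖f lam (pt a₀ t)‖ ^ 2) ≤
        ENNReal.ofReal 2 * ENNReal.ofReal (‖F lam (pt a₀ t)‖ ^ 2 * ‖M lam (pt a₀ (t - 0))‖ ^ 2) +
        ENNReal.ofReal 2 := by
      intro lam t
      rw [← ENNReal.ofReal_mul (by norm_num), ← ENNReal.ofReal_add (by positivity) (by norm_num),
        sub_zero]
      refine ENNReal.ofReal_le_ofReal ?_
      simp only [hf]
      have h1 := norm_sub_le (F lam (pt a₀ t) * M lam (pt a₀ t)) 1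
      rw [norm_mul, norm_one] at h1
      have h2 := pow_le_pow_left₀ (norm_nonneg _) h1 2
      have h3 : (‖F lam (pt a₀ t)‖ * ‖M lam (pt a₀ t)‖ + 1) ^ 2 ≤
          2 * (‖F lam (pt a₀ t)‖ ^ 2 * ‖M lam (pt a₀ t)‖ ^ 2) + 2 := by
        nlinarith [sq_nonneg (‖F lam (pt a₀ t)‖ * ‖M lam (pt a₀ t)‖ - 1)]
      linarith
    unfold QQ
    calc ∑ lam ∈ S, ∫⁻ t in Icc t₀ (t₀ + H), ENNReal.ofReal (‖f lam (pt a₀ t)‖ ^ 2) ≤
        ∑ lam ∈ S, (ENNReal.ofReal 2 * (∫⁻ t in Icc t₀ (t₀ + H),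
          ENNReal.ofReal (‖F lam (pt a₀ t)‖ ^ 2 * ‖M lam (pt a₀ (t - 0))‖ ^ 2)) +
          ENNReal.ofReal (2 * H)) := by
          refine Finset.sum_le_sum fun lam _ => (lintegral_mono (hpt lam)).trans ?_
          have hmeas : Measurable fun t : ℝ =>
              ENNReal.ofReal (‖F lam (pt a₀ t)‖ ^ 2 * ‖M lam (pt a₀ (t - 0))‖ ^ 2) := by
            refine Measurable.ennreal_ofReal (Continuous.measurable ?_)
            have c1 : Continuous fun t : ℝ => ‖F lam (pt a₀ t)‖ :=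
              ((hFd lam).continuous.comp (pt_cont _)).norm
            have c2 : Continuous fun t : ℝ => ‖M lam (pt a₀ (t - 0))‖ := by
              simp only [sub_zero]
              exact ((hMd lam).continuous.comp (pt_cont _)).norm
            exact (c1.pow 2).mul (c2.pow 2)
          rw [lintegral_add_left (hmeas.const_mul _), lintegral_const_mul _ hmeas,
            setLIntegral_const, Real.volume_Icc, ← ENNReal.ofReal_mul (by norm_num)]
          refine add_le_add le_rfl (ENNReal.ofReal_le_ofReal (le_of_eq ?_))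
          ring
      _ = ENNReal.ofReal 2 * JJ S F M a₀ a₀ H t₀ 0 + ENNReal.ofReal (S.card * (2 * H)) := by
          rw [Finset.sum_add_distrib, ← Finset.mul_sum, Finset.sum_const, nsmul_eq_mul,
            ENNReal.ofReal_mul (Nat.cast_nonneg _), ENNReal.ofReal_natCast]
          rfl
      _ ≤ ENNReal.ofReal 2 * ENNReal.ofReal (P * a * (1 + |t₀| / T) ^ E) +
          ENNReal.ofReal (2 * P * (1 + |t₀| / T) ^ E) := by
          refine add_le_add (mul_le_mul_right hJ _) (ENNReal.ofReal_le_ofReal ?_)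
          calc (S.card : ℝ) * (2 * H) = 2 * (S.card * H) * 1 := by ring
            _ ≤ 2 * P * (1 + |t₀| / T) ^ E := by gcongr
      _ = _ := by
          rw [← ENNReal.ofReal_mul (by norm_num), ← ENNReal.ofReal_add (by positivity)
            (by positivity)]
          congr 1
          ring
  -- to the right
  have hright : ∀ r : ℝ, 0 < r → r ≤ 3 → ∀ t₀ : ℝ, QQ S f (a₀ + r) H t₀ ≤
      ENNReal.ofReal (C₀ * (P * (2 * a + 2)) * Real.exp (-(2 * (β' * R * r))) *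
        (1 + |t₀| / T) ^ E) := by
    intro r hr hr3 t₀
    have h1 := QQ_right (I := S) (f := f) hfd (a := a₀) (μ := β' * R) (lam := β₁ * R) (T := T)
      (H := H) (Q := P * (2 * a + 2)) (m := n) (B := B) (E := E) hT (by positivity) (by omega)
      (by omega) (by nlinarith) (fun lam hl => by
        obtain ⟨G, hG⟩ := grow_f hN (β₂ := β₂) hθ hβ₁ hR0 hT hA (hF lam hl)
        exact ⟨G, fun z hz => hG z (by rw [ha₀] at hz; linarith)⟩) hms hr hr3 t₀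
    rw [← hC₀] at h1
    exact h1
  have hsmall : ∀ lam ∈ S, ∀ z : ℂ, 2 ≤ z.re → ‖f lam z‖ ^ 2 ≤ 1 / 2 := by
    intro lam hl z hz
    simp only [hf, hMl]
    rw [(hF lam hl).ser z (by linarith)]
    have h1 := LM_sub_one hN (β₂ := β₂) hθ hR0 (hF lam hl).le1 (s := z) (by linarith)
    have h2 : Real.exp (-(β₁ * R * (z.re - 3 / 2))) ≤ Real.exp (-(β₁ * R * (1 / 2))) := by
      refine Real.exp_le_exp.mpr (neg_le_neg ?_)
      exact mul_le_mul_of_nonneg_left (by linarith) (by positivity)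
    have h3 := h1.trans ((mul_le_mul_of_nonneg_right h2 (by positivity)).trans (hR₁ R hR2))
    have h4 := pow_le_pow_left₀ (norm_nonneg _) h3 2
    norm_num at h4
    linarith
  have hcount := zero_count (I := S) (f := f) hfd (a := a₀) (μ := β' * R) (R := R) (T := T)
    (H := H) (P := C₀ * (P * (2 * a + 2))) (σ := σ) (t₁ := t₁) (b := β') (E := E) hRone hβ' hβ1'
    le_rfl hT hH hHT (by positivity) ht₁ (by linarith) (by linarith) hσ1 hright hsmall Z hZz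
  have hord : ∑ lam ∈ S, ∑ z ∈ Z lam, (analyticOrderNatAt (F lam) z : ℝ) ≤
      ∑ lam ∈ S, ∑ z ∈ Z lam, (analyticOrderNatAt (fun s => 1 - f lam s ^ 2) z : ℝ) := by
    refine Finset.sum_le_sum fun lam hl => Finset.sum_le_sum fun z _ => ?_
    have := order_le (hFd lam) (hMd lam) (hsmall lam hl 2 (by norm_num)) z
    exact_mod_cast this
  refine hord.trans (hcount.trans (le_of_eq ?_))
  have e1 : Real.exp (-(2 * (β' * R * (σ - a₀)))) =
      Real.exp (2 * β' * κ) * Real.exp (-(2 * β' * R * (σ - 1 / 2))) := by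
    rw [← Real.exp_add, ha₀]
    congr 1
    field_simp
    ring
  rw [e1]
  ring

/-- **The density of zeros at all distances from the critical line** -/
theorem dens_all (hN : NS N n₀) {e : ℝ} (he : 0 < e) {G' : ℝ}
    (hG : Wgt (wN N n₀) (fun k => ((n₀ : ℝ) * k + 1) ^ n₀) G') {α' α₁ α₂ β' β₁ β₂ A : ℝ} {φ θ : ℝ → ℝ}
    (hφ : Cutf α₁ α₂ φ) (hθ : Cutf β₁ β₂ θ) (hα' : 1 / 2 < α') (hα : α' < α₁) (hα₂ : 0 < α₂)
    (hβ' : 0 < β') (hβ'1 : β' < β₁) (hβ1' : β' ≤ 1)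
    (hβ : 0 < β₂) (hβ1 : β₂ ≤ 1) (hA : 1 ≤ A) (n : ℕ) (hn : 1 ≤ n) :
    ∃ (Q R₀ : ℝ), 0 ≤ Q ∧ 1 ≤ R₀ ∧
    ∀ (R T H P : ℝ) (ι : Type) (S : Finset ι) (χ : ι → M →*₀ ℂ)
      (F : ι → ℂ → ℂ), R₀ ≤ R → 1 ≤ H → H ≤ T → S.card * H ≤ P →
      LSU N S χ H P e (⌊Real.exp (α₂ * R)⌋₊ * ⌊Real.exp (β₂ * R)⌋₊) →
      (∀ lam, Differentiable ℂ (F lam)) → (∀ lam ∈ S, GLf N A T R n (χ lam) (F lam)) →
      (∀ lam ∈ S, ∀ s : ℂ, 1 < s.re → F lam s ≠ 0) →
      ∀ t₁ : ℝ, |t₁| ≤ T → ∀ δ : ℝ, 0 ≤ δ →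
      ∀ Z : ι → Finset ℂ,
      (∀ lam ∈ S, ∀ z ∈ Z lam, 1 / 2 + δ ≤ z.re ∧ t₁ ≤ z.im ∧ z.im ≤ t₁ + H) →
      ∑ lam ∈ S, ∑ z ∈ Z lam, (analyticOrderNatAt (F lam) z : ℝ) ≤
        Q * (P * R * Real.exp (-(2 * β' * R * δ))) := by
  obtain ⟨κ, Q, R₀, hκ, hQ, hR₀, hmain⟩ := dens_core hN he hG hφ hθ hα' hα hα₂ hβ' hβ'1 hβ1' hβ hβ1 hA n hn
  obtain ⟨Q₂, hQ₂⟩ : ∃ Q₂ : ℝ, Q₂ = 12 * (2 * Real.log A + 1 + n * Real.log 6) := ⟨_, rfl⟩
  have hlA : 0 ≤ Real.log A := Real.log_nonneg hA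
  have hl6 : 0 ≤ Real.log 6 := Real.log_nonneg (by norm_num)
  have hQ₂0 : 0 ≤ Q₂ := by rw [hQ₂]; positivity
  refine ⟨Q * Real.exp (2 * β') + Q₂ * Real.exp (2 * β' * (κ + 2)), R₀, by positivity, hR₀, ?_⟩
  intro R T H P ι S χ F hR hH hHT hP hls hFd hF hnv t₁ ht₁ δ hδ Z hZ
  have hR1 : 1 ≤ R := hR₀.trans hR
  have hR0 : 0 < R := by linarith
  have hP0 : 0 ≤ P := le_trans (by positivity) hP
  rcases le_total δ ((κ + 2) / R) with hsm | hbig
  · -- near the line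
    have h1 : ∑ lam ∈ S, ∑ z ∈ Z lam, (analyticOrderNatAt (F lam) z : ℝ) ≤
        ∑ _lam ∈ S, Q₂ * (H * R) := by
      refine Finset.sum_le_sum fun lam hl => ?_
      rw [hQ₂]
      exact triv_count (hFd lam) hA hR1 hH hHT ht₁ (hF lam hl).low (hF lam hl).gr (Z lam)
        fun z hz => ⟨by linarith [(hZ lam hl z hz).1], (hZ lam hl z hz).2⟩
    rw [Finset.sum_const, nsmul_eq_mul] at h1
    have h2 : 1 ≤ Real.exp (2 * β' * (κ + 2)) * Real.exp (-(2 * β' * R * δ)) := by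
      rw [← Real.exp_add]
      refine Real.one_le_exp ?_
      rw [le_div_iff₀ hR0] at hsm
      nlinarith
    calc _ ≤ (S.card : ℝ) * (Q₂ * (H * R)) := h1
      _ = Q₂ * ((S.card * H) * R) := by ring
      _ ≤ Q₂ * (P * R) := by gcongr
      _ = Q₂ * (P * R) * 1 := by ring
      _ ≤ Q₂ * (P * R) * (Real.exp (2 * β' * (κ + 2)) * Real.exp (-(2 * β' * R * δ))) := by gcongr
      _ = Q₂ * Real.exp (2 * β' * (κ + 2)) * (P * R * Real.exp (-(2 * β' * R * δ))) := by ring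
      _ ≤ _ := by
          refine mul_le_mul_of_nonneg_right ?_ (by positivity)
          have : 0 ≤ Q * Real.exp (2 * β') := by positivity
          linarith
  · rcases le_or_gt δ (1 / 2) with hh | hh
    · have h1 := hmain R T H P ι S χ F hR hH hHT hP hls hFd hF t₁ ht₁ (1 / 2 + δ - 1 / R) (by
        have e1 : (κ + 2) / R = κ / R + 2 / R := by ring
        rw [e1] at hbig
        have h2 : 0 < 1 / R := by positivity
        have h3 : 2 / R = 1 / R + 1 / R := by ring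
        linarith) (by
        have h2 : 0 < 1 / R := by positivity
        linarith) Z (fun lam hl z hz => by
        obtain ⟨a1, a2, a3⟩ := hZ lam hl z hz
        exact ⟨by linarith, a2, a3⟩)
      have e2 : Real.exp (-(2 * β' * R * (1 / 2 + δ - 1 / R - 1 / 2))) =
          Real.exp (2 * β') * Real.exp (-(2 * β' * R * δ)) := by
        rw [← Real.exp_add]
        congr 1
        field_simp
        ring
      rw [e2] at h1
      refine h1.trans ?_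
      calc Q * (P * R * (Real.exp (2 * β') * Real.exp (-(2 * β' * R * δ)))) =
          Q * Real.exp (2 * β') * (P * R * Real.exp (-(2 * β' * R * δ))) := by ring
        _ ≤ _ := by
          refine mul_le_mul_of_nonneg_right ?_ (by positivity)
          have : 0 ≤ Q₂ * Real.exp (2 * β' * (κ + 2)) := by positivity
          linarith
    · have h1 : ∑ lam ∈ S, ∑ z ∈ Z lam, (analyticOrderNatAt (F lam) z : ℝ) = 0 := by
        refine Finset.sum_eq_zero fun lam hl => Finset.sum_eq_zero fun z hz => ?_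
        rw [ord_zero (hFd lam) (hnv lam hl z (by linarith [(hZ lam hl z hz).1])), Nat.cast_zero]
      rw [h1]
      positivity


end

end Pool.Agent.T9h27.D
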