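import Pool.Agent.N786.D.Psm
import Pool.Agent.N786.D.Cut

/-!
# Weighted sums over a monoid with unique factorisation (helper27)
-/

set_option autoImplicit false

open UniqueFactorizationMonoid MeasureTheory

namespace Pool.Agent.T9h27.D

open Pool.Agent.N786.D

section

variable {M : Type} [CommMonoidWithZero M] [NormalizationMonoid M] [UniqueFactorizationMonoid M]
  [Subsingleton Mˣ]

/-- the Euler product bound with general local factors -/
theorem euler_gen (g : M → ℝ) (f : M → ℕ → ℝ) (G : M → ℝ) (hg1 : g 1 ≤ 1) (hg0 : ∀ a, 0 ≤ g a)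
    (hf0 : ∀ p k, 0 ≤ f p k) (S : Finset M) (hS : ∀ p ∈ S, Prime p)
    (hgm : ∀ p ∈ S, ∀ k c, c ≠ 0 → ¬ p ∣ c → g (p ^ k * c) ≤ f p k * g c)
    (hG : ∀ p ∈ S, ∀ K : ℕ, ∑ k ∈ Finset.range K, f p k ≤ G p) :
    ∀ A : Finset M, (∀ a ∈ A, a ≠ 0 ∧ primeFactors a ⊆ S) → ∑ a ∈ A, g a ≤ ∏ p ∈ S, G p := by
  classical
  induction S using Finset.induction_on with
  | empty =>
    intro A hA
    have h1 : ∀ a ∈ A, a = 1 := by
      intro a ha
      obtain ⟨h2, h3⟩ := hA a ha
      rw [Finset.subset_empty, primeFactors_eq_empty_iff h2] at h3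
      exact associated_iff_eq.mp (associated_one_iff_isUnit.mpr h3)
    rw [Finset.prod_empty]
    calc ∑ a ∈ A, g a ≤ ∑ a ∈ ({1} : Finset M), g a :=
          Finset.sum_le_sum_of_subset_of_nonneg (fun a ha => by
            rw [Finset.mem_singleton]; exact h1 a ha) fun a _ _ => hg0 a
      _ ≤ 1 := by rw [Finset.sum_singleton]; exact hg1
  | insert p S hpS ih =>
    intro A hA
    have hp : Prime p := hS p (Finset.mem_insert_self _ _)
    have hdec : ∀ a : M, ∃ kc : ℕ × M, a ≠ 0 → a = p ^ kc.1 * kc.2 ∧ ¬ p ∣ kc.2 := by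
      intro a
      by_cases h : a = 0
      · exact ⟨(0, 0), fun h' => absurd h h'⟩
      · obtain ⟨v, d, hd, hd'⟩ := WfDvdMonoid.max_power_factor h hp.irreducible
        exact ⟨(v, d), fun _ => ⟨hd', hd⟩⟩
    choose d hd using hdec
    set A' : Finset M := A.image fun a => (d a).2 with hA'
    set K : ℕ := (A.sup fun a => (d a).1) + 1 with hK
    have hA2 : ∀ a ∈ A, (d a).2 ≠ 0 := by
      intro a ha h
      obtain ⟨h1, h2⟩ := hd a (hA a ha).1
      rw [h, mul_zero] at h1
      exact (hA a ha).1 h1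
    have hval : ∀ a ∈ A, g a ≤ f p (d a).1 * g (d a).2 := by
      intro a ha
      obtain ⟨h1, h2⟩ := hd a (hA a ha).1
      have h3 := hgm p (Finset.mem_insert_self _ _) (d a).1 (d a).2 (hA2 a ha) h2
      rwa [← h1] at h3
    have hinj : Set.InjOn d (A : Set M) := by
      intro a ha b hb hab
      rw [(hd a (hA a ha).1).1, (hd b (hA b hb).1).1, hab]
    calc ∑ a ∈ A, g a ≤ ∑ a ∈ A, (fun kc : ℕ × M => f p kc.1 * g kc.2) (d a) :=
          Finset.sum_le_sum hval
      _ = ∑ kc ∈ A.image d, f p kc.1 * g kc.2 :=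
          (Finset.sum_image (f := fun kc : ℕ × M => f p kc.1 * g kc.2) hinj).symm
      _ ≤ ∑ kc ∈ (Finset.range K) ×ˢ A', f p kc.1 * g kc.2 := by
          refine Finset.sum_le_sum_of_subset_of_nonneg ?_ fun kc _ _ =>
            mul_nonneg (hf0 _ _) (hg0 _)
          intro kc hkc
          obtain ⟨a, ha, rfl⟩ := Finset.mem_image.mp hkc
          rw [Finset.mem_product, Finset.mem_range]
          refine ⟨Nat.lt_succ_of_le (Finset.le_sup (f := fun a : M => (d a).1) ha), ?_⟩
          exact Finset.mem_image_of_mem (fun a => (d a).2) ha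
      _ = (∑ k ∈ Finset.range K, f p k) * ∑ a ∈ A', g a := by
          rw [Finset.sum_product, Finset.sum_mul_sum]
      _ ≤ G p * ∏ q ∈ S, G q := by
          have h1 := hG p (Finset.mem_insert_self _ _) K
          have h2 : ∑ a ∈ A', g a ≤ ∏ q ∈ S, G q := by
            refine ih (fun q hq => hS q (Finset.mem_insert_of_mem hq))
              (fun q hq => hgm q (Finset.mem_insert_of_mem hq))
              (fun q hq => hG q (Finset.mem_insert_of_mem hq)) A' ?_
            intro b hb
            obtain ⟨a, ha, rfl⟩ := Finset.mem_image.mp hb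
            refine ⟨hA2 a ha, fun q hq => ?_⟩
            obtain ⟨h1, h2⟩ := hd a (hA a ha).1
            have h3 : q ∈ primeFactors a := by
              refine nf_of (hA a ha).1 (nf_prime hq) ?_
              rw [h1]
              exact (nf_dvd hq).mul_left _
            have h4 := (hA a ha).2 h3
            rw [Finset.mem_insert] at h4
            rcases h4 with rfl | h4
            · exact absurd (nf_dvd hq) h2
            · exact h4
          have h3 : 0 ≤ ∑ a ∈ A', g a := Finset.sum_nonneg fun a _ => hg0 a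
          have h4 : 0 ≤ G p := by
            have := hG p (Finset.mem_insert_self _ _) 0
            simpa using this
          exact mul_le_mul h1 h2 h3 h4
      _ = _ := by rw [Finset.prod_insert hpS]

end

section

variable {M : Type} [CommMonoidWithZero M] [NormalizationMonoid M] [UniqueFactorizationMonoid M]
  [Subsingleton Mˣ] [Nontrivial M]

/-- a submultiplicative weight: `w (p ^ k c) ≤ v k w c`, with `∑ v (k + 1) / 2 ^ k ≤ G` -/
structure Wgt (w : M → ℝ) (v : ℕ → ℝ) (G : ℝ) : Prop where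
  one : w 1 ≤ 1
  nn : ∀ a, 0 ≤ w a
  v0 : v 0 ≤ 1
  vnn : ∀ k, 0 ≤ v k
  mul : ∀ p, Prime p → ∀ k c, c ≠ 0 → ¬ p ∣ c → w (p ^ k * c) ≤ v k * w c
  sum : ∀ K : ℕ, ∑ k ∈ Finset.range K, v (k + 1) * (1 / 2) ^ k ≤ G

omit [NormalizationMonoid M] [UniqueFactorizationMonoid M] [Subsingleton Mˣ] [Nontrivial M] in
lemma Wgt.G0 {w : M → ℝ} {v : ℕ → ℝ} {G : ℝ} (h : Wgt w v G) : 0 ≤ G := by
  simpa using h.sum 0

open Classical in
/-- the weighted mean square of the coefficients of `ζ(s) / ζ(s - iθ)` -/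
theorem sq_sum2 {L : M → ℝ} {B₀ : ℝ} (hL : LNorm L B₀) {w : M → ℝ} {v : ℕ → ℝ} {G : ℝ}
    (hw : Wgt w v G) {σ : ℝ} (h1 : 1 < σ) (h2 : σ ≤ 3 / 2)
    (θ : ℝ) (A : Finset M) (hA : ∀ a ∈ A, a ≠ 0) :
    ∑ a ∈ A, (∏ p ∈ primeFactors a, ‖1 - Complex.exp (((θ * L p : ℝ) : ℂ) * Complex.I)‖ ^ 2) *
      (w a * Real.exp (-(σ * L a))) ≤ (1 + |θ| / (σ - 1)) ^ (16 * G * B₀) := by
  set c : M → ℝ := fun p => ‖1 - Complex.exp (((θ * L p : ℝ) : ℂ) * Complex.I)‖ ^ 2 with hc
  set x : M → ℝ := fun a => Real.exp (-(σ * L a)) with hx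
  set S : Finset M := A.biUnion primeFactors with hS
  have hSp : ∀ p ∈ S, Prime p := by
    intro p hp
    rw [hS, Finset.mem_biUnion] at hp
    obtain ⟨a, -, ha⟩ := hp
    exact nf_prime ha
  have hc0 : ∀ p, 0 ≤ c p := fun p => sq_nonneg _
  have hx0 : ∀ a, 0 ≤ x a := fun a => (Real.exp_pos _).le
  have hxp2 : ∀ p, Prime p → x p ≤ 1 / 2 := fun p hp => by
    have h3 := hL.prime p hp
    have hl2 : 0 < Real.log 2 := Real.log_pos (by norm_num)
    have h4 : Real.exp (-(σ * L p)) ≤ Real.exp (-Real.log 2) :=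
      Real.exp_le_exp.mpr (by nlinarith)
    rw [Real.exp_neg (Real.log 2), Real.exp_log (by norm_num)] at h4
    simp only [hx]
    linarith
  have hxm : ∀ a b, a ≠ 0 → b ≠ 0 → x (a * b) = x a * x b := fun a b ha hb => by
    simp only [hx]
    rw [hL.mul a b ha hb, ← Real.exp_add]
    congr 1
    ring
  have hxpow : ∀ p, Prime p → ∀ k, x (p ^ k) = x p ^ k := by
    intro p hp k
    induction k with
    | zero =>
      rw [pow_zero, pow_zero]
      simp only [hx]
      rw [hL.one]
      simp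
    | succ k ih => rw [pow_succ, hxm _ _ (pow_ne_zero k hp.ne_zero) hp.ne_zero, ih, pow_succ]
  set g : M → ℝ := fun a => (∏ p ∈ primeFactors a, c p) * (w a * x a) with hg
  obtain ⟨f, hfz, hfs⟩ : ∃ f : M → ℕ → ℝ, (∀ p, f p 0 = 1) ∧
      ∀ p k, k ≠ 0 → f p k = (v k * c p) * x p ^ k :=
    ⟨fun p k => if k = 0 then 1 else (v k * c p) * x p ^ k, fun p => by simp,
      fun p k hk => by simp [hk]⟩
  have hG0 := hw.G0
  have key := euler_gen g f (fun p => 1 + G * (c p * x p)) (by
      simp only [hg]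
      rw [primeFactors_one, Finset.prod_empty, one_mul]
      simp only [hx]
      rw [hL.one, mul_zero, neg_zero, Real.exp_zero, mul_one]
      exact hw.one)
    (fun a => mul_nonneg (Finset.prod_nonneg fun p _ => hc0 p) (mul_nonneg (hw.nn a) (hx0 a)))
    (fun p k => by
      by_cases hk : k = 0
      · rw [hk, hfz]
        exact zero_le_one
      · rw [hfs p k hk]
        exact mul_nonneg (mul_nonneg (hw.vnn k) (hc0 p)) (pow_nonneg (hx0 p) k)) S hSp
    (fun p hp k b hb hpb => by
      have hpp := hSp p hp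
      by_cases hk : k = 0
      · subst hk
        rw [hfz, pow_zero, one_mul, one_mul]
      · obtain ⟨h3, h4⟩ := nf_pow_mul hpp hb hpb hk
        have h5 := hw.mul p hpp k b hb hpb
        rw [hfs p k hk]
        simp only [hg]
        rw [h3, Finset.prod_insert h4, hxm _ _ (pow_ne_zero k hpp.ne_zero) hb,
          hxpow p hpp k]
        obtain ⟨Pr, hPr⟩ : ∃ Pr : ℝ, Pr = ∏ q ∈ primeFactors b, c q := ⟨_, rfl⟩
        have h6 : 0 ≤ Pr := by rw [hPr]; exact Finset.prod_nonneg fun q _ => hc0 q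
        rw [← hPr]
        have h7 := hx0 p
        have h8 := hx0 b
        have h9 := hc0 p
        have h10 : 0 ≤ c p * Pr * (x p ^ k * x b) := by positivity
        have h11 := mul_le_mul_of_nonneg_left h5 h10
        linarith)
    (fun p hp K => by
      have hpp := hSp p hp
      have h3 := hxp2 p hpp
      have h4 := hx0 p
      have h5 := hc0 p
      rcases Nat.eq_zero_or_pos K with rfl | hK
      · rw [Finset.range_zero, Finset.sum_empty]
        positivity
      obtain ⟨K', rfl⟩ : ∃ K', K = K' + 1 := ⟨K - 1, by omega⟩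
      rw [Finset.sum_range_succ']
      have h6 : f p 0 = 1 := hfz p
      have h7 : ∑ k ∈ Finset.range K', f p (k + 1) ≤ (c p * x p) * G := by
        refine le_trans ?_ (mul_le_mul_of_nonneg_left (hw.sum K') (mul_nonneg h5 h4))
        rw [Finset.mul_sum]
        refine Finset.sum_le_sum fun k _ => ?_
        rw [hfs p (k + 1) (Nat.succ_ne_zero k), pow_succ]
        have h8 : x p ^ k ≤ (1 / 2) ^ k := pow_le_pow_left₀ h4 h3 k
        have h9 := hw.vnn (k + 1)
        have h10 : 0 ≤ c p * x p * v (k + 1) := by positivity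
        have h11 := mul_le_mul_of_nonneg_left h8 h10
        linarith
      rw [h6]
      linarith) A (fun a ha => ⟨hA a ha, Finset.subset_biUnion_of_mem _ ha⟩)
  refine key.trans ?_
  set wt : ℝ := min |θ| (1 / 2) with hwt
  have hw0 : 0 ≤ wt := le_min (abs_nonneg _) (by norm_num)
  have hs0 : 0 < σ - 1 := by linarith
  have h3 : ∏ p ∈ S, (1 + G * (c p * x p)) ≤
      Real.exp (∑ p ∈ S, 16 * G * ((1 - Real.exp (-(wt * L p))) * Real.exp (-(σ * L p)))) := by
    rw [Real.exp_sum]
    refine Finset.prod_le_prod (fun p hp => ?_) fun p hp => ?_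
    · have := hx0 p
      have := hc0 p
      positivity
    · have h9 : c p ≤ 16 * (1 - Real.exp (-(wt * L p))) := local_bound (hL.prime p (hSp p hp))
      have h10 : G * (c p * x p) ≤
          16 * G * ((1 - Real.exp (-(wt * L p))) * Real.exp (-(σ * L p))) := by
        have := hx0 p
        calc G * (c p * x p) ≤ G * ((16 * (1 - Real.exp (-(wt * L p)))) * x p) := by gcongr
          _ = _ := by ring
      have h11 := Real.add_one_le_exp
        (16 * G * ((1 - Real.exp (-(wt * L p))) * Real.exp (-(σ * L p))))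
      linarith
  refine h3.trans ?_
  rw [← Finset.mul_sum]
  have hLS : ∀ p ∈ S, 0 ≤ L p := fun p hp => by
    have h4 := hL.prime p (hSp p hp)
    have hl2 : 0 < Real.log 2 := Real.log_pos (by norm_num)
    linarith
  have h4 := psum_int S L hLS h1 hw0 (B₀ := B₀) (fun u hu0 hu1 => by
    refine hL.sum S hSp (σ + u) (by linarith) ?_
    have : wt ≤ 1 / 2 := min_le_right _ _
    linarith)
  have hb : 0 < 1 + |θ| / (σ - 1) := by positivity
  rw [Real.rpow_def_of_pos hb]
  refine Real.exp_le_exp.mpr ?_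
  have h5 : Real.log (1 + wt / (σ - 1)) ≤ Real.log (1 + |θ| / (σ - 1)) := by
    refine Real.log_le_log (by positivity) ?_
    have : wt ≤ |θ| := min_le_left _ _
    gcongr
  have h6 := mul_le_mul_of_nonneg_left h5 hL.B0
  have h7 : 16 * G * ∑ p ∈ S, (1 - Real.exp (-(wt * L p))) * Real.exp (-(σ * L p)) ≤
      16 * G * (B₀ * Real.log (1 + |θ| / (σ - 1))) :=
    mul_le_mul_of_nonneg_left (h4.trans h6) (by positivity)
  linarith

end

end Pool.Agent.T9h27.D
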