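import Pool.Agent.N786.D.Cnv
import Pool.Agent.T9h27.D.Wt

/-!
# Convolutions with the Moebius function: the weighted mean square (helper27, after helper786)
-/

set_option autoImplicit false
set_option linter.unusedSectionVars false

open UniqueFactorizationMonoid MeasureTheory

namespace Pool.Agent.T9h27.D

open Pool.Agent.N786.D

section

variable {M : Type} [CommMonoidWithZero M] [NormalizationMonoid M] [UniqueFactorizationMonoid M]
  [Subsingleton Mˣ] [Nontrivial M]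

open Classical in
/-- the first step: a twist on the squarefree divisor only -/
lemma step_oneW {L : M → ℝ} {B₀ : ℝ} (hL : LNorm L B₀) {f₂ g₂ : ℝ → ℂ} (h₂ : Fr f₂ g₂) {k : ℕ}
    {κ : ℝ} (hk : κ ≤ k) {σ R : ℝ} (hR : 0 < R) (h1 : 1 < σ)
    (h3 : 1 / R ≤ σ - 1) (τ : ℝ) (A : Finset M) (E : M → ℝ) (hE0 : ∀ a, 0 ≤ E a)
    (hE : ∀ θ : ℝ, ∑ a ∈ A, (∏ p ∈ primeFactors a,
      ‖1 - Complex.exp (((θ * L p : ℝ) : ℂ) * Complex.I)‖ ^ 2) * E a ≤
      (1 + |θ| / (σ - 1)) ^ κ) :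
    ∑ a ∈ A, ‖∑ T ∈ (primeFactors a).powerset, (-1 : ℂ) ^ T.card * (f₂ (L (pd T) / R) *
      Complex.exp (((τ * L (pd T) : ℝ) : ℂ) * Complex.I))‖ ^ 2 * E a ≤
    (∫ u, ‖g₂ u‖) * ((7 : ℝ) ^ k * (∫ u, (1 + |u|) ^ k * ‖g₂ u‖)) * (1 + R * |τ|) ^ k := by
  obtain ⟨hc, hi, hf⟩ := h₂
  have hi0 : Integrable fun u => ‖g₂ u‖ := by
    refine (hi 0).congr (Filter.Eventually.of_forall fun u => ?_)
    simp
  have hs0 : 0 < σ - 1 := by linarith
  -- the representation
  set h : M → ℝ → ℂ := fun a u => ∏ p ∈ primeFactors a,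
    (1 - Complex.exp ((((τ + 2 * Real.pi * u / R) * L p : ℝ) : ℂ) * Complex.I)) with hh
  have hrep : ∀ a : M, ∑ T ∈ (primeFactors a).powerset, (-1 : ℂ) ^ T.card * (f₂ (L (pd T) / R) *
      Complex.exp (((τ * L (pd T) : ℝ) : ℂ) * Complex.I)) = ∫ u, g₂ u * h a u := by
    intro a
    have e1 : ∀ u : ℝ, g₂ u * h a u = ∑ T ∈ (primeFactors a).powerset, (-1 : ℂ) ^ T.card *
        Complex.exp (((τ * L (pd T) : ℝ) : ℂ) * Complex.I) *
        (g₂ u * Complex.exp (((2 * Real.pi * u * (L (pd T) / R) : ℝ) : ℂ) * Complex.I)) := by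
      intro u
      rw [hh]
      simp only
      rw [← bc_exp hL, Finset.mul_sum]
      refine Finset.sum_congr rfl fun T _ => ?_
      have e2 : Complex.exp ((((τ + 2 * Real.pi * u / R) * L (pd T) : ℝ) : ℂ) * Complex.I) =
          Complex.exp (((τ * L (pd T) : ℝ) : ℂ) * Complex.I) *
          Complex.exp (((2 * Real.pi * u * (L (pd T) / R) : ℝ) : ℂ) * Complex.I) := by
        rw [← Complex.exp_add]
        congr 1
        push_cast
        ring
      rw [e2]
      ring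
    simp_rw [e1]
    rw [integral_finsetSum]
    · refine Finset.sum_congr rfl fun T _ => ?_
      rw [integral_const_mul, ← hf]
      ring
    · intro T _
      refine Integrable.const_mul ?_ _
      refine (integrable_norm_iff ?_).mp ?_
      · exact (hc.mul (by fun_prop)).aestronglyMeasurable
      · refine hi0.congr (Filter.Eventually.of_forall fun u => ?_)
        simp only
        rw [norm_mul, Complex.norm_exp_ofReal_mul_I, mul_one]
  have hcont : ∀ a, Continuous (h a) := fun a => by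
    rw [hh]
    refine continuous_finsetProd _ fun p _ => ?_
    fun_prop
  have hbd : ∀ a u, ‖h a u‖ ≤ 2 ^ (primeFactors a).card := fun a u => by
    rw [hh]
    simp only
    rw [norm_prod, ← Finset.prod_const]
    refine Finset.prod_le_prod (fun _ _ => norm_nonneg _) fun p _ => ?_
    refine (norm_sub_le _ _).trans ?_
    rw [norm_one, Complex.norm_exp_ofReal_mul_I]
    norm_num
  have i2 : ∀ a, Integrable fun u => ‖g₂ u‖ * ‖h a u‖ ^ 2 := fun a =>
    hi0.mul_bdd (c := (2 ^ (primeFactors a).card) ^ 2) ((hcont a).norm.pow 2).aestronglyMeasurable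
      (Filter.Eventually.of_forall fun u => by
        rw [Real.norm_of_nonneg (by positivity)]
        exact pow_le_pow_left₀ (norm_nonneg _) (hbd a u) 2)
  have hcs : ∀ a ∈ A, ‖∑ T ∈ (primeFactors a).powerset, (-1 : ℂ) ^ T.card * (f₂ (L (pd T) / R) *
      Complex.exp (((τ * L (pd T) : ℝ) : ℂ) * Complex.I))‖ ^ 2 * E a ≤
      (∫ u, ‖g₂ u‖) * ∫ u, ‖g₂ u‖ * (‖h a u‖ ^ 2 * E a) := by
    intro a _
    rw [hrep a]
    have e := cs_int hc hi0 (hcont a) (hbd a)
    have e2 : ∫ u, ‖g₂ u‖ * (‖h a u‖ ^ 2 * E a) =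
        (∫ u, ‖g₂ u‖ * ‖h a u‖ ^ 2) * E a := by
      rw [← integral_mul_const]
      refine integral_congr_ae (Filter.Eventually.of_forall fun u => ?_)
      simp only
      ring
    rw [e2, ← mul_assoc]
    exact mul_le_mul_of_nonneg_right e (hE0 _)
  refine (Finset.sum_le_sum hcs).trans ?_
  rw [← Finset.mul_sum, mul_assoc]
  refine mul_le_mul_of_nonneg_left ?_ (integral_nonneg fun _ => norm_nonneg _)
  have i3 : ∀ a ∈ A, Integrable fun u => ‖g₂ u‖ * (‖h a u‖ ^ 2 * E a) := by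
    intro a _
    refine ((i2 a).mul_const (E a)).congr
      (Filter.Eventually.of_forall fun u => ?_)
    simp only
    ring
  rw [← integral_finsetSum _ i3]
  have e4 : (7 : ℝ) ^ k * (∫ u, (1 + |u|) ^ k * ‖g₂ u‖) * (1 + R * |τ|) ^ k =
      ∫ u, ((1 + |u|) ^ k * ‖g₂ u‖) * ((7 : ℝ) ^ k * (1 + R * |τ|) ^ k) := by
    rw [integral_mul_const]
    ring
  rw [e4]
  refine integral_mono (integrable_finsetSum _ i3) ((hi k).mul_const _) fun u => ?_
  simp only
  rw [← Finset.mul_sum]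
  have e5 : ∑ a ∈ A, ‖h a u‖ ^ 2 * E a ≤
      (1 + |τ + 2 * Real.pi * u / R| / (σ - 1)) ^ κ := by
    refine le_trans (le_of_eq ?_) (hE (τ + 2 * Real.pi * u / R))
    refine Finset.sum_congr rfl fun a _ => ?_
    rw [hh]
    simp only
    rw [norm_prod, Finset.prod_pow]
  have e6 : (1 + |τ + 2 * Real.pi * u / R| / (σ - 1)) ^ κ ≤
      (7 : ℝ) ^ k * (1 + |u|) ^ k * (1 + R * |τ|) ^ k := by
    have b1 : 1 ≤ 1 + |τ + 2 * Real.pi * u / R| / (σ - 1) := by
      have : 0 ≤ |τ + 2 * Real.pi * u / R| / (σ - 1) := by positivity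
      linarith
    refine (Real.rpow_le_rpow_of_exponent_le b1 hk).trans ?_
    rw [Real.rpow_natCast, ← mul_pow, ← mul_pow]
    refine pow_le_pow_left₀ (by linarith) ?_ k
    have b2 : |τ + 2 * Real.pi * u / R| / (σ - 1) ≤ R * |τ + 2 * Real.pi * u / R| := by
      rw [div_le_iff₀ hs0]
      have b3 : 1 ≤ R * (σ - 1) := by
        rw [div_le_iff₀ hR] at h3
        linarith
      have := abs_nonneg (τ + 2 * Real.pi * u / R)
      nlinarith
    have b4 : R * |τ + 2 * Real.pi * u / R| ≤ R * |τ| + 6.4 * |u| := by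
      have b5 : |τ + 2 * Real.pi * u / R| ≤ |τ| + |2 * Real.pi * u / R| := abs_add_le _ _
      have b6 : |2 * Real.pi * u / R| = 2 * Real.pi * |u| / R := by
        rw [abs_div, abs_mul, abs_of_pos hR, abs_of_pos (by positivity : 0 < 2 * Real.pi)]
      rw [b6] at b5
      have b7 : R * (|τ| + 2 * Real.pi * |u| / R) = R * |τ| + 2 * Real.pi * |u| := by
        field_simp
      have b8 := mul_le_mul_of_nonneg_left b5 hR.le
      rw [b7] at b8
      have b9 : 2 * Real.pi * |u| ≤ 6.4 * |u| := by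
        have := Real.pi_lt_d2
        have := abs_nonneg u
        nlinarith
      linarith
    have c1 := abs_nonneg u
    have c2 : 0 ≤ R * |τ| := by positivity
    nlinarith [mul_nonneg c1 c2]
  have e7 : ‖g₂ u‖ * ∑ a ∈ A, ‖h a u‖ ^ 2 * E a ≤
      ‖g₂ u‖ * ((7 : ℝ) ^ k * (1 + |u|) ^ k * (1 + R * |τ|) ^ k) :=
    mul_le_mul_of_nonneg_left (e5.trans e6) (norm_nonneg _)
  refine e7.trans (le_of_eq ?_)
  ring

open Classical in
/-- **The mean square of the coefficients of the mollified sums** -/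
theorem bc_sqW {L : M → ℝ} {B₀ : ℝ} (hL : LNorm L B₀) {f₁ g₁ f₂ g₂ : ℝ → ℂ} (h₁ : Fr f₁ g₁)
    (h₂ : Fr f₂ g₂) {k : ℕ} {κ : ℝ} (hk : κ ≤ k) : ∃ C : ℝ, 0 ≤ C ∧
    ∀ (σ R : ℝ), 0 < R → 1 < σ → 1 / R ≤ σ - 1 → ∀ (τ : ℝ) (A : Finset M) (E : M → ℝ),
      (∀ a, 0 ≤ E a) → (∀ θ : ℝ, ∑ a ∈ A, (∏ p ∈ primeFactors a,
        ‖1 - Complex.exp (((θ * L p : ℝ) : ℂ) * Complex.I)‖ ^ 2) * E a ≤
        (1 + |θ| / (σ - 1)) ^ κ) →
      ∑ a ∈ A, ‖bc L (fun y => f₂ (y / R) * Complex.exp (((τ * y : ℝ) : ℂ) * Complex.I))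
        (fun y => f₁ (y / R)) a‖ ^ 2 * E a ≤ C * (1 + R * |τ|) ^ k := by
  obtain ⟨hc, hi, hf⟩ := h₁
  have hi0 : Integrable fun u => ‖g₁ u‖ := by
    refine (hi 0).congr (Filter.Eventually.of_forall fun u => ?_)
    simp
  obtain ⟨C₂, hC₂⟩ : ∃ C₂ : ℝ, C₂ = (∫ u, ‖g₂ u‖) * ((7 : ℝ) ^ k *
    (∫ u, (1 + |u|) ^ k * ‖g₂ u‖)) := ⟨_, rfl⟩
  have hC₂0 : 0 ≤ C₂ := by
    rw [hC₂]
    have a1 : 0 ≤ ∫ u, ‖g₂ u‖ := integral_nonneg fun _ => norm_nonneg _
    have a2 : 0 ≤ ∫ u, (1 + |u|) ^ k * ‖g₂ u‖ := integral_nonneg fun _ => by positivity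
    positivity
  have a3 : 0 ≤ ∫ u, ‖g₁ u‖ := integral_nonneg fun _ => norm_nonneg _
  have a4 : 0 ≤ ∫ u, (1 + |u|) ^ k * ‖g₁ u‖ := integral_nonneg fun _ => by positivity
  refine ⟨(∫ u, ‖g₁ u‖) * ((7 : ℝ) ^ k * (∫ u, (1 + |u|) ^ k * ‖g₁ u‖)) * C₂, by positivity, ?_⟩
  intro σ R hR h1 h3 τ A E hE0 hE
  set h : M → ℝ → ℂ := fun a u => Complex.exp (((2 * Real.pi * u * (L a / R) : ℝ) : ℂ) *
    Complex.I) * ∑ T ∈ (primeFactors a).powerset, (-1 : ℂ) ^ T.card * (f₂ (L (pd T) / R) *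
      Complex.exp ((((τ - 2 * Real.pi * u / R) * L (pd T) : ℝ) : ℂ) * Complex.I)) with hh
  have hrep : ∀ a : M, bc L (fun y => f₂ (y / R) *
      Complex.exp (((τ * y : ℝ) : ℂ) * Complex.I)) (fun y => f₁ (y / R)) a =
      ∫ u, g₁ u * h a u := by
    intro a
    have e1 : ∀ u : ℝ, g₁ u * h a u = ∑ T ∈ (primeFactors a).powerset, (-1 : ℂ) ^ T.card *
        (f₂ (L (pd T) / R) * Complex.exp (((τ * L (pd T) : ℝ) : ℂ) * Complex.I)) *
        (g₁ u * Complex.exp (((2 * Real.pi * u * ((L a - L (pd T)) / R) : ℝ) : ℂ) *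
          Complex.I)) := by
      intro u
      rw [hh]
      simp only
      rw [Finset.mul_sum, Finset.mul_sum]
      refine Finset.sum_congr rfl fun T _ => ?_
      have e2 : Complex.exp (((τ * L (pd T) : ℝ) : ℂ) * Complex.I) *
          Complex.exp (((2 * Real.pi * u * ((L a - L (pd T)) / R) : ℝ) : ℂ) * Complex.I) =
          Complex.exp (((2 * Real.pi * u * (L a / R) : ℝ) : ℂ) * Complex.I) *
          Complex.exp ((((τ - 2 * Real.pi * u / R) * L (pd T) : ℝ) : ℂ) * Complex.I) := by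
        rw [← Complex.exp_add, ← Complex.exp_add]
        congr 1
        push_cast
        ring
      calc g₁ u * (Complex.exp (((2 * Real.pi * u * (L a / R) : ℝ) : ℂ) * Complex.I) *
            ((-1 : ℂ) ^ T.card * (f₂ (L (pd T) / R) *
            Complex.exp ((((τ - 2 * Real.pi * u / R) * L (pd T) : ℝ) : ℂ) * Complex.I)))) =
          g₁ u * ((-1 : ℂ) ^ T.card * f₂ (L (pd T) / R)) *
          (Complex.exp (((2 * Real.pi * u * (L a / R) : ℝ) : ℂ) * Complex.I) *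
          Complex.exp ((((τ - 2 * Real.pi * u / R) * L (pd T) : ℝ) : ℂ) * Complex.I)) := by ring
        _ = _ := by rw [← e2]; ring
    simp_rw [e1]
    rw [integral_finsetSum]
    · unfold bc
      refine Finset.sum_congr rfl fun T _ => ?_
      rw [integral_const_mul, ← hf]
    · intro T _
      refine Integrable.const_mul ?_ _
      refine (integrable_norm_iff ?_).mp ?_
      · exact (hc.mul (by fun_prop)).aestronglyMeasurable
      · refine hi0.congr (Filter.Eventually.of_forall fun u => ?_)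
        simp only
        rw [norm_mul, Complex.norm_exp_ofReal_mul_I, mul_one]
  have hcont : ∀ a, Continuous (h a) := fun a => by
    rw [hh]
    fun_prop
  have hbd : ∀ a, ∀ u, ‖h a u‖ ≤ ∑ T ∈ (primeFactors a).powerset, ‖f₂ (L (pd T) / R)‖ :=
    fun a u => by
    rw [hh]
    simp only
    rw [norm_mul, Complex.norm_exp_ofReal_mul_I, one_mul]
    refine (norm_sum_le _ _).trans (Finset.sum_le_sum fun T _ => ?_)
    rw [norm_mul, norm_mul, Complex.norm_exp_ofReal_mul_I, mul_one, norm_pow, norm_neg, norm_one,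
      one_pow, one_mul]
  have i2 : ∀ a, Integrable fun u => ‖g₁ u‖ * ‖h a u‖ ^ 2 := fun a =>
    hi0.mul_bdd (c := (∑ T ∈ (primeFactors a).powerset, ‖f₂ (L (pd T) / R)‖) ^ 2)
      ((hcont a).norm.pow 2).aestronglyMeasurable
      (Filter.Eventually.of_forall fun u => by
        rw [Real.norm_of_nonneg (by positivity)]
        exact pow_le_pow_left₀ (norm_nonneg _) (hbd a u) 2)
  have hcs : ∀ a ∈ A, ‖bc L (fun y => f₂ (y / R) *
      Complex.exp (((τ * y : ℝ) : ℂ) * Complex.I)) (fun y => f₁ (y / R)) a‖ ^ 2 *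
      E a ≤
      (∫ u, ‖g₁ u‖) * ∫ u, ‖g₁ u‖ * (‖h a u‖ ^ 2 * E a) := by
    intro a _
    rw [hrep a]
    have e := cs_int hc hi0 (hcont a) (hbd a)
    have e2 : ∫ u, ‖g₁ u‖ * (‖h a u‖ ^ 2 * E a) =
        (∫ u, ‖g₁ u‖ * ‖h a u‖ ^ 2) * E a := by
      rw [← integral_mul_const]
      refine integral_congr_ae (Filter.Eventually.of_forall fun u => ?_)
      simp only
      ring
    rw [e2, ← mul_assoc]
    exact mul_le_mul_of_nonneg_right e (hE0 _)
  refine (Finset.sum_le_sum hcs).trans ?_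
  rw [← Finset.mul_sum, mul_assoc, mul_assoc]
  refine mul_le_mul_of_nonneg_left ?_ a3
  have i3 : ∀ a ∈ A, Integrable fun u => ‖g₁ u‖ * (‖h a u‖ ^ 2 * E a) := by
    intro a _
    refine ((i2 a).mul_const (E a)).congr
      (Filter.Eventually.of_forall fun u => ?_)
    simp only
    ring
  rw [← integral_finsetSum _ i3]
  have e4 : (7 : ℝ) ^ k * (∫ u, (1 + |u|) ^ k * ‖g₁ u‖) * (C₂ * (1 + R * |τ|) ^ k) =
      ∫ u, ((1 + |u|) ^ k * ‖g₁ u‖) * ((7 : ℝ) ^ k * (C₂ * (1 + R * |τ|) ^ k)) := by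
    rw [integral_mul_const]
    ring
  rw [e4]
  refine integral_mono (integrable_finsetSum _ i3) ((hi k).mul_const _) fun u => ?_
  simp only
  rw [← Finset.mul_sum]
  have e5 : ∑ a ∈ A, ‖h a u‖ ^ 2 * E a ≤
      C₂ * (1 + R * |τ - 2 * Real.pi * u / R|) ^ k := by
    rw [hC₂]
    refine le_trans (le_of_eq ?_) (step_oneW hL h₂ hk hR h1 h3 (τ - 2 * Real.pi * u / R) A E hE0 hE)
    refine Finset.sum_congr rfl fun a _ => ?_
    rw [hh]
    simp only
    rw [norm_mul, Complex.norm_exp_ofReal_mul_I, one_mul]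
  have e6 : (1 + R * |τ - 2 * Real.pi * u / R|) ^ k ≤
      (7 : ℝ) ^ k * (1 + |u|) ^ k * (1 + R * |τ|) ^ k := by
    rw [← mul_pow, ← mul_pow]
    refine pow_le_pow_left₀ (by positivity) ?_ k
    have b4 : R * |τ - 2 * Real.pi * u / R| ≤ R * |τ| + 6.4 * |u| := by
      have b5 : |τ - 2 * Real.pi * u / R| ≤ |τ| + |2 * Real.pi * u / R| := abs_sub _ _
      have b6 : |2 * Real.pi * u / R| = 2 * Real.pi * |u| / R := by
        rw [abs_div, abs_mul, abs_of_pos hR, abs_of_pos (by positivity : 0 < 2 * Real.pi)]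
      rw [b6] at b5
      have b7 : R * (|τ| + 2 * Real.pi * |u| / R) = R * |τ| + 2 * Real.pi * |u| := by
        field_simp
      have b8 := mul_le_mul_of_nonneg_left b5 hR.le
      rw [b7] at b8
      have b9 : 2 * Real.pi * |u| ≤ 6.4 * |u| := by
        have := Real.pi_lt_d2
        have := abs_nonneg u
        nlinarith
      linarith
    have c1 := abs_nonneg u
    have c2 : 0 ≤ R * |τ| := by positivity
    nlinarith [mul_nonneg c1 c2]
  have e7 : ‖g₁ u‖ * ∑ a ∈ A, ‖h a u‖ ^ 2 * E a ≤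
      ‖g₁ u‖ * (C₂ * ((7 : ℝ) ^ k * (1 + |u|) ^ k * (1 + R * |τ|) ^ k)) :=
    mul_le_mul_of_nonneg_left (e5.trans (mul_le_mul_of_nonneg_left e6 hC₂0)) (norm_nonneg _)
  refine e7.trans (le_of_eq ?_)
  ring

end

end Pool.Agent.T9h27.D
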