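import Pool.Agent.N786.D.Jen2

/-!
# A conformal map of the disc onto a narrow region around a half strip (helper27)
-/

set_option autoImplicit false

namespace Pool.Agent.T9h27.D

open MeasureTheory Set Filter Topology Complex Metric
open Pool.Agent.R399.TW (pt pt_re pt_im pt_cont)

/-- Jensen's inequality for a finite set of points in a disc -/
lemma jensen_an {g : ℂ → ℂ} {c : ℂ} {ρ : ℝ} (hρ : 0 < ρ)
    (hgb : AnalyticOnNhd ℂ g (closedBall c |ρ|))
    (hc : g c ≠ 0) {Z : Finset ℂ} (hZ : ∀ z ∈ Z, ‖c - z‖ ≤ ρ) :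
    ∑ z ∈ Z, (analyticOrderNatAt g z : ℝ) * Real.log (ρ * ‖c - z‖⁻¹) ≤
      Real.circleAverage (fun z => Real.log ‖g z‖) c ρ - Real.log ‖g c‖ := by
  rw [hgb.circleAverage_log_norm hρ.ne' hc, add_sub_cancel_right]
  have hfin := (MeromorphicOn.divisor g (closedBall c |ρ|)).finiteSupport
    (isCompact_closedBall c |ρ|)
  have hone : ∀ z ∈ closedBall c |ρ|, (MeromorphicOn.divisor g (closedBall c |ρ|) z : ℝ) =
      analyticOrderNatAt g z := by
    intro z hz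
    rw [MeromorphicOn.AnalyticOnNhd.divisor_apply hgb hz]
    unfold analyticOrderNatAt
    cases h : analyticOrderAt g z with
    | top => simp
    | coe n => simp
  have hnn : ∀ z, 0 ≤ (MeromorphicOn.divisor g (closedBall c |ρ|) z : ℝ) *
      Real.log (ρ * ‖c - z‖⁻¹) := by
    intro z
    by_cases hz : z ∈ closedBall c |ρ|
    · rw [hone z hz]
      refine mul_nonneg (Nat.cast_nonneg _) ?_
      rw [mem_closedBall, dist_comm, dist_eq_norm, abs_of_pos hρ] at hz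
      rcases (norm_nonneg (c - z)).eq_or_lt with h | h
      · rw [← h]; simp
      · refine Real.log_nonneg ?_
        rw [← div_eq_mul_inv, le_div_iff₀ h]
        linarith
    · rw [Function.locallyFinsuppWithin.apply_eq_zero_of_notMem _ hz]
      simp
  have hsup : (Function.support fun z => (MeromorphicOn.divisor g (closedBall c |ρ|) z : ℝ) *
      Real.log (ρ * ‖c - z‖⁻¹)) ⊆ (hfin.toFinset ∪ Z : Finset ℂ) := by
    intro z hz
    rw [Function.mem_support] at hz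
    simp only [Finset.coe_union, Set.mem_union]
    left
    rw [Finset.mem_coe, Set.Finite.mem_toFinset, Function.mem_support]
    intro h
    rw [h] at hz
    simp at hz
  rw [finsum_eq_sum_of_support_subset _ hsup]
  refine le_trans (Finset.sum_le_sum fun z hz => ?_)
    (Finset.sum_le_sum_of_subset_of_nonneg Finset.subset_union_right fun z _ _ => hnn z)
  rw [hone z]
  rw [mem_closedBall, dist_comm, dist_eq_norm, abs_of_pos hρ]
  exact hZ z hz

/-- orders of a composition -/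
lemma ord_comp {F Φ : ℂ → ℂ} (hF : Differentiable ℂ F) {w : ℂ} (hΦ : AnalyticAt ℂ Φ w)
    (hnt : analyticOrderAt (fun z => F (Φ z)) w ≠ ⊤) :
    analyticOrderNatAt F (Φ w) ≤ analyticOrderNatAt (fun z => F (Φ z)) w := by
  have h1 : analyticOrderAt (F ∘ Φ) w = analyticOrderAt F (Φ w) *
      analyticOrderAt (fun z => Φ z - Φ w) w := (hF.analyticAt _).analyticOrderAt_comp hΦ
  have h2 : (1 : ℕ∞) ≤ analyticOrderAt (fun z => Φ z - Φ w) w := by
    rw [Order.one_le_iff_ne_zero]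
    have h3 : AnalyticAt ℂ (fun z => Φ z - Φ w) w := hΦ.sub analyticAt_const
    rw [h3.analyticOrderAt_ne_zero]
    simp
  have h3 : analyticOrderAt F (Φ w) ≤ analyticOrderAt (F ∘ Φ) w := by
    rw [h1]
    exact le_mul_of_one_le_right (zero_le) h2
  exact ENat.toNat_le_toNat h3 hnt

/-- Jensen's inequality for `1 - (f ∘ Φ) ^ 2` -/
lemma jensen_phi {f Φ : ℂ → ℂ} (hf : Differentiable ℂ f) {ρ ω : ℝ} (hρ : 0 < ρ)
    (hΦ : AnalyticOnNhd ℂ Φ (closedBall 0 |ρ|))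
    (hc : ‖f (Φ 0)‖ ^ 2 ≤ 1 / 2) {Z : Finset ℂ} (hω0 : 0 ≤ ω)
    (hZ : ∀ z ∈ Z, ∃ w : ℂ, Φ w = z ∧ ‖w‖ ≤ ρ ∧ (w ≠ 0 → ω ≤ Real.log (ρ * ‖w‖⁻¹))) :
    ∑ z ∈ Z, (analyticOrderNatAt (fun s => 1 - f s ^ 2) z : ℝ) * ω ≤
      Real.circleAverage (fun z => ‖f (Φ z)‖ ^ 2) 0 ρ + 2 * ‖f (Φ 0)‖ ^ 2 := by
  classical
  set F : ℂ → ℂ := fun s => 1 - f s ^ 2 with hF
  have hFd : Differentiable ℂ F := (differentiable_const _).sub (hf.pow 2)
  set h : ℂ → ℂ := fun w => F (Φ w) with hh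
  have hha : AnalyticOnNhd ℂ h (closedBall 0 |ρ|) := fun w hw =>
    (hFd.analyticAt _).comp (hΦ w hw)
  have hlow : 1 - ‖f (Φ 0)‖ ^ 2 ≤ ‖h 0‖ := by
    have h1 := norm_sub_norm_le (1 : ℂ) (f (Φ 0) ^ 2)
    rw [norm_one, norm_pow] at h1
    exact h1
  have hc0 : h 0 ≠ 0 := by
    intro h0
    rw [h0, norm_zero] at hlow
    linarith
  have h0mem : (0 : ℂ) ∈ closedBall (0 : ℂ) |ρ| := by simp
  have hnt : ∀ w ∈ closedBall (0 : ℂ) |ρ|, analyticOrderAt h w ≠ ⊤ := by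
    intro w hw
    refine hha.analyticOrderAt_ne_top_of_isPreconnected
      (convex_closedBall (0 : ℂ) |ρ|).isPreconnected h0mem hw ?_
    rw [(hha 0 h0mem).analyticOrderAt_eq_zero.mpr hc0]
    exact ENat.zero_ne_top
  have hZ' : ∀ z : ℂ, ∃ w : ℂ, z ∈ Z → (Φ w = z ∧ ‖w‖ ≤ ρ ∧
      (w ≠ 0 → ω ≤ Real.log (ρ * ‖w‖⁻¹))) := by
    intro z
    by_cases hz : z ∈ Z
    · obtain ⟨w, hw⟩ := hZ z hz
      exact ⟨w, fun _ => hw⟩
    · exact ⟨0, fun h => absurd h hz⟩
  choose wz hwz using hZ'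
  have hinj : ∀ x ∈ Z, ∀ y ∈ Z, wz x = wz y → x = y := by
    intro x hx y hy hxy
    rw [← (hwz x hx).1, ← (hwz y hy).1, hxy]
  have hball : ∀ z ∈ Z, wz z ∈ closedBall (0 : ℂ) |ρ| := by
    intro z hz
    rw [mem_closedBall, dist_zero_right, abs_of_pos hρ]
    exact (hwz z hz).2.1
  have h1 := jensen_an hρ hha hc0 (Z := Z.image wz) (by
    intro w hw
    obtain ⟨z, hz, rfl⟩ := Finset.mem_image.mp hw
    rw [zero_sub, norm_neg]
    exact (hwz z hz).2.1)
  rw [Finset.sum_image hinj] at h1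
  have h2 : ∑ z ∈ Z, (analyticOrderNatAt F z : ℝ) * ω ≤
      ∑ z ∈ Z, (analyticOrderNatAt h (wz z) : ℝ) * Real.log (ρ * ‖0 - wz z‖⁻¹) := by
    refine Finset.sum_le_sum fun z hz => ?_
    have h3 := ord_comp hFd (hΦ _ (hball z hz)) (hnt _ (hball z hz))
    rw [(hwz z hz).1] at h3
    have h3' : (analyticOrderNatAt F z : ℝ) ≤ (analyticOrderNatAt h (wz z) : ℝ) := by
      exact_mod_cast h3
    rw [zero_sub, norm_neg]
    by_cases hw0 : wz z = 0
    · have h4 : analyticOrderNatAt h (wz z) = 0 := by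
        rw [hw0]
        unfold analyticOrderNatAt
        rw [(hha 0 h0mem).analyticOrderAt_eq_zero.mpr hc0]
        rfl
      rw [h4] at h3' ⊢
      have h5 : (analyticOrderNatAt F z : ℝ) = 0 := le_antisymm (by simpa using h3')
        (Nat.cast_nonneg _)
      rw [h5]
      simp
    · exact mul_le_mul h3' ((hwz z hz).2.2 hw0) hω0 (Nat.cast_nonneg _)
  have hcf : ContinuousOn (fun z => ‖f (Φ z)‖ ^ 2) (sphere 0 |ρ|) := by
    refine ((hf.continuous.comp_continuousOn ?_).norm).pow 2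
    exact fun z hz => (hΦ z (sphere_subset_closedBall hz)).continuousAt.continuousWithinAt
  have h4 : Real.circleAverage (fun z => Real.log ‖h z‖) 0 ρ ≤
      Real.circleAverage (fun z => ‖f (Φ z)‖ ^ 2) 0 ρ := by
    refine Real.circleAverage_mono ?_ ?_ ?_
    · have hm : MeromorphicOn h (sphere 0 |ρ|) := fun z hz =>
        (hha z (sphere_subset_closedBall hz)).meromorphicAt
      exact hm.circleIntegrable_log_norm
    · exact ContinuousOn.circleIntegrable' hcf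
    · intro z _
      rcases eq_or_ne (h z) 0 with h0 | h0
      · rw [h0, norm_zero, Real.log_zero]; positivity
      · have h5 := Real.log_le_sub_one_of_pos (norm_pos_iff.mpr h0)
        have h6 : ‖h z‖ ≤ 1 + ‖f (Φ z)‖ ^ 2 := by
          have := norm_sub_le (1 : ℂ) (f (Φ z) ^ 2)
          rw [norm_one, norm_pow] at this
          exact this
        linarith
  have h7 : -Real.log ‖h 0‖ ≤ 2 * ‖f (Φ 0)‖ ^ 2 := by
    have hpos : 0 < ‖h 0‖ := norm_pos_iff.mpr hc0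
    have h8 := Real.one_sub_inv_le_log_of_pos hpos
    have h9 : ‖h 0‖⁻¹ ≤ 1 + 2 * ‖f (Φ 0)‖ ^ 2 := by
      rw [inv_le_comm₀ hpos (by positivity)]
      refine le_trans ?_ hlow
      rw [inv_le_iff_one_le_mul₀ (by positivity)]
      nlinarith [sq_nonneg ‖f (Φ 0)‖]
    linarith
  linarith

/-- the Moebius map -/
noncomputable def gm (q : ℝ) (w : ℂ) : ℂ := (1 + (1 - q) * w) / (q * (1 - w))

section

variable {q : ℝ}

lemma gm_re (h0 : 0 < q) (h1 : q < 1) {w : ℂ} (hw : ‖w‖ < 1) : 0 < (gm q w).re := by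
  have hw1 : w ≠ 1 := by
    rintro rfl
    simp at hw
  have hne : (q : ℂ) * (1 - w) ≠ 0 :=
    mul_ne_zero (by exact_mod_cast h0.ne') (sub_ne_zero.mpr (Ne.symm hw1))
  unfold gm
  rw [Complex.div_re, ← add_div]
  refine div_pos ?_ (Complex.normSq_pos.mpr hne)
  have hn : w.re ^ 2 + w.im ^ 2 < 1 := by
    have h2 : ‖w‖ ^ 2 < 1 := by
      have := norm_nonneg w
      nlinarith
    rw [← Complex.normSq_eq_norm_sq, Complex.normSq_apply] at h2
    nlinarith
  have hre : w.re < 1 := lt_of_le_of_lt (Complex.re_le_norm w) hw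
  simp only [Complex.add_re, Complex.one_re, Complex.mul_re, Complex.sub_re, Complex.ofReal_re,
    Complex.sub_im, Complex.one_im, Complex.ofReal_im, Complex.add_im, Complex.mul_im]
  have e : (1 + ((1 - q) * w.re - (0 - 0) * w.im)) * (q * (1 - w.re) - 0 * (0 - w.im)) +
      (0 + ((1 - q) * w.im + (0 - 0) * w.re)) * (q * (0 - w.im) + 0 * (1 - w.re)) =
      q * (1 - q * w.re - (1 - q) * (w.re ^ 2 + w.im ^ 2)) := by ring
  rw [e]
  refine mul_pos h0 ?_
  have h3 : (1 - q) * (w.re ^ 2 + w.im ^ 2) < (1 - q) * 1 :=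
    mul_lt_mul_of_pos_left hn (by linarith)
  have h4 : q * w.re < q * 1 := mul_lt_mul_of_pos_left hre h0
  linarith

/-- the conformal map -/
noncomputable def Ph (k σ q : ℝ) (w : ℂ) : ℂ := σ + (1 / k : ℝ) * Complex.log (gm q w)

variable {k σ : ℝ}

lemma Ph_an (h0 : 0 < q) (h1 : q < 1) {w : ℂ} (hw : ‖w‖ < 1) : AnalyticAt ℂ (Ph k σ q) w := by
  have hw1 : w ≠ 1 := by
    rintro rfl
    simp at hw
  have hne : (q : ℂ) * (1 - w) ≠ 0 :=
    mul_ne_zero (by exact_mod_cast h0.ne') (sub_ne_zero.mpr (Ne.symm hw1))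
  have h2 : AnalyticAt ℂ (gm q) w := by
    unfold gm
    refine AnalyticAt.div ?_ ?_ hne
    · exact analyticAt_const.add (analyticAt_const.mul analyticAt_id)
    · exact analyticAt_const.mul (analyticAt_const.sub analyticAt_id)
  have h3 : gm q w ∈ Complex.slitPlane := Or.inl (gm_re h0 h1 hw)
  exact analyticAt_const.add (analyticAt_const.mul (h2.clog h3))

lemma Ph_re (w : ℂ) : (Ph k σ q w).re = σ + 1 / k * Real.log ‖gm q w‖ := by
  unfold Ph
  rw [Complex.add_re, Complex.ofReal_re, Complex.re_ofReal_mul, Complex.log_re]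

lemma Ph_im (hk : 0 < k) (h0 : 0 < q) (h1 : q < 1) {w : ℂ} (hw : ‖w‖ < 1) :
    |(Ph k σ q w).im| ≤ 2 / k := by
  unfold Ph
  rw [Complex.add_im, Complex.ofReal_im, Complex.im_ofReal_mul, Complex.log_im, zero_add, abs_mul,
    abs_of_pos (by positivity)]
  have h2 : |(gm q w).arg| ≤ Real.pi / 2 :=
    Complex.abs_arg_le_pi_div_two_iff.mpr (gm_re h0 h1 hw).le
  have h3 : |(gm q w).arg| ≤ 2 := h2.trans (by linarith [Real.pi_le_four])
  calc 1 / k * |(gm q w).arg| ≤ 1 / k * 2 := mul_le_mul_of_nonneg_left h3 (by positivity)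
    _ = _ := by ring

lemma Ph_zero (hk : 0 < k) (hσ : q = Real.exp (-(k * (2 - σ)))) : Ph k σ q 0 = 2 := by
  have h0 : 0 < q := by rw [hσ]; exact Real.exp_pos _
  unfold Ph gm
  have h2 : (1 + (1 - (q : ℂ)) * 0) / ((q : ℂ) * (1 - 0)) = ((q⁻¹ : ℝ) : ℂ) := by
    push_cast
    rw [mul_zero, add_zero, sub_zero, mul_one, one_div]
  rw [h2, ← Complex.ofReal_log (inv_pos.mpr h0).le, Real.log_inv, hσ, Real.log_exp]
  have h3 : (σ : ℝ) + 1 / k * (- -(k * (2 - σ))) = 2 := by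
    field_simp
    ring
  exact_mod_cast h3

/-- the norm of `1 + (1 - q) w` -/
lemma nrm_ge (h0 : 0 < q) (h1 : q < 1) {w : ℂ} (hw : ‖w‖ < 1) :
    q ≤ ‖1 + (1 - (q : ℂ)) * w‖ := by
  have h2 := norm_sub_norm_le (1 : ℂ) (-((1 - (q : ℂ)) * w))
  rw [norm_one, norm_neg, sub_neg_eq_add, norm_mul] at h2
  have h3 : ‖(1 : ℂ) - (q : ℂ)‖ = 1 - q := by
    have : (1 : ℂ) - (q : ℂ) = ((1 - q : ℝ) : ℂ) := by push_cast; ring
    rw [this, Complex.norm_real, Real.norm_of_nonneg (by linarith)]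
  rw [h3] at h2
  have h4 : (1 - q) * ‖w‖ ≤ (1 - q) * 1 := mul_le_mul_of_nonneg_left hw.le (by linarith)
  linarith

lemma nrm_gm (h0 : 0 < q) (w : ℂ) : ‖gm q w‖ = ‖1 + (1 - (q : ℂ)) * w‖ / (q * ‖1 - w‖) := by
  unfold gm
  rw [norm_div, norm_mul, Complex.norm_real, Real.norm_of_nonneg h0.le]

lemma gm_low (h0 : 0 < q) (h1 : q < 1) {w : ℂ} (hw : ‖w‖ < 1) : 1 / 2 ≤ ‖gm q w‖ := by
  have hw1 : w ≠ 1 := by
    rintro rfl
    simp at hw
  have hpos : 0 < ‖1 - w‖ := norm_pos_iff.mpr (sub_ne_zero.mpr (Ne.symm hw1))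
  rw [nrm_gm h0, le_div_iff₀ (by positivity)]
  have h2 : ‖w + (1 - (q : ℂ))‖ ≤ ‖1 + (1 - (q : ℂ)) * w‖ := by
    refine le_of_sq_le_sq ?_ (norm_nonneg _)
    rw [← Complex.normSq_eq_norm_sq, ← Complex.normSq_eq_norm_sq, Complex.normSq_apply,
      Complex.normSq_apply]
    simp only [Complex.add_re, Complex.one_re, Complex.mul_re, Complex.sub_re, Complex.ofReal_re,
      Complex.sub_im, Complex.one_im, Complex.ofReal_im, Complex.add_im, Complex.mul_im]
    have hn : w.re ^ 2 + w.im ^ 2 ≤ 1 := by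
      have h2 : ‖w‖ ^ 2 ≤ 1 := by
        have := norm_nonneg w
        nlinarith
      rw [← Complex.normSq_eq_norm_sq, Complex.normSq_apply] at h2
      nlinarith
    have h3 : 0 ≤ (1 - (1 - q) ^ 2) * (1 - (w.re ^ 2 + w.im ^ 2)) := by
      refine mul_nonneg ?_ (by linarith)
      nlinarith
    nlinarith
  have h3 : q * ‖1 - w‖ ≤ ‖1 + (1 - (q : ℂ)) * w‖ + ‖w + (1 - (q : ℂ))‖ := by
    have e : (q : ℂ) * (1 - w) = (1 + (1 - (q : ℂ)) * w) - (w + (1 - (q : ℂ))) := by ring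
    have h4 := norm_sub_le (1 + (1 - (q : ℂ)) * w) (w + (1 - (q : ℂ)))
    rw [← e, norm_mul, Complex.norm_real, Real.norm_of_nonneg h0.le] at h4
    exact h4
  linarith

lemma gm_upp (h0 : 0 < q) (h1 : q < 1) {w : ℂ} {ρ : ℝ} (hρ : ρ < 1) (hρ0 : 0 < ρ)
    (hρ2 : ρ ^ 2 = 1 - q / 36)
    (hw : ‖w‖ ≤ ρ) : ‖gm q w‖ ≤ 144 / q ^ 2 := by
  have h2 : 1 - ρ ≤ ‖1 - w‖ := by
    have := norm_sub_norm_le (1 : ℂ) w
    rw [norm_one] at this
    linarith
  have h3 : q / 72 ≤ 1 - ρ := by nlinarith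
  have h4 : ‖1 + (1 - (q : ℂ)) * w‖ ≤ 2 := by
    refine (norm_add_le _ _).trans ?_
    rw [norm_one, norm_mul]
    have h3 : ‖(1 : ℂ) - (q : ℂ)‖ = 1 - q := by
      have : (1 : ℂ) - (q : ℂ) = ((1 - q : ℝ) : ℂ) := by push_cast; ring
      rw [this, Complex.norm_real, Real.norm_of_nonneg (by linarith)]
    rw [h3]
    have : (1 - q) * ‖w‖ ≤ 1 * 1 :=
      mul_le_mul (by linarith) (by linarith) (norm_nonneg _) (by norm_num)
    linarith
  rw [nrm_gm h0, div_le_div_iff₀ (by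
    have : 0 < 1 - ρ := by linarith
    have : 0 < ‖1 - w‖ := by linarith
    positivity) (by positivity)]
  have h5 : q / 72 ≤ ‖1 - w‖ := h3.trans h2
  calc ‖1 + (1 - (q : ℂ)) * w‖ * q ^ 2 ≤ 2 * q ^ 2 := by gcongr
    _ = 144 * (q * (q / 72)) := by ring
    _ ≤ 144 * (q * ‖1 - w‖) := by gcongr

/-- the inverse map -/
lemma gm_inv (h0 : 0 < q) (h1 : q < 1) {ζ : ℂ} (hx1 : 1 ≤ ζ.re) (hx2 : q ≤ Real.exp (-ζ.re))
    (hy : |ζ.im| ≤ 1) : ∃ w : ℂ, gm q w = cexp ζ ∧ ‖w‖ < 1 ∧ ‖w‖ ^ 2 ≤ 1 - q / 18 := by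
  obtain ⟨u, hu⟩ : ∃ u : ℂ, u = cexp (-ζ) := ⟨_, rfl⟩
  obtain ⟨m, hm⟩ : ∃ m : ℝ, m = Real.exp (-ζ.re) := ⟨_, rfl⟩
  have hun : ‖u‖ = m := by rw [hu, Complex.norm_exp, Complex.neg_re, hm]
  have hm0 : 0 < m := by rw [hm]; exact Real.exp_pos _
  have hm1 : m ≤ 1 / 2 := by
    rw [hm]
    have h3 : Real.exp (-ζ.re) ≤ Real.exp (-1) := Real.exp_le_exp.mpr (by linarith)
    have h4 := Real.exp_neg_one_lt_d9
    linarith
  rw [← hm] at hx2
  have hu0 : u ≠ 0 := by rw [hu]; exact Complex.exp_ne_zero _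
  have hure : m / 2 ≤ u.re := by
    rw [hu, Complex.exp_re, Complex.neg_re, Complex.neg_im, ← hm, Real.cos_neg]
    have h5 := Real.one_sub_sq_div_two_le_cos (x := ζ.im)
    have h6 : ζ.im ^ 2 ≤ 1 := by
      rw [← sq_abs]
      nlinarith [abs_nonneg ζ.im]
    nlinarith
  obtain ⟨D, hD⟩ : ∃ D : ℂ, D = 1 - (1 - (q : ℂ)) * (1 - u) := ⟨_, rfl⟩
  have hDn : ‖D‖ ≤ 3 * m := by
    have e : D = (q : ℂ) + (1 - (q : ℂ)) * u := by rw [hD]; ring
    rw [e]
    refine (norm_add_le _ _).trans ?_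
    have h3 : ‖(1 : ℂ) - (q : ℂ)‖ = 1 - q := by
      have : (1 : ℂ) - (q : ℂ) = ((1 - q : ℝ) : ℂ) := by push_cast; ring
      rw [this, Complex.norm_real, Real.norm_of_nonneg (by linarith)]
    rw [norm_mul, h3, hun, Complex.norm_real, Real.norm_of_nonneg h0.le]
    nlinarith
  have hDre : q ≤ D.re := by
    have e : D = ((q : ℝ) : ℂ) + ((1 - q : ℝ) : ℂ) * u := by rw [hD]; push_cast; ring
    rw [e, Complex.add_re, Complex.ofReal_re, Complex.re_ofReal_mul]
    have : 0 ≤ (1 - q) * u.re := mul_nonneg (by linarith) (by linarith)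
    linarith
  have hD0 : D ≠ 0 := by
    intro h
    rw [h, Complex.zero_re] at hDre
    linarith
  have hDp : 0 < ‖D‖ := norm_pos_iff.mpr hD0
  refine ⟨((1 - u) - (1 - (q : ℂ))) / D, ?_, ?_⟩
  · unfold gm
    have e1 : 1 + (1 - (q : ℂ)) * (((1 - u) - (1 - (q : ℂ))) / D) =
        (q : ℂ) * (2 - q) / D := by
      rw [eq_div_iff hD0, add_mul, mul_assoc, div_mul_cancel₀ _ hD0, hD]
      ring
    have e2 : 1 - ((1 - u) - (1 - (q : ℂ))) / D = (2 - (q : ℂ)) * u / D := by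
      rw [eq_div_iff hD0, sub_mul, div_mul_cancel₀ _ hD0, hD]
      ring
    rw [e1, e2]
    have hq0 : (q : ℂ) ≠ 0 := by exact_mod_cast h0.ne'
    have hq2 : (2 : ℂ) - q ≠ 0 := by
      have : (2 - q : ℝ) ≠ 0 := by linarith
      exact_mod_cast this
    have e3 : cexp ζ = u⁻¹ := by rw [hu, Complex.exp_neg, inv_inv]
    rw [e3]
    field_simp
  · have key : ‖((1 - u) - (1 - (q : ℂ))) / D‖ ^ 2 ≤ 1 - q / 18 := by
      rw [norm_div, div_pow, div_le_iff₀ (by positivity)]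
      have h7 : ‖(1 - u) - (1 - (q : ℂ))‖ ^ 2 = ‖D‖ ^ 2 -
          (1 - (1 - q) ^ 2) * (2 * u.re - m ^ 2) := by
        rw [← hun, hD]
        rw [← Complex.normSq_eq_norm_sq, ← Complex.normSq_eq_norm_sq, ← Complex.normSq_eq_norm_sq,
          Complex.normSq_apply, Complex.normSq_apply, Complex.normSq_apply]
        simp only [Complex.one_re, Complex.mul_re, Complex.sub_re, Complex.ofReal_re,
          Complex.sub_im, Complex.one_im, Complex.ofReal_im, Complex.mul_im]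
        ring
      rw [h7]
      have h8 : ‖D‖ ^ 2 ≤ 9 * m ^ 2 := by
        have := pow_le_pow_left₀ (norm_nonneg D) hDn 2
        nlinarith
      have h9 : m ^ 2 ≤ m / 2 := by nlinarith
      have h10 : m / 2 ≤ 2 * u.re - m ^ 2 := by linarith
      have h11 : q ≤ 1 - (1 - q) ^ 2 := by nlinarith
      have h12 : q * (m / 2) ≤ (1 - (1 - q) ^ 2) * (2 * u.re - m ^ 2) :=
        mul_le_mul h11 h10 (by positivity) (by nlinarith)
      have h13 : q / 18 * ‖D‖ ^ 2 ≤ q / 18 * (9 * m ^ 2) :=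
        mul_le_mul_of_nonneg_left h8 (by positivity)
      have h14 : q * m ^ 2 ≤ q * (m / 2) := mul_le_mul_of_nonneg_left h9 h0.le
      have h15 : q / 18 * (9 * m ^ 2) ≤ q * m ^ 2 := by
        have : 0 ≤ q * m ^ 2 := by positivity
        linarith
      linarith
    refine ⟨?_, key⟩
    have h8 : ‖((1 - u) - (1 - (q : ℂ))) / D‖ ^ 2 < 1 := by linarith
    by_contra h
    push Not at h
    nlinarith

/-- the points of the half strip -/
lemma Ph_inv (hk : 0 < k) (hσ2 : σ < 2) (hσ : q = Real.exp (-(k * (2 - σ)))) {z : ℂ} {t ρ : ℝ}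
    (hρ : ρ ^ 2 = 1 - q / 36) (hρ0 : 0 < ρ)
    (h1 : σ + 1 / k ≤ z.re) (h2 : z.re ≤ 2) (h3 : |z.im - t| ≤ 1 / k) :
    ∃ w : ℂ, Ph k σ q w + (t : ℂ) * I = z ∧ ‖w‖ ≤ ρ ∧
      (w ≠ 0 → q / 144 ≤ Real.log (ρ * ‖w‖⁻¹)) := by
  have hq0 : 0 < q := by rw [hσ]; exact Real.exp_pos _
  have hq1 : q < 1 := by
    rw [hσ, Real.exp_lt_one_iff]
    have : 0 < k * (2 - σ) := mul_pos hk (by linarith)
    linarith
  obtain ⟨ζ, hζ⟩ : ∃ ζ : ℂ, ζ = (k : ℂ) * (z - (t : ℂ) * I - σ) := ⟨_, rfl⟩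
  have hre : ζ.re = k * (z.re - σ) := by
    rw [hζ, Complex.re_ofReal_mul]
    simp
  have him : ζ.im = k * (z.im - t) := by
    rw [hζ, Complex.im_ofReal_mul]
    simp
  obtain ⟨w, hw1, hw2, hw3⟩ := gm_inv (ζ := ζ) hq0 hq1 (by
      rw [hre]
      have : 1 / k ≤ z.re - σ := by linarith
      rw [div_le_iff₀ hk] at this
      linarith) (by
      rw [hσ, hre]
      refine Real.exp_le_exp.mpr (neg_le_neg ?_)
      exact mul_le_mul_of_nonneg_left (by linarith) hk.le) (by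
      rw [him, abs_mul, abs_of_pos hk]
      rw [le_div_iff₀ hk] at h3
      linarith)
  have him1 : |ζ.im| ≤ 1 := by
    rw [him, abs_mul, abs_of_pos hk]
    rw [le_div_iff₀ hk] at h3
    linarith
  refine ⟨w, ?_, ?_, ?_⟩
  · unfold Ph
    obtain ⟨a1, a2⟩ := abs_le.mp him1
    rw [hw1, Complex.log_exp (by linarith [Real.pi_gt_three]) (by linarith [Real.pi_gt_three]), hζ]
    have hk0 : (k : ℂ) ≠ 0 := by exact_mod_cast hk.ne'
    push_cast
    field_simp
    ring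
  · refine le_of_sq_le_sq ?_ hρ0.le
    rw [hρ]
    linarith
  · intro hw0
    have hwp : 0 < ‖w‖ := norm_pos_iff.mpr hw0
    have hx : 1 + q / 72 ≤ ρ * ‖w‖⁻¹ := by
      rw [← div_eq_mul_inv, le_div_iff₀ hwp]
      refine le_of_sq_le_sq ?_ hρ0.le
      rw [mul_pow, hρ]
      have e1 : (1 + q / 72) ^ 2 * ‖w‖ ^ 2 ≤ (1 + q / 72) ^ 2 * (1 - q / 18) :=
        mul_le_mul_of_nonneg_left hw3 (by positivity)
      refine e1.trans ?_
      have e2 : (1 + q / 72) ^ 2 * (1 - q / 18) = 1 - q / 36 - 7 / 5184 * q ^ 2 -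
          1 / 93312 * q ^ 3 := by ring
      rw [e2]
      have e3 : 0 ≤ 7 / 5184 * q ^ 2 := by positivity
      have e4 : 0 ≤ 1 / 93312 * q ^ 3 := by positivity
      linarith
    have h5 : Real.log (1 + q / 72) ≤ Real.log (ρ * ‖w‖⁻¹) :=
      Real.log_le_log (by positivity) hx
    have h6 := Real.one_sub_inv_le_log_of_pos (x := 1 + q / 72) (by positivity)
    have h7 : q / 144 ≤ 1 - (1 + q / 72)⁻¹ := by
      have : (1 + q / 72)⁻¹ ≤ 1 - q / 144 := by
        rw [inv_le_iff_one_le_mul₀ (by positivity)]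
        nlinarith
      linarith
    linarith

/-- the circle average -/
lemma gm_avg (h0 : 0 < q) (h1 : q < 1) {ρ : ℝ} (hρ : ρ < 1) (hρ0 : 0 < ρ) :
    ∫ φ in (0 : ℝ)..2 * Real.pi, (‖gm q (circleMap 0 ρ φ)‖⁻¹) ^ 2 ≤ 2 * Real.pi * (4 * q) := by
  obtain ⟨r, hr⟩ : ∃ r : ℝ, r = 1 - q := ⟨_, rfl⟩
  have hr0 : 0 < r := by rw [hr]; linarith
  have hr1 : r < 1 := by rw [hr]; linarith
  have hwn : ∀ φ : ℝ, ‖circleMap 0 ρ φ‖ = ρ := fun φ => by
    rw [norm_circleMap_zero, abs_of_pos hρ0]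
  have hne : ∀ w : ℂ, ‖w‖ ≤ ρ → 1 + (r : ℂ) * w ≠ 0 := by
    intro w hw h
    have h2 := nrm_ge h0 h1 (w := w) (by linarith)
    have h3 : 1 + (1 - (q : ℂ)) * w = 1 + (r : ℂ) * w := by rw [hr]; push_cast; ring
    rw [h3, h, norm_zero] at h2
    linarith
  set G : ℂ → ℂ := fun w => (1 - (r : ℂ) * w) / (1 + (r : ℂ) * w) with hG
  have hGd : ∀ w : ℂ, ‖w‖ ≤ ρ → DifferentiableAt ℂ G w := by
    intro w hw
    refine DifferentiableAt.div (by fun_prop) (by fun_prop) (hne w hw)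
  have hGc : DiffContOnCl ℂ G (ball 0 |ρ|) := by
    refine ⟨fun w hw => (hGd w ?_).differentiableWithinAt, fun w hw => ?_⟩
    · rw [mem_ball, dist_zero_right, abs_of_pos hρ0] at hw
      exact hw.le
    · rw [closure_ball _ (by rw [abs_of_pos hρ0]; exact hρ0.ne'), mem_closedBall, dist_zero_right,
        abs_of_pos hρ0] at hw
      exact (hGd w hw).continuousAt.continuousWithinAt
  have hav := hGc.circleAverage
  rw [Real.circleAverage_def] at hav
  have hG0 : G 0 = 1 := by simp [hG]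
  rw [hG0] at hav
  have hcont : Continuous fun φ : ℝ => G (circleMap 0 ρ φ) := by
    rw [continuous_iff_continuousAt]
    intro φ
    exact (hGd _ (hwn φ).le).continuousAt.comp (continuous_circleMap 0 ρ).continuousAt
  have h2 : ∫ φ in (0 : ℝ)..2 * Real.pi, (G (circleMap 0 ρ φ)).re = 2 * Real.pi := by
    have h3 := Complex.reCLM.intervalIntegral_comp_comm
      (hcont.intervalIntegrable (μ := volume) 0 (2 * Real.pi))
    simp only [Complex.reCLM_apply] at h3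
    rw [h3]
    have hpi : (2 * Real.pi)⁻¹ ≠ 0 := inv_ne_zero (by positivity)
    have h4 : (∫ φ in (0 : ℝ)..2 * Real.pi, G (circleMap 0 ρ φ)) = ((2 * Real.pi : ℝ) : ℂ) := by
      have h5 : ((2 * Real.pi : ℝ)) • ((2 * Real.pi)⁻¹ •
          ∫ φ in (0 : ℝ)..2 * Real.pi, G (circleMap 0 ρ φ)) = (2 * Real.pi : ℝ) • (1 : ℂ) := by
        rw [hav]
      rw [smul_smul, mul_inv_cancel₀ (by positivity), one_smul] at h5
      rw [h5]
      simp
    rw [h4, Complex.ofReal_re]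
  have hpt : ∀ φ : ℝ, (‖gm q (circleMap 0 ρ φ)‖⁻¹) ^ 2 ≤ 4 * q * (G (circleMap 0 ρ φ)).re := by
    intro φ
    obtain ⟨w, hw⟩ : ∃ w : ℂ, w = circleMap 0 ρ φ := ⟨_, rfl⟩
    have hwn' : ‖w‖ = ρ := by rw [hw]; exact hwn φ
    rw [← hw, nrm_gm h0, inv_div, div_pow]
    have h3 : 1 + (1 - (q : ℂ)) * w = 1 + (r : ℂ) * w := by rw [hr]; push_cast; ring
    rw [h3]
    have hDp : 0 < ‖1 + (r : ℂ) * w‖ := norm_pos_iff.mpr (hne w hwn'.le)
    have h4 : (G w).re = (1 - r ^ 2 * ρ ^ 2) / ‖1 + (r : ℂ) * w‖ ^ 2 := by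
      simp only [hG]
      rw [Complex.div_re, ← add_div, Complex.normSq_eq_norm_sq, ← hwn',
        ← Complex.normSq_eq_norm_sq w, Complex.normSq_apply w]
      congr 1
      simp only [Complex.add_re, Complex.one_re, Complex.mul_re, Complex.sub_re, Complex.ofReal_re,
        Complex.sub_im, Complex.one_im, Complex.ofReal_im, Complex.add_im, Complex.mul_im]
      ring
    rw [h4, ← mul_div_assoc]
    refine div_le_div_of_nonneg_right ?_ (by positivity)
    have h5 : ‖1 - w‖ ≤ 2 := by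
      refine (norm_sub_le _ _).trans ?_
      rw [norm_one, hwn']
      linarith
    have h6 : (q * ‖1 - w‖) ^ 2 ≤ (q * 2) ^ 2 := by gcongr
    refine h6.trans ?_
    have h7 : r ^ 2 * ρ ^ 2 ≤ r * 1 := by
      refine mul_le_mul ?_ ?_ (by positivity) hr0.le
      · nlinarith
      · nlinarith
    have h8 : q ≤ 1 - r ^ 2 * ρ ^ 2 := by rw [hr] at h7 ⊢; linarith
    nlinarith [mul_le_mul_of_nonneg_left h8 (by positivity : (0 : ℝ) ≤ 4 * q)]
  have hgc : Continuous fun φ : ℝ => (‖gm q (circleMap 0 ρ φ)‖⁻¹) ^ 2 := by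
    refine Continuous.pow (Continuous.inv₀ ?_ ?_) 2
    · refine Continuous.norm ?_
      rw [continuous_iff_continuousAt]
      intro φ
      have h5 : ContinuousAt (gm q) (circleMap 0 ρ φ) := by
        unfold gm
        refine ContinuousAt.div (by fun_prop) (by fun_prop) ?_
        refine mul_ne_zero (by exact_mod_cast h0.ne') (sub_ne_zero.mpr ?_)
        intro h
        have := hwn φ
        rw [← h, norm_one] at this
        linarith
      exact h5.comp (continuous_circleMap 0 ρ).continuousAt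
    · intro φ
      have := gm_low h0 h1 (w := circleMap 0 ρ φ) (by rw [hwn]; exact hρ)
      intro h
      rw [h] at this
      norm_num at this
  refine (intervalIntegral.integral_mono_on (by positivity) (hgc.intervalIntegrable _ _)
    ((continuous_const.mul (Complex.continuous_re.comp hcont)).intervalIntegrable _ _)
    fun φ _ => hpt φ).trans (le_of_eq ?_)
  have e : (∫ φ in (0 : ℝ)..2 * Real.pi, 4 * q * (G (circleMap 0 ρ φ)).re) =
      2 * Real.pi * (4 * q) := by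
    rw [intervalIntegral.integral_const_mul, h2]
    ring
  exact e

end

end Pool.Agent.T9h27.D
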