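import Pool.Agent.T9h27.D.Cnv
import Pool.Agent.R399.TW.Vm

/-!
# Norms on a monoid with unique factorisation (helper27)
-/

set_option autoImplicit false
set_option linter.unusedSectionVars false

open UniqueFactorizationMonoid MeasureTheory

namespace Pool.Agent.T9h27.D

open Pool.Agent.N786.D
open ArithmeticFunction (vonMangoldt)

section

variable {M : Type} [CommMonoidWithZero M] [NormalizationMonoid M] [UniqueFactorizationMonoid M]
  [Subsingleton Mˣ] [Nontrivial M]

/-- a norm on `M` of degree at most `n`: the norm of a prime is a prime power with exponent at most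
`n`, and there are at most `n` primes above a rational prime -/
structure NS (N : M →*₀ ℕ) (n : ℕ) : Prop where
  n1 : 1 ≤ n
  pp : ∀ p : M, Prime p → ∃ q f : ℕ, q.Prime ∧ 1 ≤ f ∧ f ≤ n ∧ N p = q ^ f
  ab : ∀ q : ℕ, q.Prime → {p : M | Prime p ∧ q ∣ N p}.Finite ∧
    {p : M | Prime p ∧ q ∣ N p}.ncard ≤ n

/-- the logarithm of the norm -/
noncomputable def lN (N : M →*₀ ℕ) (a : M) : ℝ := Real.log (N a)

lemma lN_nonneg (N : M →*₀ ℕ) (a : M) : 0 ≤ lN N a := Real.log_natCast_nonneg _

variable {N : M →*₀ ℕ} {n : ℕ}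

lemma NS.pp' (h : NS N n) {p : M} (hp : Prime p) : ∃ f : ℕ, (N p).minFac.Prime ∧ 1 ≤ f ∧ f ≤ n ∧
    N p = (N p).minFac ^ f := by
  obtain ⟨q, f, hq, h1, h2, h3⟩ := h.pp p hp
  have h4 : (N p).minFac = q := by rw [h3, hq.pow_minFac (by omega)]
  exact ⟨f, by rwa [h4], h1, h2, by rw [h4]; exact h3⟩

lemma NS.two_le (h : NS N n) {p : M} (hp : Prime p) : 2 ≤ N p := by
  obtain ⟨q, f, hq, h1, -, h3⟩ := h.pp p hp
  rw [h3]
  exact hq.two_le.trans (Nat.le_self_pow (by omega) q)

lemma NS.pos (h : NS N n) {a : M} (ha : a ≠ 0) : 0 < N a := by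
  induction a using UniqueFactorizationMonoid.induction_on_prime with
  | h₁ => exact absurd rfl ha
  | h₂ x hx =>
    have : x = 1 := by
      obtain ⟨u, rfl⟩ := hx
      rw [Subsingleton.elim u 1, Units.val_one]
    rw [this, map_one]
    exact one_pos
  | h₃ b p hb hp ih =>
    rw [map_mul]
    exact Nat.mul_pos (lt_of_lt_of_le two_pos (h.two_le hp)) (ih hb)

lemma NS.dvd (N : M →*₀ ℕ) {a b : M} (h : a ∣ b) : N a ∣ N b := by
  obtain ⟨c, rfl⟩ := h
  rw [map_mul]
  exact Dvd.intro _ rfl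

/-- **the logarithm of the norm** -/
theorem NS.ln (h : NS N n) : LNorm (lN N) (24 * n) where
  one := by unfold lN; rw [map_one]; simp
  mul a b ha hb := by
    unfold lN
    have h1 := h.pos ha
    have h2 := h.pos hb
    rw [map_mul, Nat.cast_mul, Real.log_mul (by positivity) (by positivity)]
  prime p hp := by
    unfold lN
    exact Real.log_le_log (by norm_num) (by exact_mod_cast h.two_le hp)
  B0 := by positivity
  sum S hS σ h1 h2 := by
    classical
    have hterm : ∀ p ∈ S, lN N p * Real.exp (-(σ * lN N p)) ≤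
        (fun q : ℕ => Real.log q * (q : ℝ) ^ (-σ)) (N p).minFac := by
      intro p hp
      obtain ⟨f, hq, hf1, -, hNp⟩ := h.pp' (hS p hp)
      obtain ⟨q, hqd⟩ : ∃ q : ℕ, q = (N p).minFac := ⟨_, rfl⟩
      rw [← hqd] at hq hNp ⊢
      have hq0 : (0 : ℝ) < q := by exact_mod_cast hq.pos
      have hl : lN N p = f * Real.log q := by
        unfold lN
        rw [hNp]
        push_cast
        rw [Real.log_pow]
      have hlq : 0 ≤ Real.log q := Real.log_natCast_nonneg _
      have hl2 : Real.log 2 ≤ Real.log q := Real.log_le_log (by norm_num) (by exact_mod_cast hq.two_le)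
      simp only
      rw [hl, Real.rpow_def_of_pos hq0]
      -- `f exp(-(f - 1) log q) ≤ 1`
      have h3 : (f : ℝ) * Real.exp (-((f - 1) * Real.log q)) ≤ 1 := by
        obtain ⟨g, rfl⟩ : ∃ g, f = g + 1 := ⟨f - 1, by omega⟩
        push_cast
        have h4 : Real.exp (-(((g : ℝ) + 1 - 1) * Real.log q)) ≤ Real.exp (-(g * Real.log 2)) := by
          refine Real.exp_le_exp.mpr ?_
          have : (g : ℝ) * Real.log 2 ≤ g * Real.log q :=
            mul_le_mul_of_nonneg_left hl2 (Nat.cast_nonneg _)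
          linarith
        have h5 : Real.exp (-(g * Real.log 2)) = ((2 : ℝ) ^ g)⁻¹ := by
          rw [Real.exp_neg, mul_comm, ← Real.rpow_def_of_pos (by norm_num), Real.rpow_natCast]
        have h6 : (g : ℝ) + 1 ≤ 2 ^ g := by exact_mod_cast Nat.lt_two_pow_self (n := g)
        calc ((g : ℝ) + 1) * Real.exp (-(((g : ℝ) + 1 - 1) * Real.log q)) ≤
            (2 : ℝ) ^ g * ((2 : ℝ) ^ g)⁻¹ := by
              rw [← h5]
              gcongr
          _ = 1 := mul_inv_cancel₀ (by positivity)
      have h4 : Real.exp (-(σ * (f * Real.log q))) ≤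
          Real.exp (-((f - 1) * Real.log q)) * Real.exp (Real.log q * -σ) := by
        rw [← Real.exp_add]
        refine Real.exp_le_exp.mpr ?_
        have h5 : (1 : ℝ) ≤ f := by exact_mod_cast hf1
        have h6 : 0 ≤ (σ - 1) * ((f - 1) * Real.log q) :=
          mul_nonneg (by linarith) (mul_nonneg (by linarith) hlq)
        nlinarith
      have hf0 : (0 : ℝ) ≤ f := Nat.cast_nonneg _
      calc f * Real.log q * Real.exp (-(σ * (f * Real.log q))) ≤
          f * Real.log q * (Real.exp (-((f - 1) * Real.log q)) * Real.exp (Real.log q * -σ)) := by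
            gcongr
        _ = (f * Real.exp (-((f - 1) * Real.log q))) * (Real.log q * Real.exp (Real.log q * -σ)) := by
            ring
        _ ≤ 1 * (Real.log q * Real.exp (Real.log q * -σ)) := by
            refine mul_le_mul_of_nonneg_right h3 ?_
            positivity
        _ = _ := one_mul _
    refine (Finset.sum_le_sum hterm).trans ?_
    rw [Finset.sum_comp (fun q : ℕ => Real.log q * (q : ℝ) ^ (-σ)) (fun p => (N p).minFac)]
    obtain ⟨X, hX⟩ : ∃ X : ℕ, ∀ q ∈ S.image (fun p => (N p).minFac), q ≤ X :=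
      ⟨(S.image (fun p => (N p).minFac)).sup id, fun q hq => Finset.le_sup (f := id) hq⟩
    have hprime : ∀ q ∈ S.image (fun p => (N p).minFac), q.Prime := by
      intro q hq
      obtain ⟨p, hp, rfl⟩ := Finset.mem_image.mp hq
      exact (h.pp' (hS p hp)).choose_spec.1
    have hone : ∀ q ∈ S.image (fun p => (N p).minFac),
        (S.filter (fun p => (N p).minFac = q)).card • (Real.log q * (q : ℝ) ^ (-σ)) ≤
        n * (vonMangoldt q * (q : ℝ) ^ (-σ)) := by
      intro q hq
      have hqp := hprime q hq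
      rw [nsmul_eq_mul, ArithmeticFunction.vonMangoldt_apply_prime hqp]
      have h5 : 0 ≤ Real.log q * (q : ℝ) ^ (-σ) := by
        have := Real.log_natCast_nonneg q
        positivity
      refine mul_le_mul_of_nonneg_right ?_ h5
      obtain ⟨h6, h7⟩ := h.ab q hqp
      have h8 : ((S.filter (fun p => (N p).minFac = q) : Finset M) : Set M) ⊆
          {p : M | Prime p ∧ q ∣ N p} := by
        intro p hp
        rw [Finset.mem_coe, Finset.mem_filter] at hp
        exact ⟨hS p hp.1, hp.2 ▸ Nat.minFac_dvd _⟩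
      have h9 := Set.ncard_le_ncard h8 h6
      rw [Set.ncard_coe_finset] at h9
      exact_mod_cast h9.trans h7
    refine (Finset.sum_le_sum hone).trans ?_
    rw [← Finset.mul_sum]
    have h3 := Pool.Agent.R399.TW.vm_sum h1 h2 X
    have h4 : ∑ q ∈ S.image (fun p => (N p).minFac), vonMangoldt q * (q : ℝ) ^ (-σ) ≤
        ∑ q ∈ Finset.Icc 1 X, vonMangoldt q * (q : ℝ) ^ (-σ) := by
      refine Finset.sum_le_sum_of_subset_of_nonneg (fun q hq => ?_) fun q _ _ => ?_
      · rw [Finset.mem_Icc]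
        exact ⟨(hprime q hq).one_lt.le, hX q hq⟩
      · exact mul_nonneg ArithmeticFunction.vonMangoldt_nonneg (by positivity)
    calc (n : ℝ) * _ ≤ n * (24 / (σ - 1)) := by gcongr; exact h4.trans h3
      _ = _ := by ring

lemma exp_lN (h : NS N n) {a : M} (ha : a ≠ 0) (σ : ℝ) :
    Real.exp (-(σ * lN N a)) = (N a : ℝ) ^ (-σ) := by
  have h1 : 0 < (N a : ℝ) := by exact_mod_cast h.pos ha
  rw [Real.rpow_def_of_pos h1, lN]
  congr 1
  ring

lemma lN_pow (N : M →*₀ ℕ) (p : M) (k : ℕ) : lN N (p ^ k) = k * lN N p := by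
  unfold lN
  rw [map_pow]
  push_cast
  rw [Real.log_pow]

/-- **summability** -/
theorem NS.sm (h : NS N n) : Summable fun a : M => (N a : ℝ) ^ (-(3 / 2 : ℝ)) := by
  classical
  have hL := h.ln
  set x : M → ℝ := fun a => Real.exp (-(3 / 2 * lN N a)) with hx
  have hx0 : ∀ a, 0 ≤ x a := fun a => (Real.exp_pos _).le
  have hl2 : 0 < Real.log 2 := Real.log_pos (by norm_num)
  have hxp : ∀ p, Prime p → x p ≤ 1 / 2 := fun p hp => by
    have h3 := hL.prime p hp
    have h4 : Real.exp (-(3 / 2 * lN N p)) ≤ Real.exp (-Real.log 2) :=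
      Real.exp_le_exp.mpr (by nlinarith)
    rw [Real.exp_neg (Real.log 2), Real.exp_log (by norm_num)] at h4
    simp only [hx]
    linarith
  refine summable_of_sum_le (c := Real.exp (2 * (48 * n / Real.log 2))) (fun a => by positivity)
    fun u => ?_
  have e1 : ∑ a ∈ u, (N a : ℝ) ^ (-(3 / 2 : ℝ)) ≤ ∑ a ∈ u.erase 0, x a := by
    by_cases h0 : (0 : M) ∈ u
    · rw [← Finset.add_sum_erase u _ h0, map_zero, Nat.cast_zero, Real.zero_rpow (by norm_num),
        zero_add]
      refine le_of_eq (Finset.sum_congr rfl fun a ha => ?_)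
      simp only [hx]
      rw [exp_lN h (Finset.mem_erase.mp ha).1]
    · rw [Finset.erase_eq_of_notMem h0]
      refine le_of_eq (Finset.sum_congr rfl fun a ha => ?_)
      simp only [hx]
      rw [exp_lN h (fun h' => h0 (h' ▸ ha))]
  refine e1.trans ?_
  set S : Finset M := (u.erase 0).biUnion primeFactors with hS
  have hSp : ∀ p ∈ S, Prime p := by
    intro p hp
    rw [hS, Finset.mem_biUnion] at hp
    obtain ⟨a, -, ha⟩ := hp
    exact nf_prime ha
  have key := euler_gen x (fun p k => x p ^ k) (fun p => 1 + 2 * x p) (by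
      simp only [hx]
      rw [hL.one]; simp) hx0 (fun p k => pow_nonneg (hx0 p) k) S hSp
    (fun p hp k c hc _ => by
      have hpp := hSp p hp
      simp only [hx]
      rw [hL.mul _ _ (pow_ne_zero k hpp.ne_zero) hc, lN_pow N p k, ← Real.exp_nat_mul,
        ← Real.exp_add]
      refine le_of_eq ?_
      congr 1
      ring)
    (fun p hp K => by
      have h3 := hxp p (hSp p hp)
      have h4 := hx0 p
      have h5 := (summable_geometric_of_lt_one h4 (by linarith)).sum_le_tsum
        (Finset.range K) fun k _ => pow_nonneg h4 k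
      rw [tsum_geometric_of_lt_one h4 (by linarith)] at h5
      refine h5.trans ?_
      rw [inv_le_iff_one_le_mul₀ (by linarith)]
      nlinarith)
    (u.erase 0) (fun a ha => ⟨(Finset.mem_erase.mp ha).1, Finset.subset_biUnion_of_mem _ ha⟩)
  refine key.trans ?_
  calc ∏ p ∈ S, (1 + 2 * x p) ≤ ∏ p ∈ S, Real.exp (2 * x p) := by
        refine Finset.prod_le_prod (fun p _ => by have := hx0 p; positivity) fun p _ => ?_
        have := Real.add_one_le_exp (2 * x p)
        linarith
    _ = Real.exp (2 * ∑ p ∈ S, x p) := by rw [← Real.exp_sum, Finset.mul_sum]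
    _ ≤ _ := by
        refine Real.exp_le_exp.mpr (mul_le_mul_of_nonneg_left ?_ (by norm_num))
        rw [le_div_iff₀ hl2, Finset.sum_mul]
        have h3 := hL.sum S hSp (3 / 2) (by norm_num) (by norm_num)
        refine le_trans (Finset.sum_le_sum fun p hp => ?_) (h3.trans (le_of_eq (by norm_num; ring)))
        rw [mul_comm]
        exact mul_le_mul_of_nonneg_right (hL.prime p (hSp p hp)) (hx0 p)

/-- **the number of the elements of a given norm** -/
theorem NS.fin_card (h : NS N n) {m : ℕ} (hm : m ≠ 0) :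
    {a : M | N a = m}.Finite ∧ {a : M | N a = m}.ncard ≤ m.divisors.card ^ n := by
  classical
  set P : Finset M := m.primeFactors.attach.biUnion (fun q =>
    (h.ab q.1 (Nat.prime_of_mem_primeFactors q.2)).1.toFinset) with hP
  have hPm : ∀ p : M, p ∈ P ↔ Prime p ∧ ∃ q ∈ m.primeFactors, q ∣ N p := by
    intro p
    rw [hP, Finset.mem_biUnion]
    constructor
    · rintro ⟨q, -, hq⟩
      rw [Set.Finite.mem_toFinset] at hq
      exact ⟨hq.1, q.1, q.2, hq.2⟩
    · rintro ⟨hp, q, hq, hqp⟩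
      exact ⟨⟨q, hq⟩, Finset.mem_attach _ _, by rw [Set.Finite.mem_toFinset]; exact ⟨hp, hqp⟩⟩
  have ha0 : ∀ a : M, N a = m → a ≠ 0 := by
    rintro a ha rfl
    rw [map_zero] at ha
    exact hm ha.symm
  have hpf : ∀ a : M, N a = m → ∀ p ∈ normalizedFactors a, p ∈ P := by
    intro a ha p hp
    have hpp := prime_of_normalized_factor p hp
    obtain ⟨f, hq, hf1, -, hNp⟩ := h.pp' hpp
    rw [hPm]
    refine ⟨hpp, (N p).minFac, ?_, Nat.minFac_dvd _⟩
    rw [Nat.mem_primeFactors]
    refine ⟨hq, ?_, hm⟩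
    rw [← ha]
    exact (Nat.minFac_dvd _).trans (NS.dvd N (dvd_of_mem_normalizedFactors hp))
  have hminP : ∀ p ∈ P, (N p).minFac ∈ m.primeFactors := by
    intro p hp
    obtain ⟨hpp, q, hq, hqp⟩ := (hPm p).mp hp
    obtain ⟨f, hq', hf1, -, hNp⟩ := h.pp' hpp
    have : q = (N p).minFac := by
      rw [hNp] at hqp
      exact (Nat.prime_dvd_prime_iff_eq (Nat.prime_of_mem_primeFactors hq) hq').mp
        ((Nat.prime_of_mem_primeFactors hq).dvd_of_dvd_pow hqp)
    rwa [← this]
  set φ : M → ({x // x ∈ P} → ℕ) := fun a p => (normalizedFactors a).count p.1 with hφ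
  set T : Finset ({x // x ∈ P} → ℕ) := Fintype.piFinset (fun p : {x // x ∈ P} =>
    Finset.range (m.factorization ((N p.1).minFac) + 1)) with hT
  have hmaps : ∀ a : M, N a = m → φ a ∈ T := by
    intro a ha
    rw [hT, Fintype.mem_piFinset]
    rintro ⟨p, hp⟩
    rw [Finset.mem_range, Nat.lt_succ_iff]
    simp only [hφ]
    obtain ⟨hpp, -⟩ := (hPm p).mp hp
    obtain ⟨f, hq, hf1, -, hNp⟩ := h.pp' hpp
    have h1 : p ^ (normalizedFactors a).count p ∣ a := by
      have h2 : Multiset.replicate ((normalizedFactors a).count p) p ≤ normalizedFactors a :=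
        Multiset.le_count_iff_replicate_le.mp le_rfl
      have h3 := Multiset.prod_dvd_prod_of_le h2
      rw [Multiset.prod_replicate] at h3
      exact h3.trans (prod_normalizedFactors (ha0 a ha)).dvd
    have h2 := NS.dvd N h1
    rw [ha, map_pow, hNp, ← pow_mul] at h2
    have h3 := (hq.pow_dvd_iff_le_factorization hm).mp h2
    exact (Nat.le_mul_of_pos_left _ (by omega)).trans h3
  have hinj : Set.InjOn φ {a : M | N a = m} := by
    intro a ha b hb hab
    have ha' : N a = m := ha
    have hb' : N b = m := hb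
    have h1 : normalizedFactors a = normalizedFactors b := by
      rw [Multiset.ext]
      intro p
      by_cases hp : p ∈ P
      · exact congrFun hab ⟨p, hp⟩
      · rw [Multiset.count_eq_zero_of_notMem fun h' => hp (hpf a ha' p h'),
          Multiset.count_eq_zero_of_notMem fun h' => hp (hpf b hb' p h')]
    have h2 := prod_normalizedFactors (ha0 a ha')
    have h3 := prod_normalizedFactors (ha0 b hb')
    rw [h1] at h2
    exact associated_iff_eq.mp (h2.symm.trans h3)
  have hmapsS : Set.MapsTo φ {a : M | N a = m} (T : Set _) := fun a ha => hmaps a ha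
  have hfin : {a : M | N a = m}.Finite := Set.Finite.of_injOn hmapsS hinj T.finite_toSet
  refine ⟨hfin, ?_⟩
  have h1 := Set.ncard_le_ncard_of_injOn φ hmapsS hinj T.finite_toSet
  rw [Set.ncard_coe_finset, hT, Fintype.card_piFinset] at h1
  simp only [Finset.card_range] at h1
  rw [Finset.prod_coe_sort P (fun p => m.factorization ((N p).minFac) + 1)] at h1
  refine h1.trans ?_
  rw [← Finset.prod_fiberwise_of_maps_to hminP, Nat.card_divisors hm, ← Finset.prod_pow]
  refine Finset.prod_le_prod' fun q hq => ?_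
  have h2 : ∀ p ∈ P.filter (fun p => (N p).minFac = q), m.factorization ((N p).minFac) + 1 =
      m.factorization q + 1 := fun p hp => by rw [(Finset.mem_filter.mp hp).2]
  rw [Finset.prod_congr rfl h2, Finset.prod_const]
  refine Nat.pow_le_pow_right (by omega) ?_
  obtain ⟨h6, h7⟩ := h.ab q (Nat.prime_of_mem_primeFactors hq)
  have h8 : ((P.filter (fun p => (N p).minFac = q) : Finset M) : Set M) ⊆
      {p : M | Prime p ∧ q ∣ N p} := by
    intro p hp
    rw [Finset.mem_coe, Finset.mem_filter] at hp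
    exact ⟨((hPm p).mp hp.1).1, hp.2 ▸ Nat.minFac_dvd _⟩
  have h9 := Set.ncard_le_ncard h8 h6
  rw [Set.ncard_coe_finset] at h9
  exact h9.trans h7

open Classical in
/-- the elements of norm between `1` and `X` -/
noncomputable def SI (N : M →*₀ ℕ) (X : ℕ) : Finset M :=
  if h : {a : M | 1 ≤ N a ∧ N a ≤ X}.Finite then h.toFinset else ∅

lemma NS.mem_SI (h : NS N n) {X : ℕ} {a : M} : a ∈ SI N X ↔ 1 ≤ N a ∧ N a ≤ X := by
  have hf : {a : M | 1 ≤ N a ∧ N a ≤ X}.Finite := by
    have h1 : {a : M | 1 ≤ N a ∧ N a ≤ X} ⊆ ⋃ m ∈ Finset.Icc 1 X, {a : M | N a = m} := by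
      intro a ha
      rw [Set.mem_iUnion₂]
      exact ⟨N a, Finset.mem_Icc.mpr ha, rfl⟩
    refine Set.Finite.subset (Set.Finite.biUnion (Finset.finite_toSet _) fun m hm => ?_) h1
    have := (Finset.mem_Icc.mp (Finset.mem_coe.mp hm)).1
    exact (h.fin_card (by omega)).1
  unfold SI
  rw [dif_pos hf, Set.Finite.mem_toFinset]
  exact Iff.rfl

lemma NS.SI_ne (h : NS N n) {X : ℕ} {a : M} (ha : a ∈ SI N X) : a ≠ 0 := by
  rintro rfl
  have := (h.mem_SI.mp ha).1
  rw [map_zero] at this
  omega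

lemma NS.SI_of (h : NS N n) {X : ℕ} {a : M} (ha : a ≠ 0) (hX : N a ≤ X) : a ∈ SI N X :=
  h.mem_SI.mpr ⟨h.pos ha, hX⟩

/-- the weight -/
noncomputable def wN (N : M →*₀ ℕ) (n : ℕ) (a : M) : ℝ := ((N a).divisors.card : ℝ) ^ n

open Classical in
/-- **the sums over the elements of the same norm** -/
theorem NS.nsum_le (h : NS N n) (X : ℕ) (u : M → ℝ) :
    ∑ m ∈ Finset.Icc 1 X, (∑ a ∈ (SI N X).filter (fun a => N a = m), u a) ^ 2 ≤
      ∑ a ∈ SI N X, wN N n a * u a ^ 2 := by
  have hmaps : ∀ a ∈ SI N X, N a ∈ Finset.Icc 1 X := fun a ha => Finset.mem_Icc.mpr (h.mem_SI.mp ha)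
  rw [← Finset.sum_fiberwise_of_maps_to hmaps (fun a => wN N n a * u a ^ 2)]
  refine Finset.sum_le_sum fun m hm => ?_
  have hm0 : m ≠ 0 := by
    have := (Finset.mem_Icc.mp hm).1
    omega
  refine (sq_sum_le_card_mul_sum_sq (s := (SI N X).filter (fun a => N a = m)) (f := u)).trans ?_
  rw [Finset.mul_sum]
  refine Finset.sum_le_sum fun a ha => ?_
  refine mul_le_mul_of_nonneg_right ?_ (sq_nonneg _)
  unfold wN
  rw [(Finset.mem_filter.mp ha).2]
  obtain ⟨h1, h2⟩ := h.fin_card hm0
  have h3 : (((SI N X).filter (fun a => N a = m) : Finset M) : Set M) ⊆ {a : M | N a = m} := by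
    intro b hb
    exact (Finset.mem_filter.mp (Finset.mem_coe.mp hb)).2
  have h4 := Set.ncard_le_ncard h3 h1
  rw [Set.ncard_coe_finset] at h4
  exact_mod_cast h4.trans h2

/-- the number of divisors is submultiplicative -/
lemma card_div_mul (a b : ℕ) : (a * b).divisors.card ≤ a.divisors.card * b.divisors.card := by
  rw [Nat.divisors_mul]
  exact Finset.card_mul_le

/-- **the weight** -/
theorem NS.wgt (h : NS N n) : ∃ G : ℝ, Wgt (wN N n) (fun k => ((n : ℝ) * k + 1) ^ n) G := by
  have hs : Summable fun k : ℕ => ((n : ℝ) * (k + 1 : ℕ) + 1) ^ n * (1 / 2 : ℝ) ^ k := by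
    have h1 : Summable fun k : ℕ => ((k : ℕ) : ℝ) ^ n * (1 / 2 : ℝ) ^ k :=
      summable_pow_mul_geometric_of_norm_lt_one n (by norm_num)
    have h2 := (summable_nat_add_iff 1).mpr h1
    refine Summable.of_nonneg_of_le (fun k => by positivity) (fun k => ?_)
      (h2.mul_left ((2 * n + 1 : ℝ) ^ n * 2))
    have h3 : ((n : ℝ) * (k + 1 : ℕ) + 1) ≤ (2 * n + 1) * (k + 1 : ℕ) := by
      push_cast
      have : (0 : ℝ) ≤ n := Nat.cast_nonneg _
      have : (0 : ℝ) ≤ k := Nat.cast_nonneg _
      nlinarith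
    calc ((n : ℝ) * (k + 1 : ℕ) + 1) ^ n * (1 / 2 : ℝ) ^ k ≤
        ((2 * n + 1) * (k + 1 : ℕ)) ^ n * (1 / 2 : ℝ) ^ k := by gcongr
      _ = _ := by rw [mul_pow, pow_succ (1 / 2 : ℝ) k]; ring
  refine ⟨∑' k : ℕ, ((n : ℝ) * (k + 1 : ℕ) + 1) ^ n * (1 / 2 : ℝ) ^ k, ?_, ?_, ?_, ?_, ?_, ?_⟩
  · unfold wN
    rw [map_one]
    simp
  · intro a
    unfold wN
    positivity
  · simp
  · intro k
    positivity
  · intro p hp k c _ _
    unfold wN
    rw [map_mul, map_pow]
    obtain ⟨f, hq, hf1, hfn, hNp⟩ := h.pp' hp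
    rw [← mul_pow]
    refine pow_le_pow_left₀ (Nat.cast_nonneg _) ?_ n
    have h1 := card_div_mul ((N p) ^ k) (N c)
    have h2 : ((N p) ^ k).divisors.card ≤ n * k + 1 := by
      rw [hNp, ← pow_mul, Nat.divisors_prime_pow hq, Finset.card_map, Finset.card_range]
      exact Nat.succ_le_succ (Nat.mul_le_mul_right _ hfn)
    have h3 := h1.trans (Nat.mul_le_mul_right _ h2)
    exact_mod_cast h3
  · intro K
    exact hs.sum_le_tsum _ fun k _ => by positivity

/-- the number of prime factors -/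
theorem NS.omega (h : NS N n) {e : ℝ} (he : 0 < e) : ∃ C : ℝ, 1 ≤ C ∧ ∀ a : M, a ≠ 0 →
    (2 : ℝ) ^ (primeFactors a).card ≤ C * (N a : ℝ) ^ e := by
  classical
  obtain ⟨X, hX⟩ : ∃ X : ℕ, (2 : ℝ) ^ (1 / e) ≤ X := ⟨_, Nat.le_ceil _⟩
  set Q : Finset M := SI N X with hQ
  refine ⟨2 ^ Q.card, one_le_pow₀ (by norm_num), fun a ha => ?_⟩
  have h1 : ∀ p ∈ primeFactors a, (2 : ℝ) ≤ (if p ∈ Q then 2 else 1) * (N p : ℝ) ^ e := by
    intro p hp
    have hpp := nf_prime hp
    have h2 : (1 : ℝ) ≤ N p := by exact_mod_cast h.pos hpp.ne_zero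
    split_ifs with h3
    · have : 1 ≤ (N p : ℝ) ^ e := Real.one_le_rpow h2 he.le
      linarith
    · have h4 : X < N p := by
        by_contra h5
        push Not at h5
        exact h3 (h.SI_of hpp.ne_zero h5)
      have h5 : (2 : ℝ) ^ (1 / e) ≤ N p := hX.trans (by exact_mod_cast h4.le)
      have h6 := Real.rpow_le_rpow (by positivity) h5 he.le
      rw [← Real.rpow_mul (by norm_num), one_div_mul_cancel he.ne', Real.rpow_one] at h6
      rw [one_mul]
      exact h6
  calc (2 : ℝ) ^ (primeFactors a).card = ∏ _p ∈ primeFactors a, (2 : ℝ) := by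
        rw [Finset.prod_const]
    _ ≤ ∏ p ∈ primeFactors a, ((if p ∈ Q then (2 : ℝ) else 1) * (N p : ℝ) ^ e) :=
        Finset.prod_le_prod (fun _ _ => by norm_num) h1
    _ = (∏ p ∈ primeFactors a, (if p ∈ Q then (2 : ℝ) else 1)) *
        ∏ p ∈ primeFactors a, (N p : ℝ) ^ e := Finset.prod_mul_distrib
    _ ≤ 2 ^ Q.card * (N a : ℝ) ^ e := by
        have h2 : ∏ p ∈ primeFactors a, (if p ∈ Q then (2 : ℝ) else 1) ≤ 2 ^ Q.card := by
          rw [Finset.prod_ite, Finset.prod_const, Finset.prod_const_one, mul_one]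
          refine pow_le_pow_right₀ (by norm_num) (Finset.card_le_card fun p hp => ?_)
          exact (Finset.mem_filter.mp hp).2
        have h3 : ∏ p ∈ primeFactors a, (N p : ℝ) ^ e ≤ (N a : ℝ) ^ e := by
          have h4 : ∏ p ∈ primeFactors a, (N p : ℝ) ^ e =
              ((N (pd (primeFactors a)) : ℕ) : ℝ) ^ e := by
            unfold pd
            rw [map_prod, Nat.cast_prod, ← Real.finsetProd_rpow _ _ fun p _ => Nat.cast_nonneg _]
            rfl
          rw [h4]
          refine Real.rpow_le_rpow (Nat.cast_nonneg _) ?_ he.le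
          exact_mod_cast Nat.le_of_dvd (h.pos ha) (NS.dvd N (pd_dvd ha (Finset.Subset.refl _)))
        gcongr

end

end Pool.Agent.T9h27.D
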