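import Pool.Agent.T9h27.D.Ns
import Pool.Agent.N786.D.Sup3

/-!
# Dirichlet polynomials over a monoid with a norm (helper27, after helper786)
-/

set_option autoImplicit false
set_option linter.unusedSectionVars false

open UniqueFactorizationMonoid MeasureTheory Complex Filter Topology Set

namespace Pool.Agent.T9h27.D

open Pool.Agent.N786.D
open Pool.Agent.R399.TW (pt pt_re pt_im pt_cont)

section

variable {M : Type} [CommMonoidWithZero M] [NormalizationMonoid M] [UniqueFactorizationMonoid M]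
  [Subsingleton Mˣ] [Nontrivial M] {N : M →*₀ ℕ} {n : ℕ}

/-- `N(a)^(-it)` -/
noncomputable def ph (N : M →*₀ ℕ) (a : M) (t : ℝ) : ℂ :=
  cexp (-(((t * Real.log (N a) : ℝ) : ℂ) * I))

lemma ph_cont (N : M →*₀ ℕ) (a : M) : Continuous (ph N a) := by
  unfold ph; fun_prop

/-- the Dirichlet polynomial with coefficients `g a` -/
noncomputable def dpo (N : M →*₀ ℕ) (X : ℕ) (g : M → ℂ) (χ : M →*₀ ℂ) (s : ℂ) : ℂ :=
  ∑ a ∈ SI N X, g a * χ a * cexp (-(s * (lN N a : ℂ)))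

lemma dpo_diff (N : M →*₀ ℕ) (X : ℕ) (g : M → ℂ) (χ : M →*₀ ℂ) :
    Differentiable ℂ (dpo N X g χ) := by
  unfold dpo
  fun_prop

lemma exp_pt (N : M →*₀ ℕ) (x t : ℝ) (a : M) :
    cexp (-(pt x t * (lN N a : ℂ))) = (Real.exp (-(x * lN N a)) : ℂ) * ph N a t := by
  unfold ph pt lN
  rw [Complex.ofReal_exp, ← Complex.exp_add]
  congr 1
  push_cast
  ring

/-- the coefficients of the mollified product -/
lemma bc_extract (L : M → ℝ) (F₂ F₁ : ℝ → ℂ) (x : ℝ) (a : M) :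
    bc L (fun y => F₂ y * (Real.exp (-(x * y)) : ℂ)) (fun y => F₁ y * (Real.exp (-(x * y)) : ℂ)) a =
      (Real.exp (-(x * L a)) : ℂ) * bc L F₂ F₁ a := by
  unfold bc
  rw [Finset.mul_sum]
  refine Finset.sum_congr rfl fun T _ => ?_
  have e1 : (Real.exp (-(x * L a)) : ℂ) = (Real.exp (-(x * L (pd T))) : ℂ) *
      (Real.exp (-(x * (L a - L (pd T)))) : ℂ) := by
    rw [← Complex.ofReal_mul, ← Real.exp_add]
    congr 2
    ring
  rw [e1]
  ring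

/-- the trivial bound for the coefficients -/
lemma bc_le (L : M → ℝ) (F₂ F₁ : ℝ → ℂ) {B₁ B₂ : ℝ} (h1 : ∀ y, ‖F₁ y‖ ≤ B₁)
    (h2 : ∀ y, ‖F₂ y‖ ≤ B₂) (a : M) :
    ‖bc L F₂ F₁ a‖ ≤ 2 ^ (primeFactors a).card * (B₂ * B₁) := by
  unfold bc
  have hB₂ : 0 ≤ B₂ := (norm_nonneg _).trans (h2 0)
  refine (norm_sum_le _ _).trans ?_
  calc ∑ T ∈ (primeFactors a).powerset, ‖(-1 : ℂ) ^ T.card * F₂ (L (pd T)) * F₁ (L a - L (pd T))‖ ≤
      ∑ _T ∈ (primeFactors a).powerset, B₂ * B₁ := by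
        refine Finset.sum_le_sum fun T _ => ?_
        rw [norm_mul, norm_mul, norm_pow, norm_neg, norm_one, one_pow, one_mul]
        exact mul_le_mul (h2 _) (h1 _) (norm_nonneg _) hB₂
    _ = _ := by rw [Finset.sum_const, Finset.card_powerset, nsmul_eq_mul]; push_cast; ring

open Classical in
/-- the product of two Dirichlet polynomials, the second with the Moebius function -/
theorem prod_eq (h : NS N n) (M₁ M₂ : ℕ) (F₁ F₂ : ℝ → ℂ) (χ : M →*₀ ℂ)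
    (h1 : ∀ y, Real.log (M₁ + 1 : ℕ) ≤ y → F₁ y = 0)
    (h2 : ∀ y, Real.log (M₂ + 1 : ℕ) ≤ y → F₂ y = 0) (t : ℝ) :
    (∑ a ∈ SI N M₁, F₁ (lN N a) * χ a * ph N a t) *
      (∑ a ∈ SI N M₂, (mob a * F₂ (lN N a)) * χ a * ph N a t) =
      ∑ a ∈ SI N (M₁ * M₂), bc (lN N) F₂ F₁ a * χ a * ph N a t := by
  have hbig : ∀ (X : ℕ) (F : ℝ → ℂ), (∀ y, Real.log (X + 1 : ℕ) ≤ y → F y = 0) →
      ∀ d : M, d ≠ 0 → d ∉ SI N X → F (lN N d) = 0 := by
    intro X F hF d hd hdM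
    refine hF _ ?_
    have h3 : ¬ N d ≤ X := fun h' => hdM (h.SI_of hd h')
    exact Real.log_le_log (by positivity) (by exact_mod_cast (by omega : X + 1 ≤ N d))
  have hph : ∀ a b : M, a ≠ 0 → b ≠ 0 → ph N (a * b) t = ph N a t * ph N b t := by
    intro a b ha hb
    have := h.ln.mul a b ha hb
    unfold lN at this
    unfold ph
    rw [this, ← Complex.exp_add]
    congr 1
    push_cast
    ring
  rw [Finset.sum_mul_sum, ← Finset.sum_product']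
  have hmaps : ∀ q ∈ SI N M₁ ×ˢ SI N M₂, q.1 * q.2 ∈ SI N (M₁ * M₂) := by
    intro q hq
    rw [Finset.mem_product] at hq
    refine h.SI_of (mul_ne_zero (h.SI_ne hq.1) (h.SI_ne hq.2)) ?_
    rw [map_mul]
    exact Nat.mul_le_mul (h.mem_SI.mp hq.1).2 (h.mem_SI.mp hq.2).2
  rw [← Finset.sum_fiberwise_of_maps_to hmaps]
  refine Finset.sum_congr rfl fun a ha => ?_
  rw [← conv_eq h.ln (h.SI_ne ha) (SI N M₁) (SI N M₂) F₁ F₂ (hbig M₁ F₁ h1) (hbig M₂ F₂ h2),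
    Finset.sum_mul, Finset.sum_mul]
  refine Finset.sum_congr rfl fun q hq => ?_
  rw [Finset.mem_filter, Finset.mem_product] at hq
  rw [← hq.2, map_mul, hph _ _ (h.SI_ne hq.1.1) (h.SI_ne hq.1.2)]
  ring

open Classical in
/-- the large sieve inequality for the family `χ`, windows of length `H`, length `X`, constant
`P`, up to sums over elements of the same norm, and a remainder -/
def LSU (N : M →*₀ ℕ) {ι : Type} (S : Finset ι) (χ : ι → M →*₀ ℂ) (H P e : ℝ) (X : ℕ) : Prop :=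
  ∀ (u : M → ℂ) (B t₁ : ℝ), 0 ≤ B → (∀ a ∈ SI N X, ‖u a‖ ≤ B * (N a : ℝ) ^ (e - 1 / 2)) →
    ∑ i ∈ S, ∫ t in t₁..(t₁ + H), ‖∑ a ∈ SI N X, u a * χ i a * ph N a t‖ ^ 2 ≤
      P * (∑ m ∈ Finset.Icc 1 X, (∑ a ∈ (SI N X).filter (fun a => N a = m), ‖u a‖) ^ 2 + B ^ 2)

/-- the approximating Dirichlet polynomial -/
noncomputable def Dp (N : M →*₀ ℕ) (φ : ℝ → ℝ) (R : ℝ) (M₁ : ℕ) (χ : M →*₀ ℂ) (s : ℂ) : ℂ :=
  dpo N M₁ (fun a => (φ (lN N a / R) : ℂ)) χ s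

/-- the mollifier -/
noncomputable def Mp (N : M →*₀ ℕ) (θ : ℝ → ℝ) (R : ℝ) (M₂ : ℕ) (χ : M →*₀ ℂ) (s : ℂ) : ℂ :=
  dpo N M₂ (fun a => mob a * (θ (lN N a / R) : ℂ)) χ s

lemma log_floor_succ {x : ℝ} : x ≤ Real.log ((⌊Real.exp x⌋₊ + 1 : ℕ) : ℝ) := by
  rw [Real.le_log_iff_exp_le (by positivity)]
  push_cast
  exact (Nat.lt_floor_add_one _).le

lemma Cutf_bdd {a b : ℝ} {f : ℝ → ℝ} (h : Cutf a b f) (hb : 0 ≤ b) (c : ℝ) :
    ∀ x, |f x * Real.exp (c * x)| ≤ Real.exp (|c| * b) := by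
  intro x
  by_cases hx : b ≤ |x|
  · rw [h.zero x hx, zero_mul, abs_zero]
    exact (Real.exp_pos _).le
  · push Not at hx
    rw [abs_mul, abs_of_nonneg (h.nn x), Real.abs_exp]
    have h1 : Real.exp (c * x) ≤ Real.exp (|c| * b) := by
      refine Real.exp_le_exp.mpr ((le_abs_self _).trans ?_)
      rw [abs_mul]
      exact mul_le_mul_of_nonneg_left hx.le (abs_nonneg c)
    calc f x * Real.exp (c * x) ≤ 1 * Real.exp (|c| * b) :=
          mul_le_mul (h.le x) h1 (Real.exp_pos _).le zero_le_one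
      _ = _ := one_mul _

open Classical in
/-- **the mean square of the mollified Dirichlet polynomials** -/
theorem ls_JJ (h : NS N n) {α₁ α₂ β₁ β₂ : ℝ} {φ θ : ℝ → ℝ}
    (hφ : Cutf α₁ α₂ φ) (hθ : Cutf β₁ β₂ θ) (hα : 0 < α₂) (hβ : 0 < β₂) {G : ℝ}
    (hG : Wgt (wN N n) (fun k => ((n : ℝ) * k + 1) ^ n) G) {k : ℕ}
    (hk : 16 * G * (24 * (n : ℝ)) ≤ k) {e : ℝ} (he : 0 < e) (c : ℝ) :
    ∃ a : ℝ, 0 ≤ a ∧ ∀ (R δ : ℝ), 0 < R → 1 / 2 ≤ R * δ → δ ≤ 1 / 4 →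
      ∀ (ι : Type) (S : Finset ι) (χ : ι → M →*₀ ℂ) (H P : ℝ), 0 ≤ H → 0 ≤ P →
      LSU N S χ H P e (⌊Real.exp (α₂ * R)⌋₊ * ⌊Real.exp (β₂ * R)⌋₊) →
      ∀ t₀ v₁ : ℝ, JJ S (fun i => Dp N φ R ⌊Real.exp (α₂ * R)⌋₊ (χ i))
        (fun i => Mp N θ R ⌊Real.exp (β₂ * R)⌋₊ (χ i)) (1 / 2 + δ - c / R) (1 / 2 + δ) H t₀ v₁ ≤
      ENNReal.ofReal (P * a * (1 + R * |v₁|) ^ k) := by
  obtain ⟨g₁, h₁⟩ := hφ.fr c
  obtain ⟨g₂, h₂⟩ := hθ.fr 0
  obtain ⟨C, hC0, hC⟩ := bc_sqW h.ln h₁ h₂ hk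
  obtain ⟨Co, hCo, hCo'⟩ := h.omega he
  obtain ⟨B, hB⟩ : ∃ B : ℝ, B = Co * (Real.exp (|0| * β₂) * Real.exp (|c| * α₂)) := ⟨_, rfl⟩
  have hB0 : 0 ≤ B := by rw [hB]; positivity
  refine ⟨C + B ^ 2, by positivity, ?_⟩
  intro R δ hR hRδ hδ ι S χ H P hH hP hls t₀ v₁
  obtain ⟨M₁, hM₁⟩ : ∃ M₁ : ℕ, M₁ = ⌊Real.exp (α₂ * R)⌋₊ := ⟨_, rfl⟩
  obtain ⟨M₂, hM₂⟩ : ∃ M₂ : ℕ, M₂ = ⌊Real.exp (β₂ * R)⌋₊ := ⟨_, rfl⟩
  rw [← hM₁, ← hM₂] at hls ⊢
  have hδ0 : 0 < δ := by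
    by_contra h
    push Not at h
    nlinarith
  -- the weights
  set G₁ : ℝ → ℂ := fun y => ((φ (y / R) * Real.exp (c * (y / R)) : ℝ) : ℂ) with hG₁
  set G₂ : ℝ → ℂ := fun y => ((θ (y / R) * Real.exp (0 * (y / R)) : ℝ) : ℂ) *
    cexp (((v₁ * y : ℝ) : ℂ) * I) with hG₂
  set F₁ : ℝ → ℂ := fun y => G₁ y * (Real.exp (-((1 / 2 + δ) * y)) : ℂ) with hF₁
  set F₂ : ℝ → ℂ := fun y => G₂ y * (Real.exp (-((1 / 2 + δ) * y)) : ℂ) with hF₂
  have z1 : ∀ y, Real.log (M₁ + 1 : ℕ) ≤ y → F₁ y = 0 := by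
    intro y hy
    have h3 : α₂ * R ≤ y := by
      refine le_trans ?_ hy
      rw [hM₁]
      exact log_floor_succ
    have h4 : φ (y / R) = 0 := by
      refine hφ.zero _ (le_trans ?_ (le_abs_self _))
      rw [le_div_iff₀ hR]
      exact h3
    simp only [hF₁, hG₁, h4]
    simp
  have z2 : ∀ y, Real.log (M₂ + 1 : ℕ) ≤ y → F₂ y = 0 := by
    intro y hy
    have h3 : β₂ * R ≤ y := by
      refine le_trans ?_ hy
      rw [hM₂]
      exact log_floor_succ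
    have h4 : θ (y / R) = 0 := by
      refine hθ.zero _ (le_trans ?_ (le_abs_self _))
      rw [le_div_iff₀ hR]
      exact h3
    simp only [hF₂, hG₂, h4]
    simp
  have hprod : ∀ i : ι, ∀ t : ℝ, Dp N φ R M₁ (χ i) (pt (1 / 2 + δ - c / R) t) *
      Mp N θ R M₂ (χ i) (pt (1 / 2 + δ) (t - v₁)) =
      ∑ a ∈ SI N (M₁ * M₂), bc (lN N) F₂ F₁ a * χ i a * ph N a t := by
    intro i t
    rw [← prod_eq h M₁ M₂ F₁ F₂ (χ i) z1 z2 t]
    unfold Dp Mp dpo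
    congr 1
    · refine Finset.sum_congr rfl fun a _ => ?_
      rw [exp_pt]
      have e1 : ((φ (lN N a / R) : ℝ) : ℂ) * (Real.exp (-((1 / 2 + δ - c / R) * lN N a)) : ℂ) =
          F₁ (lN N a) := by
        simp only [hF₁, hG₁]
        rw [← Complex.ofReal_mul, ← Complex.ofReal_mul, mul_assoc, ← Real.exp_add]
        congr 3
        ring
      rw [← e1]
      ring
    · refine Finset.sum_congr rfl fun a _ => ?_
      rw [exp_pt]
      have e2 : ph N a (t - v₁) = cexp (((v₁ * lN N a : ℝ) : ℂ) * I) * ph N a t := by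
        unfold ph lN
        rw [← Complex.exp_add]
        congr 1
        push_cast
        ring
      simp only [hF₂, hG₂, zero_mul, Real.exp_zero, mul_one]
      rw [e2]
      ring
  have hnorm : ∀ a : M, ‖bc (lN N) F₂ F₁ a‖ =
      Real.exp (-((1 / 2 + δ) * lN N a)) * ‖bc (lN N) G₂ G₁ a‖ := by
    intro a
    rw [hF₁, hF₂, bc_extract (lN N) G₂ G₁ (1 / 2 + δ) a, norm_mul, Complex.norm_real,
      Real.norm_of_nonneg (Real.exp_pos _).le]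
  have hcoef : ∀ a ∈ SI N (M₁ * M₂), wN N n a * ‖bc (lN N) F₂ F₁ a‖ ^ 2 =
      ‖bc (lN N) G₂ G₁ a‖ ^ 2 * (wN N n a * Real.exp (-((1 + 2 * δ) * lN N a))) := by
    intro a _
    rw [hnorm, mul_pow, ← Real.exp_nat_mul]
    have : ((2 : ℕ) : ℝ) * -((1 / 2 + δ) * lN N a) = -((1 + 2 * δ) * lN N a) := by
      push_cast; ring
    rw [this]
    ring
  have hsum : ∑ m ∈ Finset.Icc 1 (M₁ * M₂),
      (∑ a ∈ (SI N (M₁ * M₂)).filter (fun a => N a = m), ‖bc (lN N) F₂ F₁ a‖) ^ 2 ≤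
      C * (1 + R * |v₁|) ^ k := by
    refine (h.nsum_le (M₁ * M₂) fun a => ‖bc (lN N) F₂ F₁ a‖).trans ?_
    rw [Finset.sum_congr rfl hcoef]
    refine hC (1 + 2 * δ) R hR (by linarith) ?_ v₁ _
      (fun a => wN N n a * Real.exp (-((1 + 2 * δ) * lN N a)))
      (fun a => mul_nonneg (hG.nn a) (Real.exp_pos _).le) ?_
    · rw [div_le_iff₀ hR]
      nlinarith
    · intro θ'
      exact sq_sum2 h.ln hG (by linarith) (by linarith) θ' _ fun a ha => h.SI_ne ha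
  have hpt : ∀ a ∈ SI N (M₁ * M₂), ‖bc (lN N) F₂ F₁ a‖ ≤ B * (N a : ℝ) ^ (e - 1 / 2) := by
    intro a ha
    have ha0 := h.SI_ne ha
    have hN : 1 ≤ (N a : ℝ) := by exact_mod_cast h.pos ha0
    rw [hnorm]
    have h3 := bc_le (lN N) G₂ G₁ (B₁ := Real.exp (|c| * α₂)) (B₂ := Real.exp (|0| * β₂))
      (fun y => by
        simp only [hG₁]
        rw [Complex.norm_real]
        exact Cutf_bdd hφ hα.le c _)
      (fun y => by
        simp only [hG₂]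
        rw [norm_mul, Complex.norm_exp_ofReal_mul_I, mul_one, Complex.norm_real]
        exact Cutf_bdd hθ hβ.le 0 _) a
    have h4 : Real.exp (-((1 / 2 + δ) * lN N a)) ≤ (N a : ℝ) ^ (-(1 / 2) : ℝ) := by
      rw [exp_lN h ha0]
      exact Real.rpow_le_rpow_of_exponent_le hN (by linarith)
    have h5 := hCo' a ha0
    have h6 : 0 ≤ Real.exp (|0| * β₂) * Real.exp (|c| * α₂) := by positivity
    calc Real.exp (-((1 / 2 + δ) * lN N a)) * ‖bc (lN N) G₂ G₁ a‖ ≤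
        (N a : ℝ) ^ (-(1 / 2) : ℝ) * ((Co * (N a : ℝ) ^ e) *
          (Real.exp (|0| * β₂) * Real.exp (|c| * α₂))) := by
          refine mul_le_mul h4 (h3.trans ?_) (norm_nonneg _) (by positivity)
          exact mul_le_mul_of_nonneg_right h5 h6
      _ = B * ((N a : ℝ) ^ (-(1 / 2) : ℝ) * (N a : ℝ) ^ e) := by rw [hB]; ring
      _ = B * (N a : ℝ) ^ (e - 1 / 2) := by
          rw [← Real.rpow_add (by linarith)]
          congr 2
          ring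
  have hJ : JJ S (fun i => Dp N φ R M₁ (χ i)) (fun i => Mp N θ R M₂ (χ i))
      (1 / 2 + δ - c / R) (1 / 2 + δ) H t₀ v₁ = ENNReal.ofReal (∑ i ∈ S, ∫ t in t₀..(t₀ + H),
        ‖∑ a ∈ SI N (M₁ * M₂), bc (lN N) F₂ F₁ a * χ i a * ph N a t‖ ^ 2) := by
    unfold JJ
    rw [ENNReal.ofReal_sum_of_nonneg]
    · refine Finset.sum_congr rfl fun i _ => ?_
      rw [intervalIntegral.integral_of_le (by linarith), ← integral_Icc_eq_integral_Ioc,
        ofReal_integral_eq_lintegral_ofReal ?_ (Eventually.of_forall fun t => by positivity)]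
      · refine lintegral_congr fun t => ?_
        rw [← hprod i t, norm_mul, mul_pow]
      · have hc : Continuous fun t : ℝ =>
            ‖∑ a ∈ SI N (M₁ * M₂), bc (lN N) F₂ F₁ a * χ i a * ph N a t‖ ^ 2 := by
          unfold ph
          fun_prop
        exact hc.integrableOn_Icc
    · intro i _
      exact intervalIntegral.integral_nonneg (by linarith) fun t _ => by positivity
  rw [hJ]
  refine ENNReal.ofReal_le_ofReal ?_
  refine (hls _ B t₀ hB0 hpt).trans ?_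
  rw [mul_assoc]
  refine mul_le_mul_of_nonneg_left ?_ hP
  have h7 : 1 ≤ (1 + R * |v₁|) ^ k := by
    refine one_le_pow₀ ?_
    have : 0 ≤ R * |v₁| := by positivity
    linarith
  have h8 : B ^ 2 * 1 ≤ B ^ 2 * (1 + R * |v₁|) ^ k := mul_le_mul_of_nonneg_left h7 (sq_nonneg _)
  rw [mul_one] at h8
  calc _ ≤ C * (1 + R * |v₁|) ^ k + B ^ 2 * (1 + R * |v₁|) ^ k := add_le_add hsum h8
    _ = _ := by ring

end

end Pool.Agent.T9h27.D
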