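import Pool.Agent.T9h27.D.Pol

/-!
# Comparison of the Dirichlet polynomials with the Dirichlet series (helper27, after helper786)
-/

set_option autoImplicit false
set_option linter.unusedSectionVars false

open UniqueFactorizationMonoid MeasureTheory Complex Filter Topology Set

namespace Pool.Agent.T9h27.D

open Pool.Agent.N786.D
open Pool.Agent.R399.TW (pt pt_re pt_im pt_cont)

section

variable {M : Type} [CommMonoidWithZero M] [NormalizationMonoid M] [UniqueFactorizationMonoid M]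
  [Subsingleton Mˣ] [Nontrivial M] {N : M →*₀ ℕ} {n : ℕ}

/-- the constant -/
noncomputable def ZN (N : M →*₀ ℕ) : ℝ := ∑' a : M, (N a : ℝ) ^ (-(3 / 2 : ℝ))

lemma ZN_nonneg (N : M →*₀ ℕ) : 0 ≤ ZN N := tsum_nonneg fun a => by positivity

/-- the Dirichlet series -/
noncomputable def LA (N : M →*₀ ℕ) (g : M → ℂ) (s : ℂ) : ℂ := ∑' a : M, g a * ((N a : ℕ) : ℂ) ^ (-s)

lemma term_le (h : NS N n) {g : M → ℂ} (h0 : g 0 = 0) (h1 : ∀ a, ‖g a‖ ≤ 1) {s : ℂ}
    (hs : 3 / 2 ≤ s.re) (a : M) :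
    ‖g a * ((N a : ℕ) : ℂ) ^ (-s)‖ ≤ (N a : ℝ) ^ (-(3 / 2 : ℝ)) := by
  by_cases ha : a = 0
  · rw [ha, h0, zero_mul, norm_zero]
    positivity
  have hN : 1 ≤ (N a : ℝ) := by exact_mod_cast h.pos ha
  rw [norm_mul, Complex.norm_natCast_cpow_of_pos (h.pos ha), neg_re]
  calc ‖g a‖ * (N a : ℝ) ^ (-s.re) ≤ 1 * (N a : ℝ) ^ (-(3 / 2 : ℝ)) := by
        refine mul_le_mul (h1 a) ?_ (by positivity) zero_le_one
        exact Real.rpow_le_rpow_of_exponent_le hN (by linarith)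
    _ = _ := one_mul _

lemma term_summable (h : NS N n) {g : M → ℂ} (h0 : g 0 = 0) (h1 : ∀ a, ‖g a‖ ≤ 1) {s : ℂ}
    (hs : 3 / 2 ≤ s.re) : Summable fun a : M => ‖g a * ((N a : ℕ) : ℂ) ^ (-s)‖ :=
  Summable.of_nonneg_of_le (fun _ => norm_nonneg _) (fun a => term_le h h0 h1 hs a) h.sm

lemma LA_le (h : NS N n) {g : M → ℂ} (h0 : g 0 = 0) (h1 : ∀ a, ‖g a‖ ≤ 1) {s : ℂ}
    (hs : 3 / 2 ≤ s.re) : ‖LA N g s‖ ≤ ZN N :=
  tsum_of_norm_bounded h.sm.hasSum (fun a => term_le h h0 h1 hs a)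

lemma tail_le (h : NS N n) {g : M → ℂ} (h0 : g 0 = 0) (h1 : ∀ a, ‖g a‖ ≤ 1) {y : ℝ}
    (hg : ∀ a, a ≠ 0 → lN N a ≤ y → g a = 0) {s : ℂ} (hs : 3 / 2 ≤ s.re) :
    ‖LA N g s‖ ≤ Real.exp (-(y * (s.re - 3 / 2))) * ZN N := by
  unfold LA ZN
  rw [← tsum_mul_left]
  refine tsum_of_norm_bounded (h.sm.mul_left _).hasSum fun a => ?_
  have hE : 0 ≤ Real.exp (-(y * (s.re - 3 / 2))) := (Real.exp_pos _).le
  by_cases ha : a = 0
  · rw [ha, h0, zero_mul, norm_zero]
    positivity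
  by_cases hy : lN N a ≤ y
  · rw [hg a ha hy, zero_mul, norm_zero]
    positivity
  push Not at hy
  have hN : 0 < (N a : ℝ) := by exact_mod_cast h.pos ha
  rw [norm_mul, Complex.norm_natCast_cpow_of_pos (h.pos ha), neg_re]
  have e1 : (N a : ℝ) ^ (-s.re) =
      Real.exp (-(lN N a * (s.re - 3 / 2))) * (N a : ℝ) ^ (-(3 / 2 : ℝ)) := by
    unfold lN
    rw [Real.rpow_def_of_pos hN, Real.rpow_def_of_pos hN, ← Real.exp_add]
    congr 1
    ring
  rw [e1]
  have h2 : Real.exp (-(lN N a * (s.re - 3 / 2))) ≤ Real.exp (-(y * (s.re - 3 / 2))) := by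
    refine Real.exp_le_exp.mpr (neg_le_neg ?_)
    exact mul_le_mul_of_nonneg_right hy.le (by linarith)
  calc ‖g a‖ * (Real.exp (-(lN N a * (s.re - 3 / 2))) * (N a : ℝ) ^ (-(3 / 2 : ℝ))) ≤
      1 * (Real.exp (-(y * (s.re - 3 / 2))) * (N a : ℝ) ^ (-(3 / 2 : ℝ))) := by
        refine mul_le_mul (h1 a) ?_ (by positivity) zero_le_one
        exact mul_le_mul_of_nonneg_right h2 (by positivity)
    _ = _ := one_mul _

lemma dpo_series (h : NS N n) {X : ℕ} {g : M → ℂ} (χ : M →*₀ ℂ)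
    (hg : ∀ a, a ≠ 0 → a ∉ SI N X → g a = 0) (s : ℂ) :
    dpo N X g χ s = LA N (fun a => g a * χ a) s := by
  unfold dpo LA
  rw [tsum_eq_sum (s := SI N X)]
  · refine Finset.sum_congr rfl fun a ha => ?_
    have h1 : ((N a : ℕ) : ℂ) ≠ 0 := by
      exact_mod_cast (h.pos (h.SI_ne ha)).ne'
    rw [Complex.cpow_def_of_ne_zero h1, lN, ← Complex.natCast_log]
    congr 2
    ring
  · intro a ha
    beta_reduce
    by_cases ha' : a = 0
    · rw [ha', map_zero, mul_zero, zero_mul]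
    · rw [hg a ha' ha, zero_mul, zero_mul]

lemma not_SI (h : NS N n) {x : ℝ} {a : M} (ha : a ≠ 0) (h' : a ∉ SI N ⌊Real.exp x⌋₊) :
    x ≤ lN N a := by
  have h3 : ¬ N a ≤ ⌊Real.exp x⌋₊ := fun h'' => h' (h.SI_of ha h'')
  refine le_trans log_floor_succ (Real.log_le_log (by positivity) ?_)
  exact_mod_cast (by omega : ⌊Real.exp x⌋₊ + 1 ≤ N a)

lemma LA_sub (h : NS N n) {g g' : M → ℂ} (g0 : g 0 = 0) (g1 : ∀ a, ‖g a‖ ≤ 1) (h0 : g' 0 = 0)
    (h1 : ∀ a, ‖g' a‖ ≤ 1) {s : ℂ} (hs : 3 / 2 ≤ s.re) :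
    LA N g s - LA N g' s = LA N (fun a => g a - g' a) s := by
  unfold LA
  rw [← (term_summable h g0 g1 hs).of_norm.tsum_sub (term_summable h h0 h1 hs).of_norm]
  refine tsum_congr fun a => ?_
  ring

/-- the difference of the Dirichlet polynomial and the series -/
theorem D_sub_L (h : NS N n) {α₁ α₂ : ℝ} {φ : ℝ → ℝ} (hφ : Cutf α₁ α₂ φ) {R : ℝ} (hR : 0 < R)
    {χ : M →*₀ ℂ} (h1 : ∀ a, ‖χ a‖ ≤ 1) {s : ℂ} (hs : 3 / 2 ≤ s.re) :
    ‖Dp N φ R ⌊Real.exp (α₂ * R)⌋₊ χ s - LA N χ s‖ ≤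
      Real.exp (-(α₁ * R * (s.re - 3 / 2))) * ZN N := by
  have e1 : Dp N φ R ⌊Real.exp (α₂ * R)⌋₊ χ s =
      LA N (fun a => (φ (lN N a / R) : ℂ) * χ a) s := by
    unfold Dp
    refine dpo_series h _ (fun a ha h' => ?_) s
    have h2 := not_SI h ha h'
    rw [hφ.zero _ (le_trans (by rw [le_div_iff₀ hR]; exact h2) (le_abs_self _)),
      Complex.ofReal_zero]
  have hφ1 : ∀ x, ‖(φ x : ℂ)‖ ≤ 1 := fun x => by
    rw [Complex.norm_real, Real.norm_of_nonneg (hφ.nn x)]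
    exact hφ.le x
  have hχ0 : χ 0 = 0 := map_zero _
  rw [e1, LA_sub h (by rw [hχ0, mul_zero]) (fun a => by
    rw [norm_mul]
    exact mul_le_one₀ (hφ1 _) (norm_nonneg _) (h1 a)) hχ0 h1 hs]
  refine tail_le h (by rw [hχ0]; simp) (fun a => ?_) (fun a ha hy => ?_) hs
  · have e3 : (φ (lN N a / R) : ℂ) * χ a - χ a =
        ((φ (lN N a / R) - 1 : ℝ) : ℂ) * χ a := by push_cast; ring
    rw [e3, norm_mul, Complex.norm_real]
    refine mul_le_one₀ ?_ (norm_nonneg _) (h1 a)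
    rw [Real.norm_eq_abs, abs_le]
    exact ⟨by linarith [hφ.nn (lN N a / R)], by linarith [hφ.le (lN N a / R)]⟩
  · have h3 : |lN N a / R| ≤ α₁ := by
      rw [abs_of_nonneg (div_nonneg (lN_nonneg _ _) hR.le), div_le_iff₀ hR]
      exact hy
    rw [hφ.one _ h3]
    push_cast
    ring

/-- the Moebius function is bounded -/
lemma mob_le (a : M) : ‖mob a‖ ≤ 1 := by
  unfold mob
  split_ifs
  · rw [norm_pow, norm_neg, norm_one, one_pow]
  · rw [norm_zero]; exact zero_le_one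

open Classical in
/-- the convolution identity of the Moebius function -/
lemma mob_conv (h : NS N n) {a : M} (ha : a ≠ 0) :
    ∑ q ∈ (SI N (N a) ×ˢ SI N (N a)).filter (fun q => q.1 * q.2 = a),
      mob q.2 = if a = 1 then 1 else 0 := by
  set F : ℝ → ℂ := fun y => if y ≤ lN N a then 1 else 0 with hF
  have hbig : ∀ d : M, d ≠ 0 → d ∉ SI N (N a) → F (lN N d) = 0 := by
    intro d hd hdM
    have h3 : ¬ N d ≤ N a := fun h' => hdM (h.SI_of hd h')
    have h4 : lN N a < lN N d := by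
      refine Real.log_lt_log (by exact_mod_cast h.pos ha) ?_
      exact_mod_cast (by omega : N a < N d)
    simp only [hF]
    rw [if_neg (by linarith)]
  have h1 := conv_eq h.ln ha (SI N (N a)) (SI N (N a)) F F hbig hbig
  have h2 : ∑ q ∈ (SI N (N a) ×ˢ SI N (N a)).filter
      (fun q => q.1 * q.2 = a), mob q.2 =
      ∑ q ∈ (SI N (N a) ×ˢ SI N (N a)).filter (fun q => q.1 * q.2 = a),
        F (lN N q.1) * (mob q.2 * F (lN N q.2)) := by
    refine Finset.sum_congr rfl fun q hq => ?_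
    rw [Finset.mem_filter, Finset.mem_product] at hq
    have h3 := h.ln.mul q.1 q.2 (h.SI_ne hq.1.1) (h.SI_ne hq.1.2)
    rw [hq.2] at h3
    have h4 := lN_nonneg N q.1
    have h5 := lN_nonneg N q.2
    simp only [hF]
    rw [if_pos (by linarith), if_pos (by linarith)]
    ring
  have h1' : ∑ q ∈ (SI N (N a) ×ˢ SI N (N a)).filter
      (fun q => q.1 * q.2 = a), F (lN N q.1) * (mob q.2 * F (lN N q.2)) = bc (lN N) F F a := by
    convert h1
  rw [h2, h1']
  unfold bc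
  have h6 : ∀ T ∈ (primeFactors a).powerset,
      (-1 : ℂ) ^ T.card * F (lN N (pd T)) * F (lN N a - lN N (pd T)) = (-1 : ℂ) ^ T.card := by
    intro T hT
    have h7 := pd_dvd ha (Finset.mem_powerset.mp hT)
    obtain ⟨c, hc⟩ := h7
    have hp := (pd_primes T (pf_primes a T hT)).1
    have hc0 : c ≠ 0 := fun h' => by rw [h', mul_zero] at hc; exact ha hc
    have h3 := h.ln.mul _ _ hp hc0
    rw [← hc] at h3
    have h4 := lN_nonneg N (pd T)
    have h5 := lN_nonneg N c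
    simp only [hF]
    rw [if_pos (by linarith), if_pos (by linarith)]
    ring
  rw [Finset.sum_congr rfl h6]
  have h8 : ∑ T ∈ (primeFactors a).powerset, (-1 : ℂ) ^ T.card =
      ((∑ T ∈ (primeFactors a).powerset, (-1 : ℤ) ^ T.card : ℤ) : ℂ) := by
    push_cast
    rfl
  rw [h8, Finset.sum_powerset_neg_one_pow_card]
  by_cases h9 : a = 1
  · rw [if_pos h9, if_pos]
    · simp
    · rw [h9]
      exact primeFactors_one
  · rw [if_neg h9, if_neg]
    · simp
    · intro h10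
      obtain ⟨p, hp, hpd⟩ := WfDvdMonoid.exists_irreducible_factor
        (fun h' => h9 (by
          obtain ⟨u, hu⟩ := h'
          rw [← hu, Subsingleton.elim u 1, Units.val_one])) ha
      have h11 := nf_of ha hp.prime hpd
      rw [h10] at h11
      exact absurd h11 (Finset.notMem_empty _)

open Classical in
/-- the reciprocal of the L-function -/
theorem LI_mul_mob (h : NS N n) {χ : M →*₀ ℂ} (h1 : ∀ a, ‖χ a‖ ≤ 1) {s : ℂ} (hs : 3 / 2 ≤ s.re) :
    LA N χ s * LA N (fun a => mob a * χ a) s = 1 := by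
  have hχ0 : χ 0 = 0 := map_zero _
  have hm0 : mob (0 : M) * χ 0 = 0 := by rw [hχ0, mul_zero]
  have hm1 : ∀ a : M, ‖mob a * χ a‖ ≤ 1 := fun a => by
    rw [norm_mul]
    exact mul_le_one₀ (mob_le a) (norm_nonneg _) (h1 a)
  set K : M → ℂ := fun a => ((N a : ℕ) : ℂ) ^ (-s) with hK
  have hKm : ∀ a b : M, K (a * b) = K a * K b := by
    intro a b
    simp only [hK]
    rw [map_mul, Nat.cast_mul, Complex.natCast_mul_natCast_cpow]
  have s1 := term_summable h hχ0 h1 hs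
  have s2 := term_summable h hm0 hm1 hs
  have hsum := summable_mul_of_summable_norm s1 s2
  have hh := (s1.of_norm.hasSum.mul s2.of_norm.hasSum hsum).tsum_fiberwise
    (fun q : M × M => q.1 * q.2)
  have hval : ∀ c : M, (∑' b : (fun q : M × M => q.1 * q.2) ⁻¹' {c},
      χ (b : M × M).1 * K (b : M × M).1 *
      (mob (b : M × M).2 * χ (b : M × M).2 *
        K (b : M × M).2)) = if c = 1 then 1 else 0 := by
    intro c
    have hterm : ∀ b : (fun q : M × M => q.1 * q.2) ⁻¹' {c},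
        χ (b : M × M).1 * K (b : M × M).1 *
        (mob (b : M × M).2 * χ (b : M × M).2 *
        K (b : M × M).2) =
        (χ c * K c) * mob (b : M × M).2 := by
      rintro ⟨⟨a, b⟩, hb⟩
      have hb' : a * b = c := hb
      simp only
      rw [← hb', map_mul, hKm]
      ring
    rw [tsum_congr hterm, tsum_mul_left]
    by_cases hc : c = 0
    · rw [hc, hχ0, zero_mul, zero_mul, if_neg zero_ne_one]
    · have hset : (fun q : M × M => q.1 * q.2) ⁻¹' {c} =
          (((SI N (N c) ×ˢ SI N (N c)).filter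
            (fun q => q.1 * q.2 = c) : Finset _) : Set (M × M)) := by
        ext ⟨a, b⟩
        simp only [mem_preimage, mem_singleton_iff, Finset.coe_filter, Finset.mem_product,
          mem_setOf_eq]
        refine ⟨fun h' => ⟨?_, h'⟩, fun h' => h'.2⟩
        have ha : a ≠ 0 := fun h'' => hc (by rw [← h', h'', zero_mul])
        have hb : b ≠ 0 := fun h'' => hc (by rw [← h', h'', mul_zero])
        have h3 := h.pos ha
        have h4 := h.pos hb
        rw [← h', map_mul]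
        exact ⟨h.SI_of ha (Nat.le_mul_of_pos_right _ h4), h.SI_of hb (Nat.le_mul_of_pos_left _ h3)⟩
      rw [hset, Finset.tsum_subtype' _ (fun q : M × M => mob q.2),
        mob_conv h hc]
      by_cases h9 : c = 1
      · rw [if_pos h9, h9, map_one, hK]
        simp
      · rw [if_neg h9, mul_zero]
  simp only [hK] at hval
  simp only [hval] at hh
  have h5 : HasSum (fun c : M => if c = 1 then (1 : ℂ) else 0) 1 :=
    hasSum_ite_eq 1 1
  exact hh.unique h5

/-- the mollified L-function is close to one on the right -/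
theorem LM_sub_one (h : NS N n) {β₁ β₂ : ℝ} {θ : ℝ → ℝ} (hθ : Cutf β₁ β₂ θ) {R : ℝ} (hR : 0 < R)
    {χ : M →*₀ ℂ} (h1 : ∀ a, ‖χ a‖ ≤ 1) {s : ℂ} (hs : 3 / 2 ≤ s.re) :
    ‖LA N χ s * Mp N θ R ⌊Real.exp (β₂ * R)⌋₊ χ s - 1‖ ≤
      Real.exp (-(β₁ * R * (s.re - 3 / 2))) * (ZN N * ZN N) := by
  have e1 : Mp N θ R ⌊Real.exp (β₂ * R)⌋₊ χ s =
      LA N (fun a => (mob a * (θ (lN N a / R) : ℂ)) * χ a) s := by
    unfold Mp
    refine dpo_series h _ (fun a ha h' => ?_) s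
    have h2 := not_SI h ha h'
    rw [hθ.zero _ (le_trans (by rw [le_div_iff₀ hR]; exact h2) (le_abs_self _)),
      Complex.ofReal_zero, mul_zero]
  have hθ1 : ∀ x, ‖(θ x : ℂ)‖ ≤ 1 := fun x => by
    rw [Complex.norm_real, Real.norm_of_nonneg (hθ.nn x)]
    exact hθ.le x
  have hχ0 : χ 0 = 0 := map_zero _
  have hm1 : ∀ a : M, ‖mob a * χ a‖ ≤ 1 := fun a => by
    rw [norm_mul]
    exact mul_le_one₀ (mob_le a) (norm_nonneg _) (h1 a)
  have hm2 : ∀ a : M, ‖(mob a * (θ (lN N a / R) : ℂ)) * χ a‖ ≤ 1 := fun a => by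
    have e3 : (mob a * (θ (lN N a / R) : ℂ)) * χ a =
      (mob a * χ a) * (θ (lN N a / R) : ℂ) := by ring
    rw [e3, norm_mul]
    exact mul_le_one₀ (hm1 a) (norm_nonneg _) (hθ1 _)
  have e2 := LI_mul_mob h h1 (s := s) hs
  have e4 : LA N χ s * Mp N θ R ⌊Real.exp (β₂ * R)⌋₊ χ s - 1 =
      LA N χ s * (LA N (fun a => (mob a * (θ (lN N a / R) : ℂ)) * χ a) s -
        LA N (fun a => mob a * χ a) s) := by
    rw [mul_sub, e2, e1]
  rw [e4, LA_sub h (by rw [hχ0, mul_zero]) hm2 (by rw [hχ0, mul_zero]) hm1 hs, norm_mul]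
  have h3 : ‖LA N χ s‖ ≤ ZN N := LA_le h hχ0 h1 hs
  have h4 := tail_le h (g := fun a => mob a * (θ (lN N a / R) : ℂ) * χ a -
    mob a * χ a) (y := β₁ * R) (by rw [hχ0]; simp) (fun a => ?_) (fun a ha hy => ?_) hs
  · calc ‖LA N χ s‖ * _ ≤ ZN N * (Real.exp (-(β₁ * R * (s.re - 3 / 2))) * ZN N) :=
          mul_le_mul h3 h4 (norm_nonneg _) (ZN_nonneg N)
      _ = _ := by ring
  · have e3 : mob a * (θ (lN N a / R) : ℂ) * χ a - mob a * χ a =
        ((θ (lN N a / R) - 1 : ℝ) : ℂ) * (mob a * χ a) := by push_cast; ring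
    rw [e3, norm_mul, Complex.norm_real]
    refine mul_le_one₀ ?_ (norm_nonneg _) (hm1 a)
    rw [Real.norm_eq_abs, abs_le]
    exact ⟨by linarith [hθ.nn (lN N a / R)], by linarith [hθ.le (lN N a / R)]⟩
  · have h5 : |lN N a / R| ≤ β₁ := by
      rw [abs_of_nonneg (div_nonneg (lN_nonneg _ _) hR.le), div_le_iff₀ hR]
      exact hy
    rw [hθ.one _ h5]
    push_cast
    ring

end

end Pool.Agent.T9h27.D
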